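import Pool.Agent.Helper73.BT.Base

set_option autoImplicit false

namespace Pool.Agent.Helper73.BT

open Finset Pool.Agent.H61.Sieve

lemma hit_add (k : ℕ) (J : Finset ℕ) (p s : ℕ) : hit k J p (s + p) ↔ hit k J p s := by
  unfold hit
  refine exists_congr fun j => and_congr_right fun _ => ?_
  have e : s + p + j * k = (s + j * k) + p := by ring
  rw [e]
  exact (Nat.dvd_add_left (dvd_refl p))

lemma avg_one (k : ℕ) (J P : Finset ℕ) (hP : ∀ p ∈ P, p.Prime) :
    ∏ p ∈ P, (1 - (rh k J p : ℝ) / p) =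
      (∑ b ∈ range (∏ p ∈ P, p), if ∀ p ∈ P, ¬ hit k J p b then (1 : ℝ) else 0) /
        ((∏ p ∈ P, p : ℕ) : ℝ) := by
  have hQ : (0 : ℝ) < ((∏ p ∈ P, p : ℕ) : ℝ) := by
    exact_mod_cast Finset.prod_pos fun p hp => (hP p hp).pos
  rw [eq_div_iff hQ.ne']
  have h1 := crt_prod (fun p s => if hit k J p s then (0 : ℝ) else 1) P (fun p hp => (hP p hp).pos)
    (fun p hp q hq hne => (Nat.coprime_primes (hP p hp) (hP q hq)).mpr hne)
    (fun p _ s => by simp only [hit_add])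
  have h2 : ∀ b : ℕ, (∏ p ∈ P, (if hit k J p b then (0 : ℝ) else 1)) =
      if ∀ p ∈ P, ¬ hit k J p b then (1 : ℝ) else 0 := by
    intro b
    split_ifs with h
    · exact Finset.prod_eq_one fun p hp => by rw [if_neg (h p hp)]
    · push Not at h
      obtain ⟨p, hp, hh⟩ := h
      exact Finset.prod_eq_zero hp (by rw [if_pos hh])
  simp only [h2] at h1
  rw [h1, Nat.cast_prod, ← Finset.prod_mul_distrib]
  refine Finset.prod_congr rfl fun p hp => ?_
  rw [sum_ite_bad (hit k J) p 0 1]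
  have : (p : ℝ) ≠ 0 := by exact_mod_cast (hP p hp).pos.ne'
  unfold rh
  field_simp
  ring

theorem avg : S_AVG := by
  classical
  intro k z r P K hP hK
  have hQ : (0 : ℝ) < ((∏ p ∈ P, p : ℕ) : ℝ) := by
    exact_mod_cast Finset.prod_pos fun p hp => (hP p hp).pos
  simp only [avg_one k _ P hP]
  rw [← Finset.sum_div, Finset.sum_comm, div_le_iff₀ hQ]
  have h1 : ∀ b : ℕ, ∑ J ∈ powersetCard r (Icc 1 z),
      (if ∀ p ∈ P, ¬ hit k J p b then (1 : ℝ) else 0) = (((Rs P k z b).card.choose r : ℕ) : ℝ) := by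
    intro b
    have h5 : (powersetCard r (Icc 1 z)).filter (fun J => ∀ p ∈ P, ¬ hit k J p b) =
        powersetCard r (Rs P k z b) := by
      ext J
      rw [mem_filter, mem_powersetCard, mem_powersetCard]
      constructor
      · rintro ⟨⟨h2, h3⟩, h4⟩
        exact ⟨fun j hj => mem_filter.mpr ⟨h2 hj, fun p hp h5 => h4 p hp ⟨j, hj, h5⟩⟩, h3⟩
      · rintro ⟨h2, h3⟩
        exact ⟨⟨fun j hj => (mem_filter.mp (h2 hj)).1, h3⟩,
          fun p hp ⟨j, hj, h5⟩ => (mem_filter.mp (h2 hj)).2 p hp h5⟩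
    rw [← Finset.card_powersetCard, ← h5, ← Finset.sum_filter, Finset.sum_const, nsmul_eq_mul,
      mul_one]
  calc ∑ b ∈ range (∏ p ∈ P, p), ∑ J ∈ powersetCard r (Icc 1 z),
      (if ∀ p ∈ P, ¬ hit k J p b then (1 : ℝ) else 0)
      = ∑ b ∈ range (∏ p ∈ P, p), (((Rs P k z b).card.choose r : ℕ) : ℝ) :=
        Finset.sum_congr rfl fun b _ => h1 b
    _ ≤ ∑ b ∈ range (∏ p ∈ P, p), K := Finset.sum_le_sum fun b _ => hK b
    _ = _ := by simp [mul_comm]

end Pool.Agent.Helper73.BT
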