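import Pool.Agent.Helper73.BT.Base

/-!
# BT, module ETA: the form of the tail bound with `N(x, y; k, l)`
-/

set_option autoImplicit false

namespace Pool.Agent.Helper73.BT

open Finset

/-- `N(n + y, y; k, n)` is the number of the primes among `n + k, …, n + ⌊y/k⌋ k` -/
lemma eta_N_eq (k n : ℕ) (y : ℝ) (hk : 1 ≤ k) (hy : 0 ≤ y) :
    N ((n : ℝ) + y) y k n = cnt k ⌊y / k⌋₊ n := by
  have hk0 : (0 : ℝ) < k := by exact_mod_cast hk
  unfold N cnt
  have himg : {p : ℕ | p.Prime ∧ (p : ℤ) ≡ (n : ℤ) [ZMOD (k : ℤ)] ∧ (n : ℝ) + y - y < p ∧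
      (p : ℝ) ≤ (n : ℝ) + y} =
      (((Icc 1 ⌊y / k⌋₊).filter (fun j => (n + j * k).Prime)).image (fun j => n + j * k) :
        Finset ℕ) := by
    ext p
    simp only [Set.mem_ofPred_eq, coe_image, coe_filter, mem_Icc, Set.mem_image]
    constructor
    · rintro ⟨hp, hmod, h1, h2⟩
      have hnp : n < p := by
        have : (n : ℝ) < p := by linarith
        exact_mod_cast this
      have hdvd : (k : ℤ) ∣ (p : ℤ) - n := (Int.modEq_iff_dvd.mp hmod.symm)
      obtain ⟨q, hq⟩ := hdvd
      have hqpos : 0 < q := by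
        by_contra hcon
        push Not at hcon
        have : (k : ℤ) * q ≤ 0 := mul_nonpos_of_nonneg_of_nonpos (by positivity) hcon
        have h3 : (n : ℤ) < p := by exact_mod_cast hnp
        omega
      obtain ⟨j, rfl⟩ : ∃ j : ℕ, (j : ℤ) = q := ⟨q.toNat, by simp [hqpos.le]⟩
      have hpj : p = n + j * k := by
        have : (p : ℤ) = n + j * k := by rw [mul_comm (j : ℤ)]; omega
        exact_mod_cast this
      refine ⟨j, ⟨⟨by exact_mod_cast hqpos, ?_⟩, by rw [← hpj]; exact hp⟩, hpj.symm⟩
      apply Nat.le_floor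
      rw [le_div_iff₀ hk0]
      have : (p : ℝ) = n + j * k := by rw [hpj]; push_cast; ring
      linarith
    · rintro ⟨j, ⟨⟨hj1, hj2⟩, hp⟩, rfl⟩
      have hj2' : (j : ℝ) ≤ y / k := (Nat.le_floor_iff (by positivity)).mp hj2
      rw [le_div_iff₀ hk0] at hj2'
      have hj1' : (1 : ℝ) ≤ j := by exact_mod_cast hj1
      refine ⟨hp, ?_, ?_, ?_⟩
      · rw [Int.modEq_iff_dvd]
        push_cast
        exact ⟨-j, by ring⟩
      · push_cast
        nlinarith
      · push_cast
        linarith
  rw [himg, Set.ncard_coe_finset, card_image_of_injective]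
  intro a b hab
  have : a * k = b * k := by simpa using hab
  exact Nat.eq_of_mul_eq_mul_right (by omega) this

theorem eta (h : S_TAIL) : S_ETA := by
  obtain ⟨c, C, hc, hC, h⟩ := h
  have part1 : ∀ (k M L : ℕ) (y m : ℝ), 1 ≤ k → 2 ≤ L → (k : ℝ) ≤ y → y ≤ k * L →
      (((Ioc M (M + L)).filter (fun n : ℕ => m ≤ N (n + y) y k n)).card : ℝ) ≤
        C * L * Real.exp (-((c / 2) * m / (1 + y / (Nat.totient k * Real.log L)))) := by
    intro k M L y m hk hL hy1 hy2
    have hk0 : (0 : ℝ) < k := by exact_mod_cast hk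
    have hy0 : 0 ≤ y := hk0.le.trans hy1
    set z : ℕ := ⌊y / k⌋₊ with hz
    have hz1 : 1 ≤ z := by
      apply Nat.le_floor
      rw [Nat.cast_one, le_div_iff₀ hk0]
      linarith
    have hzk : (k : ℝ) * z ≤ y := by
      have : (z : ℝ) ≤ y / k := Nat.floor_le (by positivity)
      rw [le_div_iff₀ hk0] at this
      linarith
    have hzL : z ≤ L := by
      have : (z : ℝ) ≤ L := by
        have h1 : (k : ℝ) * z ≤ k * L := hzk.trans hy2
        exact le_of_mul_le_mul_left h1 hk0
      exact_mod_cast this
    have hlog : 0 < Real.log L := Real.log_pos (by exact_mod_cast (by omega : 1 < L))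
    have hphi : 0 < (Nat.totient k : ℝ) := by exact_mod_cast Nat.totient_pos.mpr (by omega)
    have hd : 0 < (Nat.totient k : ℝ) * Real.log L := by positivity
    have hcard : (((Ioc M (M + L)).filter (fun n : ℕ => m ≤ N (n + y) y k n)).card : ℝ) ≤
        (((Ioc M (M + L)).filter (fun n => ⌈m⌉₊ ≤ cnt k z n)).card : ℝ) := by
      norm_cast
      apply card_le_card
      intro n hn
      rw [mem_filter] at hn ⊢
      refine ⟨hn.1, ?_⟩
      rw [Nat.ceil_le]
      have := hn.2
      rw [eta_N_eq k n y hk hy0] at this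
      exact this
    refine hcard.trans ((h k z M L ⌈m⌉₊ hk hz1 hzL hL).trans ?_)
    have hCL : 0 ≤ C * (L : ℝ) := by positivity
    refine mul_le_mul_of_nonneg_left (Real.exp_le_exp.mpr (neg_le_neg ?_)) hCL
    have hq1 : 0 < 1 + (k : ℝ) * z / (Nat.totient k * Real.log L) := by positivity
    have hq2 : 1 + (k : ℝ) * z / (Nat.totient k * Real.log L) ≤
        1 + y / (Nat.totient k * Real.log L) := by
      gcongr
    have hq3 : 0 < 1 + y / (Nat.totient k * Real.log L) := by positivity
    rcases le_or_gt 0 m with hm | hm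
    · calc (c / 2) * m / (1 + y / (Nat.totient k * Real.log L))
          ≤ c * ⌈m⌉₊ / (1 + y / (Nat.totient k * Real.log L)) := by
            apply div_le_div_of_nonneg_right _ hq3.le
            have := Nat.le_ceil m
            nlinarith
        _ ≤ c * ⌈m⌉₊ / (1 + (k : ℝ) * z / (Nat.totient k * Real.log L)) := by
            apply div_le_div_of_nonneg_left _ hq1 hq2
            positivity
    · have h1 : (c / 2) * m / (1 + y / (Nat.totient k * Real.log L)) ≤ 0 := by
        apply div_nonpos_of_nonpos_of_nonneg _ hq3.le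
        nlinarith
      have h2 : 0 ≤ c * (⌈m⌉₊ : ℝ) / (1 + (k : ℝ) * z / (Nat.totient k * Real.log L)) := by
        positivity
      linarith
  refine ⟨c / 2 / 2, C, by positivity, hC, ?_, ?_⟩
  · intro k M L y m hk hL hy1 hy2
    have hk0 : (0 : ℝ) < k := by exact_mod_cast hk
    have hlog : 0 < Real.log L := Real.log_pos (by exact_mod_cast (by omega : 1 < L))
    have hphi : 0 < (Nat.totient k : ℝ) := by exact_mod_cast Nat.totient_pos.mpr (by omega)
    have hy0 : 0 ≤ y := hk0.le.trans hy1
    have hq3 : 0 < 1 + y / (Nat.totient k * Real.log L) := by positivity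
    rcases le_or_gt 0 m with hm | hm
    · refine (part1 k M L y m hk hL hy1 hy2).trans ?_
      refine mul_le_mul_of_nonneg_left (Real.exp_le_exp.mpr (neg_le_neg ?_)) (by positivity)
      apply div_le_div_of_nonneg_right _ hq3.le
      nlinarith
    · have h0 := part1 k M L y 0 hk hL hy1 hy2
      have h1 : (((Ioc M (M + L)).filter (fun n : ℕ => m ≤ N (n + y) y k n)).card : ℝ) ≤
          (((Ioc M (M + L)).filter (fun n : ℕ => (0 : ℝ) ≤ N (n + y) y k n)).card : ℝ) := by
        norm_cast
        apply card_le_card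
        intro n hn
        rw [mem_filter] at hn ⊢
        exact ⟨hn.1, Nat.cast_nonneg _⟩
      refine h1.trans (h0.trans ?_)
      refine mul_le_mul_of_nonneg_left (Real.exp_le_exp.mpr (neg_le_neg ?_)) (by positivity)
      rw [mul_zero, zero_div]
      apply div_nonpos_of_nonpos_of_nonneg _ hq3.le
      nlinarith
  · intro k M L y η hk hL hη hy1 hy2 hy3
    have hk0 : (0 : ℝ) < k := by exact_mod_cast hk
    have hlog : 0 < Real.log L := Real.log_pos (by exact_mod_cast (by omega : 1 < L))
    have hphi : 0 < (Nat.totient k : ℝ) := by exact_mod_cast Nat.totient_pos.mpr (by omega)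
    have hphik : (Nat.totient k : ℝ) ≤ k := by exact_mod_cast Nat.totient_le k
    have hy0 : 0 < y := by linarith
    have hlogy : 0 < Real.log (y / k) := by
      apply Real.log_pos
      rw [lt_div_iff₀ hk0]
      linarith
    have hd : 0 < (Nat.totient k : ℝ) * Real.log L := by positivity
    have hmu : 1 ≤ y / (Nat.totient k * Real.log L) := by
      rw [le_div_iff₀ hd, one_mul]
      calc (Nat.totient k : ℝ) * Real.log L ≤ k * Real.log L := by gcongr
        _ ≤ y := hy2
    refine (part1 k M L y _ hk hL (by linarith) hy3).trans ?_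
    refine mul_le_mul_of_nonneg_left (Real.exp_le_exp.mpr (neg_le_neg ?_)) (by positivity)
    have hmu2 : 1 + y / (Nat.totient k * Real.log L) ≤ 2 * (y / (Nat.totient k * Real.log L)) := by
      linarith
    calc c / 2 / 2 * η * Real.log L / Real.log (y / k)
        = (c / 2) * (η * y / (Nat.totient k * Real.log (y / k))) /
            (2 * (y / (Nat.totient k * Real.log L))) := by
          field_simp
      _ ≤ (c / 2) * (η * y / (Nat.totient k * Real.log (y / k))) /
            (1 + y / (Nat.totient k * Real.log L)) := by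
          apply div_le_div_of_nonneg_left _ (by positivity) hmu2
          positivity

end Pool.Agent.Helper73.BT
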