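import Pool.Agent.Helper73.BT.Base

set_option autoImplicit false

namespace Pool.Agent.Helper73.BT

open Finset

/-- RES. The distribution over the residue classes, for one interval. -/
def S_RES : Prop := ∃ c C : ℝ, 0 < c ∧ 0 < C ∧
  (∀ (k : ℕ) (x y m : ℝ), 2 ≤ k → (k : ℝ) ≤ y → y ≤ (k : ℝ) ^ 2 →
    (((range k).filter (fun l : ℕ => m ≤ N x y k l)).card : ℝ) ≤
      C * k * Real.exp (-(c * m / (1 + y / (Nat.totient k * Real.log k))))) ∧
  (∀ (k : ℕ) (x y η : ℝ), 2 ≤ k → 0 < η → 2 * (k : ℝ) ≤ y → k * Real.log k ≤ y →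
    y ≤ (k : ℝ) ^ 2 →
    (((range k).filter (fun l : ℕ =>
      η * y / (Nat.totient k * Real.log (y / k)) ≤ N x y k l)).card : ℝ) ≤
      C * k * Real.exp (-(c * η * Real.log k / Real.log (y / k))))

lemma N_finite (x y : ℝ) (k : ℕ) (l : ℤ) :
    {p : ℕ | p.Prime ∧ (p : ℤ) ≡ l [ZMOD (k : ℤ)] ∧ x - y < p ∧ (p : ℝ) ≤ x}.Finite := by
  refine (Set.finite_Iic ⌊x⌋₊).subset ?_
  rintro p ⟨_, _, _, h⟩
  exact Nat.le_floor h

/-- the representative of the class of `l` in `(M, M + k]` -/
def repr (M k l : ℕ) : ℕ := M + 1 + (l + (k - 1) * (M + 1)) % k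

lemma repr_mem (M k l : ℕ) (hk : 2 ≤ k) : M < repr M k l ∧ repr M k l ≤ M + k := by
  unfold repr
  have := Nat.mod_lt (l + (k - 1) * (M + 1)) (by omega : 0 < k)
  omega

lemma repr_mod (M k l : ℕ) (hk : 2 ≤ k) : repr M k l ≡ l [MOD k] := by
  unfold repr
  have h1 : M + 1 + (l + (k - 1) * (M + 1)) % k ≡ M + 1 + (l + (k - 1) * (M + 1)) [MOD k] :=
    Nat.ModEq.add_left _ (Nat.mod_modEq _ _)
  have h2 : M + 1 + (l + (k - 1) * (M + 1)) = l + k * (M + 1) := by
    obtain ⟨j, rfl⟩ : ∃ j, k = j + 1 := ⟨k - 1, by omega⟩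
    simp only [Nat.add_sub_cancel]
    ring
  rw [h2] at h1
  refine h1.trans ?_
  exact Nat.add_mul_mod_self_left l k (M + 1)

lemma N_le_repr (k l : ℕ) (x y : ℝ) (hk : 2 ≤ k) :
    N x y k l ≤ N ((repr (⌊x - y⌋₊ - k) k l : ℕ) + (y + k)) (y + k) k
      (repr (⌊x - y⌋₊ - k) k l : ℕ) + 1 := by
  set M := ⌊x - y⌋₊ - k with hM
  set n := repr M k l with hn
  have hn1 := repr_mem M k l hk
  have hn2 := repr_mod M k l hk
  rw [← hn] at hn1 hn2
  have hn2' : (n : ℤ) ≡ (l : ℤ) [ZMOD (k : ℤ)] := (Int.natCast_modEq_iff).mpr hn2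
  unfold N
  have hsub : {p : ℕ | p.Prime ∧ (p : ℤ) ≡ (l : ℤ) [ZMOD (k : ℤ)] ∧ x - y < p ∧ (p : ℝ) ≤ x} ⊆
      {p : ℕ | p.Prime ∧ (p : ℤ) ≡ (n : ℤ) [ZMOD (k : ℤ)] ∧
        ((n : ℕ) : ℝ) + (y + k) - (y + k) < p ∧ (p : ℝ) ≤ (n : ℕ) + (y + k)} ∪ {n} := by
    rintro p ⟨hp, hpl, h1, h2⟩
    have hpn : (p : ℤ) ≡ (n : ℤ) [ZMOD (k : ℤ)] := hpl.trans hn2'.symm
    have hlt : x - y < (⌊x - y⌋₊ : ℝ) + 1 := Nat.lt_floor_add_one _
    have hMk : (⌊x - y⌋₊ : ℝ) ≤ M + k := by
      have : ⌊x - y⌋₊ ≤ M + k := by omega
      exact_mod_cast this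
    have hMn : (M : ℝ) + 1 ≤ n := by exact_mod_cast hn1.1
    have hge : n ≤ p := by
      by_contra hcon
      push Not at hcon
      by_cases hc : k ≤ ⌊x - y⌋₊
      · have h3 : M + k = ⌊x - y⌋₊ := by omega
        have h4 : (⌊x - y⌋₊ : ℝ) ≤ x - y := by
          refine Nat.floor_le ?_
          by_contra h5
          push Not at h5
          rw [Nat.floor_of_nonpos h5.le] at hc
          omega
        have h5 : (n : ℝ) ≤ ⌊x - y⌋₊ := by exact_mod_cast (by omega : n ≤ ⌊x - y⌋₊)
        have h6 : (p : ℝ) < n := by exact_mod_cast hcon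
        linarith
      · have h3 : M = 0 := by omega
        have h4 : p ≡ n [MOD k] := (Int.natCast_modEq_iff).mp hpn
        have h5 : k ∣ n - p := (Nat.modEq_iff_dvd' hcon.le).mp h4
        have h6 := Nat.le_of_dvd (by omega) h5
        have := hp.one_lt
        omega
    rcases hge.lt_or_eq with h3 | h3
    · left
      have h4 : (n : ℝ) < p := by exact_mod_cast h3
      refine ⟨hp, hpn, by linarith, by linarith⟩
    · right
      exact h3.symm
  refine (Set.ncard_le_ncard hsub ((N_finite _ _ k _).union (Set.finite_singleton _))).trans ?_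
  refine (Set.ncard_union_le _ _).trans ?_
  rw [Set.ncard_singleton]

theorem res (h : S_ETA) : S_RES := by
  obtain ⟨c, C, hc, hC, h1, -⟩ := h
  -- part 1
  have main : ∀ (k : ℕ) (x y m : ℝ), 2 ≤ k → (k : ℝ) ≤ y → y ≤ (k : ℝ) ^ 2 →
      (((range k).filter (fun l : ℕ => m ≤ N x y k l)).card : ℝ) ≤
      (1 + 2 * C * Real.exp c) * k *
        Real.exp (-(c / 2 * m / (1 + y / (Nat.totient k * Real.log k)))) := by
    intro k x y m hk hky hyk
    have hk0 : (0 : ℝ) < k := by exact_mod_cast (by omega : 0 < k)
    have hk2 : (2 : ℝ) ≤ k := by exact_mod_cast hk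
    have hlk : 0 < Real.log k := Real.log_pos (by linarith)
    have hφ : (0 : ℝ) < Nat.totient k := by exact_mod_cast Nat.totient_pos.mpr (by omega)
    have hy0 : 0 < y := by linarith
    set μ := y / (Nat.totient k * Real.log k) with hμ
    have hμ0 : 0 < μ := by positivity
    rcases lt_or_ge m 0 with hm | hm
    · have h2 : (((range k).filter (fun l : ℕ => m ≤ N x y k l)).card : ℝ) ≤ k := by
        have : ((range k).filter (fun l : ℕ => m ≤ N x y k l)).card ≤ k := by
          refine (Finset.card_filter_le _ _).trans ?_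
          simp
        exact_mod_cast this
      have h3 : 1 ≤ Real.exp (-(c / 2 * m / (1 + μ))) := by
        refine Real.one_le_exp ?_
        have : c / 2 * m / (1 + μ) ≤ 0 :=
          div_nonpos_of_nonpos_of_nonneg (by nlinarith) (by linarith)
        linarith
      have h4 : (1 : ℝ) ≤ 1 + 2 * C * Real.exp c := by
        have : 0 < Real.exp c := Real.exp_pos c
        have : 0 ≤ 2 * C * Real.exp c := by positivity
        linarith
      calc (((range k).filter (fun l : ℕ => m ≤ N x y k l)).card : ℝ) ≤ 1 * k * 1 := by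
            linarith
        _ ≤ _ := by gcongr
    · set M := ⌊x - y⌋₊ - k with hM
      have h2 := h1 k M (2 * k) (y + k) (m - 1) (by omega) (by omega) (by linarith)
        (by push_cast; nlinarith)
      have h3 : ((range k).filter (fun l : ℕ => m ≤ N x y k l)).card ≤
          ((Ioc M (M + 2 * k)).filter
            (fun n : ℕ => m - 1 ≤ N (n + (y + k)) (y + k) k n)).card := by
        refine Finset.card_le_card_of_injOn (fun l => repr M k l) ?_ ?_
        · intro l hl
          have hl' := mem_filter.mp (Finset.mem_coe.mp hl)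
          refine Finset.mem_coe.mpr (mem_filter.mpr ⟨?_, ?_⟩)
          · have h7 := repr_mem M k l hk
            exact mem_Ioc.mpr ⟨h7.1, h7.2.trans (by omega)⟩
          · have h4 := N_le_repr k l x y hk
            have h5 : (N x y k l : ℝ) ≤ (N ((repr M k l : ℕ) + (y + k)) (y + k) k
              (repr M k l : ℕ) : ℝ) + 1 := by exact_mod_cast h4
            have h6 := hl'.2
            linarith
        · intro l hl l' hl' he
          have h4 := mem_range.mp (mem_filter.mp (Finset.mem_coe.mp hl)).1
          have h5 := mem_range.mp (mem_filter.mp (Finset.mem_coe.mp hl')).1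
          have h6 := repr_mod M k l hk
          have h7 := repr_mod M k l' hk
          simp only at he
          rw [he] at h6
          have h8 : l ≡ l' [MOD k] := h6.symm.trans h7
          exact Nat.ModEq.eq_of_lt_of_lt h8 h4 h5
      have h3' : (((range k).filter (fun l : ℕ => m ≤ N x y k l)).card : ℝ) ≤
          (((Ioc M (M + 2 * k)).filter
            (fun n : ℕ => m - 1 ≤ N (n + (y + k)) (y + k) k n)).card : ℝ) := by
        exact_mod_cast h3
      refine (h3'.trans h2).trans ?_
      have hl2k : Real.log k ≤ Real.log ((2 * k : ℕ) : ℝ) := by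
        refine Real.log_le_log hk0 ?_
        push_cast; linarith
      set μ' := (y + k) / (Nat.totient k * Real.log ((2 * k : ℕ) : ℝ)) with hμ'
      have hμ'0 : 0 ≤ μ' := by
        have : 0 < Real.log ((2 * k : ℕ) : ℝ) := by linarith
        positivity
      have hμμ : μ' ≤ 2 * μ := by
        rw [hμ', hμ, ← mul_div_assoc]
        refine div_le_div₀ (by positivity) (by linarith) (by positivity) ?_
        exact mul_le_mul_of_nonneg_left hl2k hφ.le
      have h4 : -(c * (m - 1) / (1 + μ')) ≤ c + -(c / 2 * m / (1 + μ)) := by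
        have h5 : c * (m - 1) / (1 + μ') = c * m / (1 + μ') - c / (1 + μ') := by ring
        have h6 : c / (1 + μ') ≤ c := div_le_self hc.le (by linarith)
        have h7 : c / 2 * m / (1 + μ) ≤ c * m / (1 + μ') := by
          rw [div_le_div_iff₀ (by linarith) (by linarith)]
          have h8 : 1 + μ' ≤ 2 * (1 + μ) := by linarith
          have h9 : 0 ≤ c * m := by positivity
          nlinarith
        rw [h5]; linarith
      calc C * ((2 * k : ℕ) : ℝ) * Real.exp (-(c * (m - 1) / (1 + μ')))
          ≤ C * ((2 * k : ℕ) : ℝ) * Real.exp (c + -(c / 2 * m / (1 + μ))) := by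
            refine mul_le_mul_of_nonneg_left (Real.exp_le_exp.mpr h4) (by positivity)
        _ = (2 * C * Real.exp c) * k * Real.exp (-(c / 2 * m / (1 + μ))) := by
            rw [Real.exp_add]; push_cast; ring
        _ ≤ _ := by
            gcongr
            linarith
  refine ⟨c / 4, 1 + 2 * C * Real.exp c, by positivity, by positivity, ?_, ?_⟩
  · intro k x y m hk hky hyk
    rcases lt_or_ge m 0 with hm | hm
    · -- weaken differently: use the bound with m
      have hk0 : (0 : ℝ) < k := by exact_mod_cast (by omega : 0 < k)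
      have hk2 : (2 : ℝ) ≤ k := by exact_mod_cast hk
      have hlk : 0 < Real.log k := Real.log_pos (by linarith)
      have hφ : (0 : ℝ) < Nat.totient k := by exact_mod_cast Nat.totient_pos.mpr (by omega)
      have hy0 : 0 < y := by linarith
      have hμ0 : 0 < y / (Nat.totient k * Real.log k) := by positivity
      have h2 : (((range k).filter (fun l : ℕ => m ≤ N x y k l)).card : ℝ) ≤ k := by
        have : ((range k).filter (fun l : ℕ => m ≤ N x y k l)).card ≤ k := by
          refine (Finset.card_filter_le _ _).trans ?_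
          simp
        exact_mod_cast this
      have h3 : 1 ≤ Real.exp (-(c / 4 * m / (1 + y / (Nat.totient k * Real.log k)))) := by
        refine Real.one_le_exp ?_
        have : c / 4 * m / (1 + y / (Nat.totient k * Real.log k)) ≤ 0 :=
          div_nonpos_of_nonpos_of_nonneg (by nlinarith) (by linarith)
        linarith
      have h4 : (1 : ℝ) ≤ 1 + 2 * C * Real.exp c := by
        have : 0 ≤ 2 * C * Real.exp c := by positivity
        linarith
      calc (((range k).filter (fun l : ℕ => m ≤ N x y k l)).card : ℝ) ≤ 1 * k * 1 := by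
            linarith
        _ ≤ _ := by gcongr
    · refine (main k x y m hk hky hyk).trans ?_
      have hk2 : (2 : ℝ) ≤ k := by exact_mod_cast hk
      have hlk : 0 < Real.log k := Real.log_pos (by linarith)
      have hφ : (0 : ℝ) < Nat.totient k := by exact_mod_cast Nat.totient_pos.mpr (by omega)
      have hy0 : 0 < y := by linarith
      have hμ0 : 0 < y / (Nat.totient k * Real.log k) := by positivity
      gcongr
      linarith
  · intro k x y η hk hη hky hlog hyk
    have hk0 : (0 : ℝ) < k := by exact_mod_cast (by omega : 0 < k)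
    have hk2 : (2 : ℝ) ≤ k := by exact_mod_cast hk
    have hlk : 0 < Real.log k := Real.log_pos (by linarith)
    have hφ : (0 : ℝ) < Nat.totient k := by exact_mod_cast Nat.totient_pos.mpr (by omega)
    have hφk : (Nat.totient k : ℝ) ≤ k := by exact_mod_cast Nat.totient_le k
    have hy0 : 0 < y := by linarith
    have hyk2 : 2 ≤ y / k := by rw [le_div_iff₀ hk0]; linarith
    have hlyk : 0 < Real.log (y / k) := Real.log_pos (by linarith)
    refine (main k x y (η * y / (Nat.totient k * Real.log (y / k))) hk (by linarith) hyk).trans ?_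
    set μ := y / (Nat.totient k * Real.log k) with hμ
    have hμ1 : 1 ≤ μ := by
      rw [hμ, one_le_div (by positivity)]
      nlinarith
    have h3 : c / 4 * η * Real.log k / Real.log (y / k) ≤
        c / 2 * (η * y / (Nat.totient k * Real.log (y / k))) / (1 + μ) := by
      have h4 : c / 4 * η * Real.log k / Real.log (y / k) =
          c / 2 * (η * y / (Nat.totient k * Real.log (y / k))) / (2 * μ) := by
        rw [hμ]
        field_simp
        ring
      rw [h4]
      refine div_le_div_of_nonneg_left (by positivity) (by linarith) (by linarith)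
    gcongr

end Pool.Agent.Helper73.BT
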