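import Pool.Agent.Helper73.BT.GGEO
import Pool.Agent.Helper73.BT.ETA
import Pool.Agent.Helper73.BT.RES

set_option autoImplicit false

namespace Pool.Agent.Helper73.BT

open Finset

/-- `y / (φ(k) log L)` -/
noncomputable def mu (k : ℕ) (y : ℝ) (L : ℕ) : ℝ := y / (Nat.totient k * Real.log L)

lemma geo_conv (μ t : ℝ) (hμ : 0 < μ) :
    (μ / (1 + μ)) ^ t = Real.exp (-(t * Real.log (1 + 1 / μ))) := by
  rw [Real.rpow_def_of_pos (by positivity)]
  congr 1
  have h : μ / (1 + μ) = (1 + 1 / μ)⁻¹ := by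
    field_simp
    ring
  rw [h, Real.log_inv]
  ring

/-- the geometric tail, over the positions -/
theorem positions (h : S_GGEO) : ∃ c C : ℝ, 0 < c ∧ 0 < C ∧
    ∀ (k q a M L : ℕ) (y m : ℝ), 1 ≤ k → 1 ≤ q → (∀ p : ℕ, p.Prime → p ∣ q → p ∣ k) → 2 ≤ L →
      (k : ℝ) ≤ y → y ≤ k * L → 0 ≤ m →
      (((Ioc M (M + L)).filter (fun t : ℕ =>
        m ≤ N ((a + q * t : ℕ) + y) y k (a + q * t : ℕ))).card : ℝ) ≤
        C * L * (mu k y L / (1 + mu k y L)) ^ (c * m) := by
  obtain ⟨c, C, hc, hC, h⟩ := h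
  refine ⟨c, C, hc, by linarith, ?_⟩
  intro k q a M L y m hk hq hqk hL hy1 hy2 hm
  have hk0 : (0 : ℝ) < k := by exact_mod_cast hk
  have hy0 : 0 < y := by linarith
  set z : ℕ := ⌊y / k⌋₊ with hz
  have hz1 : 1 ≤ z := by
    apply Nat.le_floor
    rw [Nat.cast_one, le_div_iff₀ hk0]
    linarith
  have hz0 : (0 : ℝ) < z := by exact_mod_cast hz1
  have hzk : (k : ℝ) * z ≤ y := by
    have : (z : ℝ) ≤ y / k := Nat.floor_le (by positivity)
    rw [le_div_iff₀ hk0] at this
    linarith
  have hzL : z ≤ L := by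
    have : (z : ℝ) ≤ L := by
      have h1 : (k : ℝ) * z ≤ k * L := hzk.trans hy2
      exact le_of_mul_le_mul_left h1 hk0
    exact_mod_cast this
  have hlog : 0 < Real.log L := Real.log_pos (by exact_mod_cast (by omega : 1 < L))
  have hphi : 0 < (Nat.totient k : ℝ) := by exact_mod_cast Nat.totient_pos.mpr (by omega)
  have hd : 0 < (Nat.totient k : ℝ) * Real.log L := by positivity
  have hcard : (((Ioc M (M + L)).filter (fun t : ℕ =>
        m ≤ N ((a + q * t : ℕ) + y) y k (a + q * t : ℕ))).card : ℝ) ≤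
      (((Ioc M (M + L)).filter (fun t => ⌈m⌉₊ ≤ cnt k z (a + q * t))).card : ℝ) := by
    refine Nat.cast_le.mpr ?_
    apply card_le_card
    intro n hn
    rw [mem_filter] at hn ⊢
    refine ⟨hn.1, ?_⟩
    rw [Nat.ceil_le]
    have := hn.2
    rw [eta_N_eq k (a + q * n) y hk hy0.le] at this
    exact this
  refine hcard.trans ((h k q a z M L ⌈m⌉₊ hk hq hqk hz1 hzL hL).trans ?_)
  have hμ0 : 0 < mu k y L := by unfold mu; positivity
  rw [geo_conv _ _ hμ0]
  have hCL : 0 ≤ C * (L : ℝ) := by positivity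
  refine mul_le_mul_of_nonneg_left (Real.exp_le_exp.mpr (neg_le_neg ?_)) hCL
  have hμz0 : 0 < (k : ℝ) * z / (Nat.totient k * Real.log L) := by positivity
  have hμz : (k : ℝ) * z / (Nat.totient k * Real.log L) ≤ mu k y L := by
    unfold mu
    gcongr
  have h1 : Real.log (1 + 1 / mu k y L) ≤
      Real.log (1 + 1 / ((k : ℝ) * z / (Nat.totient k * Real.log L))) := by
    refine Real.log_le_log (by positivity) ?_
    have := one_div_le_one_div_of_le hμz0 hμz
    linarith
  have h2 : 0 ≤ Real.log (1 + 1 / mu k y L) := by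
    refine Real.log_nonneg ?_
    have : 0 < 1 / mu k y L := by positivity
    linarith
  have h3 := Nat.le_ceil m
  gcongr

/-- positions, Brun–Titchmarsh with a small constant -/
theorem positions_bt (h : S_GGEO) : ∃ c C : ℝ, 0 < c ∧ 0 < C ∧
    ∀ (k q a M L : ℕ) (y η : ℝ), 1 ≤ k → 1 ≤ q → (∀ p : ℕ, p.Prime → p ∣ q → p ∣ k) → 2 ≤ L →
      0 < η → 2 * (k : ℝ) ≤ y → k * Real.log L ≤ y → y ≤ k * L →
      (((Ioc M (M + L)).filter (fun t : ℕ => η * y / (Nat.totient k * Real.log (y / k)) ≤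
        N ((a + q * t : ℕ) + y) y k (a + q * t : ℕ))).card : ℝ) ≤
        C * L * Real.exp (-(c * η * Real.log L / Real.log (y / k))) := by
  obtain ⟨c, C, hc, hC, h1⟩ := positions h
  refine ⟨c / 2, C, by positivity, hC, ?_⟩
  intro k q a M L y η hk hq hqk hL hη hy1 hy2 hy3
  have hk0 : (0 : ℝ) < k := by exact_mod_cast hk
  have hlog : 0 < Real.log L := Real.log_pos (by exact_mod_cast (by omega : 1 < L))
  have hphi : 0 < (Nat.totient k : ℝ) := by exact_mod_cast Nat.totient_pos.mpr (by omega)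
  have hphik : (Nat.totient k : ℝ) ≤ k := by exact_mod_cast Nat.totient_le k
  have hy0 : 0 < y := by linarith
  have hlogy : 0 < Real.log (y / k) := by
    apply Real.log_pos
    rw [lt_div_iff₀ hk0]
    linarith
  have hd : 0 < (Nat.totient k : ℝ) * Real.log L := by positivity
  have hmu : 1 ≤ mu k y L := by
    unfold mu
    rw [le_div_iff₀ hd, one_mul]
    calc (Nat.totient k : ℝ) * Real.log L ≤ k * Real.log L := by gcongr
      _ ≤ y := hy2
  refine (h1 k q a M L y _ hk hq hqk hL (by linarith) hy3 (by positivity)).trans ?_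
  rw [geo_conv _ _ (by linarith)]
  refine mul_le_mul_of_nonneg_left (Real.exp_le_exp.mpr (neg_le_neg ?_)) (by positivity)
  -- `log (1 + 1 / μ) ≥ 1 / (1 + μ) ≥ 1 / (2 μ)`
  have h2 : 1 / (2 * mu k y L) ≤ Real.log (1 + 1 / mu k y L) := by
    have hm0 : 0 < mu k y L := by linarith
    have h3 := Real.one_sub_inv_le_log_of_pos (show (0 : ℝ) < 1 + 1 / mu k y L by positivity)
    have h4 : 1 - (1 + 1 / mu k y L)⁻¹ = 1 / (1 + mu k y L) := by
      field_simp
      ring
    rw [h4] at h3
    refine le_trans ?_ h3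
    exact one_div_le_one_div_of_le (by linarith) (by linarith)
  calc c / 2 * η * Real.log L / Real.log (y / k)
      = c * (η * y / (Nat.totient k * Real.log (y / k))) * (1 / (2 * mu k y L)) := by
        unfold mu
        field_simp
    _ ≤ _ := mul_le_mul_of_nonneg_left h2 (by positivity)

/-- the geometric tail, over the residue classes -/
theorem classes (h : S_GGEO) : ∃ c C : ℝ, 0 < c ∧ 0 < C ∧
    ∀ (k m : ℕ) (x y : ℝ), 2 ≤ k → (k : ℝ) ≤ y → y ≤ (k : ℝ) ^ 2 →
      (((range k).filter (fun l : ℕ => m < N x y k l)).card : ℝ) ≤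
        C * k * (mu k y k / (1 + mu k y k)) ^ (c * m) := by
  obtain ⟨c, C, hc, hC, h1⟩ := positions h
  refine ⟨c / 2, 2 * C, by positivity, by positivity, ?_⟩
  intro k m x y hk hky hyk
  have hk0 : (0 : ℝ) < k := by exact_mod_cast (by omega : 0 < k)
  have hk2 : (2 : ℝ) ≤ k := by exact_mod_cast hk
  have hlk : 0 < Real.log k := Real.log_pos (by linarith)
  have hφ : (0 : ℝ) < Nat.totient k := by exact_mod_cast Nat.totient_pos.mpr (by omega)
  have hy0 : 0 < y := by linarith
  have hμ0 : 0 < mu k y k := by unfold mu; positivity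
  set M := ⌊x - y⌋₊ - k with hM
  have h2 := h1 k 1 0 M (2 * k) (y + k) m (by omega) le_rfl
    (fun p hp hp1 => absurd (Nat.dvd_one.mp hp1) hp.one_lt.ne') (by omega) (by linarith)
    (by push_cast; nlinarith) (Nat.cast_nonneg _)
  simp only [zero_add, one_mul] at h2
  have h3 : ((range k).filter (fun l : ℕ => m < N x y k l)).card ≤
      ((Ioc M (M + 2 * k)).filter
        (fun n : ℕ => (m : ℝ) ≤ N (n + (y + k)) (y + k) k n)).card := by
    refine Finset.card_le_card_of_injOn (fun l => repr M k l) ?_ ?_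
    · intro l hl
      have hl' := mem_filter.mp (Finset.mem_coe.mp hl)
      refine Finset.mem_coe.mpr (mem_filter.mpr ⟨?_, ?_⟩)
      · have h7 := repr_mem M k l hk
        exact mem_Ioc.mpr ⟨h7.1, h7.2.trans (by omega)⟩
      · have h4 := N_le_repr k l x y hk
        rw [← hM] at h4
        have h6 := hl'.2
        have h5 : m ≤ N ((repr M k l : ℕ) + (y + k)) (y + k) k (repr M k l : ℕ) := by omega
        exact_mod_cast h5
    · intro l hl l' hl' he
      have h4 := mem_range.mp (mem_filter.mp (Finset.mem_coe.mp hl)).1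
      have h5 := mem_range.mp (mem_filter.mp (Finset.mem_coe.mp hl')).1
      have h6 := repr_mod M k l hk
      have h7 := repr_mod M k l' hk
      simp only at he
      rw [he] at h6
      have h8 : l ≡ l' [MOD k] := h6.symm.trans h7
      exact Nat.ModEq.eq_of_lt_of_lt h8 h4 h5
  have h3' : (((range k).filter (fun l : ℕ => m < N x y k l)).card : ℝ) ≤
      (((Ioc M (M + 2 * k)).filter
        (fun n : ℕ => (m : ℝ) ≤ N (n + (y + k)) (y + k) k n)).card : ℝ) := by
    exact_mod_cast h3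
  refine (h3'.trans h2).trans ?_
  have hl2k : Real.log k ≤ Real.log ((2 * k : ℕ) : ℝ) := by
    refine Real.log_le_log hk0 ?_
    push_cast; linarith
  have hμ'0 : 0 < mu k (y + k) (2 * k) := by
    have : 0 < Real.log ((2 * k : ℕ) : ℝ) := by linarith
    unfold mu
    positivity
  have hμμ : mu k (y + k) (2 * k) ≤ 2 * mu k y k := by
    unfold mu
    rw [← mul_div_assoc]
    refine div_le_div₀ (by positivity) (by linarith) (by positivity) ?_
    exact mul_le_mul_of_nonneg_left hl2k hφ.le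
  rw [geo_conv _ _ hμ'0, geo_conv _ _ hμ0]
  have h4 : Real.log (1 + 1 / mu k y k) ≤ 2 * Real.log (1 + 1 / mu k (y + k) (2 * k)) := by
    have h5 : 1 / (2 * mu k y k) ≤ 1 / mu k (y + k) (2 * k) := one_div_le_one_div_of_le hμ'0 hμμ
    have h6 : 1 + 1 / mu k y k ≤ (1 + 1 / mu k (y + k) (2 * k)) ^ 2 := by
      have h7 : 1 / (2 * mu k y k) = 1 / mu k y k / 2 := by field_simp
      have h8 : 0 ≤ 1 / mu k (y + k) (2 * k) := by positivity
      nlinarith
    have h7 := Real.log_le_log (by positivity) h6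
    rw [Real.log_pow] at h7
    exact_mod_cast h7
  calc C * ((2 * k : ℕ) : ℝ) * Real.exp (-(c * m * Real.log (1 + 1 / mu k (y + k) (2 * k))))
      ≤ C * ((2 * k : ℕ) : ℝ) * Real.exp (-(c / 2 * m * Real.log (1 + 1 / mu k y k))) := by
        refine mul_le_mul_of_nonneg_left (Real.exp_le_exp.mpr (neg_le_neg ?_)) (by positivity)
        have h9 : 0 ≤ c * m := by positivity
        nlinarith
    _ = _ := by push_cast; ring

theorem tail_of_gtail (h : S_GTAIL) : S_TAIL := by
  obtain ⟨c, C, hc, hC, h⟩ := h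
  refine ⟨c, C, hc, hC, fun k z M L m hk hz hzL hL => ?_⟩
  have h1 := h k 1 0 z M L m hk le_rfl
    (fun p hp hp1 => absurd (Nat.dvd_one.mp hp1) hp.one_lt.ne') hz hzL hL
  simpa only [zero_add, one_mul] using h1

end Pool.Agent.Helper73.BT
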