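import Pool.Agent.Helper73.BT.ETA

/-!
# BT, module SIM: simultaneously for all moduli and all lengths
-/

set_option autoImplicit false

namespace Pool.Agent.Helper73.BT

open Finset Filter

lemma sim_N_mono (k n : ℕ) (y y' : ℝ) (hk : 1 ≤ k) (hy : 0 ≤ y) (h : y ≤ y') :
    N ((n : ℝ) + y) y k n ≤ N ((n : ℝ) + y') y' k n := by
  rw [eta_N_eq k n y hk hy, eta_N_eq k n y' hk (hy.trans h)]
  unfold cnt
  apply card_le_card
  intro j hj
  rw [mem_filter, mem_Icc] at hj ⊢
  refine ⟨⟨hj.1.1, hj.1.2.trans (Nat.floor_le_floor ?_)⟩, hj.2⟩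
  gcongr

/-- the conditions which hold for large `L` -/
lemma sim_ev (A C δ : ℝ) (hδ : 0 < δ) : ∃ L₀ : ℕ, ∀ L : ℕ, L₀ ≤ L →
    2 ≤ L ∧ 3 ≤ Real.log L ∧ (Real.log (Real.log L)) ^ 2 ≤ 2 * δ * Real.log L ∧
      C * (2 * A * Real.log (Real.log L) + 1) ≤ Real.log L ∧ 2 * Real.log L ^ A ≤ L := by
  have hlog : Tendsto (fun L : ℕ => Real.log (L : ℝ)) atTop atTop :=
    Real.tendsto_log_atTop.comp tendsto_natCast_atTop_atTop
  have h1 : ∀ᶠ L : ℕ in atTop, 2 ≤ L := eventually_ge_atTop 2
  have h2 : ∀ᶠ L : ℕ in atTop, 3 ≤ Real.log (L : ℝ) := hlog.eventually_ge_atTop 3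
  have h3 : ∀ᶠ x : ℝ in atTop, (Real.log x) ^ 2 ≤ 2 * δ * x := by
    have h := (Real.isLittleO_pow_log_id_atTop (n := 2)).bound (by positivity : 0 < 2 * δ)
    filter_upwards [h, eventually_ge_atTop 0] with x hx hx0
    simp only [id, Real.norm_eq_abs] at hx
    rw [abs_of_nonneg hx0] at hx
    exact (le_abs_self _).trans hx
  have h4 : ∀ᶠ x : ℝ in atTop, C * (2 * A * Real.log x + 1) ≤ x := by
    have ha := Real.isLittleO_log_id_atTop.bound
      (by positivity : 0 < 1 / (2 * (|C * (2 * A)| + 1)))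
    filter_upwards [ha, eventually_ge_atTop (2 * |C|), eventually_ge_atTop 0] with x hx hx1 hx0
    simp only [id, Real.norm_eq_abs] at hx
    rw [abs_of_nonneg hx0] at hx
    have h5 : C * (2 * A * Real.log x) ≤ x / 2 := by
      calc C * (2 * A * Real.log x) ≤ |C * (2 * A * Real.log x)| := le_abs_self _
        _ = |C * (2 * A)| * |Real.log x| := by rw [← abs_mul]; ring_nf
        _ ≤ |C * (2 * A)| * (1 / (2 * (|C * (2 * A)| + 1)) * x) := by gcongr
        _ = x / 2 * (|C * (2 * A)| / (|C * (2 * A)| + 1)) := by field_simp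
        _ ≤ x / 2 * 1 := by
          apply mul_le_mul_of_nonneg_left _ (by positivity)
          rw [div_le_one (by positivity)]
          linarith
        _ = x / 2 := by ring
    have h6 : C ≤ x / 2 := by linarith [le_abs_self C]
    linarith
  have h5 : ∀ᶠ x : ℝ in atTop, 2 * Real.log x ^ A ≤ x := by
    have h := (isLittleO_log_rpow_rpow_atTop A (by norm_num : (0 : ℝ) < 1)).bound
      (by norm_num : (0 : ℝ) < 1 / 2)
    filter_upwards [h, eventually_ge_atTop 0] with x hx hx0
    simp only [Real.norm_eq_abs, Real.rpow_one] at hx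
    rw [abs_of_nonneg hx0] at hx
    have := (le_abs_self (Real.log x ^ A)).trans hx
    linarith
  have hall := h1.and (h2.and ((hlog.eventually h3).and ((hlog.eventually h4).and
    (tendsto_natCast_atTop_atTop.eventually h5))))
  obtain ⟨L₀, h⟩ := eventually_atTop.mp hall
  exact ⟨L₀, fun L hL => h L hL⟩

theorem sim (h : S_ETA) : S_SIM := by
  obtain ⟨c, C, hc, hC, -, h⟩ := h
  intro A η hA hη
  set δ : ℝ := c * η / (2 * (A + 1)) / 4 with hδdef
  have hδ : 0 < δ := by positivity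
  obtain ⟨L₀, hev⟩ := sim_ev A C δ hδ
  refine ⟨δ, hδ, L₀, fun L hL M => ?_⟩
  obtain ⟨hL2, hl3, hsq, hCA, hpow⟩ := hev L hL
  set l : ℝ := Real.log L with hl
  have hl0 : 0 < l := by linarith
  set lam : ℝ := Real.log l with hlam
  have hlam1 : 1 ≤ lam := by
    rw [hlam, Real.le_log_iff_exp_le hl0]
    linarith [Real.exp_one_lt_d9]
  have hlam0 : 0 < lam := by linarith
  set K : ℕ := ⌊Real.exp (δ * l / lam)⌋₊ with hK
  set I : ℕ := ⌊2 * A * lam⌋₊ with hI
  have hL0 : (0 : ℝ) < L := by exact_mod_cast (by omega : 0 < L)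
  -- the exceptional sets
  let E : ℕ → ℕ → Finset ℕ := fun k i => (Ioc M (M + L)).filter (fun n : ℕ =>
    η / 2 * (2 ^ (i + 1) * (k * l)) / (Nat.totient k * Real.log (2 ^ (i + 1) * (k * l) / k)) ≤
      N (n + 2 ^ (i + 1) * (k * l)) (2 ^ (i + 1) * (k * l)) k n)
  have hsub : {n : ℕ | M < n ∧ n ≤ M + L ∧ ¬ ∀ (k : ℕ) (y : ℝ), 1 ≤ k →
      (k : ℝ) ≤ Real.exp (δ * l / lam) → k * l ≤ y → y ≤ k * l ^ A →
      (N (n + y) y k n : ℝ) < η * y / (Nat.totient k * Real.log (y / k))} ⊆
      (((Icc 1 K).biUnion fun k => ((range (I + 1)).biUnion fun i =>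
        if 2 * (2 ^ i * (k * l)) ≤ 2 * (k * l ^ A) then E k i else ∅) : Finset ℕ) : Set ℕ) := by
    rintro n ⟨hn1, hn2, hn⟩
    push Not at hn
    obtain ⟨k, y, hk, hkK, hy1, hy2, hbad⟩ := hn
    have hk0 : (0 : ℝ) < k := by exact_mod_cast hk
    have hkl : 0 < (k : ℝ) * l := by positivity
    obtain ⟨i, hi1, hi2⟩ := exists_nat_pow_near (x := y / (k * l)) (y := 2)
      (by rw [le_div_iff₀ hkl]; linarith) (by norm_num)
    rw [le_div_iff₀ hkl] at hi1
    rw [div_lt_iff₀ hkl] at hi2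
    have hy0 : 0 < y := by linarith
    have hiI : i ≤ I := by
      apply Nat.le_floor
      have h1 : (2 : ℝ) ^ i * l ≤ l ^ A := by
        have : (2 : ℝ) ^ i * l * k ≤ l ^ A * k := by nlinarith
        exact le_of_mul_le_mul_right this hk0
      have h2 : (2 : ℝ) ^ i ≤ l ^ A := by
        have : (2 : ℝ) ^ i * 1 ≤ 2 ^ i * l := by gcongr; linarith
        linarith
      have h3 : Real.log ((2 : ℝ) ^ i) ≤ Real.log (l ^ A) := Real.log_le_log (by positivity) h2
      rw [Real.log_pow, Real.log_rpow hl0, ← hlam] at h3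
      have h4 : (1 : ℝ) / 2 < Real.log 2 := by linarith [Real.log_two_gt_d9]
      have h5 : (0 : ℝ) ≤ i := Nat.cast_nonneg _
      nlinarith
    simp only [coe_biUnion, Set.mem_iUnion, mem_coe, mem_Icc, mem_range]
    refine ⟨k, ⟨hk, Nat.le_floor hkK⟩, i, by omega, ?_⟩
    rw [if_pos (by linarith)]
    simp only [E, mem_filter, mem_Ioc]
    refine ⟨⟨hn1, hn2⟩, ?_⟩
    have hyy : y ≤ 2 ^ (i + 1) * (k * l) := hi2.le
    have hphi : 0 < (Nat.totient k : ℝ) := by exact_mod_cast Nat.totient_pos.mpr (by omega)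
    have hlogy : 0 < Real.log (y / k) := by
      apply Real.log_pos
      rw [lt_div_iff₀ hk0]
      nlinarith
    have hlogle : Real.log (y / k) ≤ Real.log (2 ^ (i + 1) * (k * l) / k) := by
      apply Real.log_le_log (by positivity)
      gcongr
    calc η / 2 * (2 ^ (i + 1) * (k * l)) /
          (Nat.totient k * Real.log (2 ^ (i + 1) * (k * l) / k))
        ≤ η * y / (Nat.totient k * Real.log (y / k)) := by
          apply div_le_div₀ (by positivity) _ (by positivity) (by gcongr)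
          have : (2 : ℝ) ^ (i + 1) * (k * l) = 2 * (2 ^ i * (k * l)) := by ring
          rw [this]
          nlinarith
      _ ≤ N (n + y) y k n := hbad
      _ ≤ _ := by exact_mod_cast sim_N_mono k n y _ hk hy0.le hyy
  have hc1 : c * η / (2 * (A + 1)) = 4 * δ := by rw [hδdef]; ring
  have hE : ∀ k ∈ Icc 1 K, ∀ i ∈ range (I + 1),
      (((if 2 * (2 ^ i * ((k : ℝ) * l)) ≤ 2 * (k * l ^ A) then E k i else ∅ : Finset ℕ)).card : ℝ) ≤
        C * L * Real.exp (-(4 * δ * l / lam)) := by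
    intro k hk i hi
    have hk1 : 1 ≤ k := (mem_Icc.mp hk).1
    have hk0 : (0 : ℝ) < k := by exact_mod_cast hk1
    split_ifs with hif
    · have hkl : 0 < (k : ℝ) * l := by positivity
      have h2i : (1 : ℝ) ≤ 2 ^ i := one_le_pow₀ (by norm_num)
      have hye : (2 : ℝ) ^ (i + 1) * (k * l) = 2 * (2 ^ i * (k * l)) := by ring
      have hkli : (k : ℝ) * l ≤ 2 ^ i * (k * l) := by nlinarith
      have hb := h k M L (2 ^ (i + 1) * (k * l)) (η / 2) hk1 hL2 (by positivity)
        (by rw [hye]; nlinarith) (by rw [hye, ← hl]; linarith)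
        (by rw [hye]; nlinarith)
      refine hb.trans ?_
      refine mul_le_mul_of_nonneg_left (Real.exp_le_exp.mpr (neg_le_neg ?_)) (by positivity)
      rw [← hl]
      have hyk : (2 : ℝ) ^ (i + 1) * (k * l) / k = 2 ^ (i + 1) * l := by field_simp
      rw [hyk]
      have hpos : 0 < Real.log ((2 : ℝ) ^ (i + 1) * l) := by
        apply Real.log_pos
        have : (1 : ℝ) ≤ 2 ^ (i + 1) := one_le_pow₀ (by norm_num)
        nlinarith
      have hle : Real.log ((2 : ℝ) ^ (i + 1) * l) ≤ (A + 1) * lam := by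
        have h1 : (2 : ℝ) ^ (i + 1) * l ≤ 2 * l ^ A := by
          have : (2 : ℝ) ^ (i + 1) * l * k ≤ 2 * l ^ A * k := by
            calc (2 : ℝ) ^ (i + 1) * l * k = 2 * (2 ^ i * (k * l)) := by ring
              _ ≤ 2 * (k * l ^ A) := hif
              _ = _ := by ring
          exact le_of_mul_le_mul_right this hk0
        calc Real.log ((2 : ℝ) ^ (i + 1) * l) ≤ Real.log (2 * l ^ A) :=
              Real.log_le_log (by positivity) h1
          _ = Real.log 2 + A * lam := by
              rw [Real.log_mul (by norm_num) (by positivity), Real.log_rpow hl0]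
          _ ≤ (A + 1) * lam := by
              have : Real.log 2 < 1 := by linarith [Real.log_two_lt_d9]
              nlinarith
      calc 4 * δ * l / lam = c * (η / 2) * l / ((A + 1) * lam) := by
            rw [← hc1]; field_simp
        _ ≤ c * (η / 2) * l / Real.log ((2 : ℝ) ^ (i + 1) * l) := by
            apply div_le_div_of_nonneg_left (by positivity) hpos hle
    · simp only [card_empty, Nat.cast_zero]
      positivity
  have hcard : ({n : ℕ | M < n ∧ n ≤ M + L ∧ ¬ ∀ (k : ℕ) (y : ℝ), 1 ≤ k →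
      (k : ℝ) ≤ Real.exp (δ * l / lam) → k * l ≤ y → y ≤ k * l ^ A →
      (N (n + y) y k n : ℝ) < η * y / (Nat.totient k * Real.log (y / k))}.ncard : ℝ) ≤
      ∑ k ∈ Icc 1 K, ∑ i ∈ range (I + 1),
        (((if 2 * (2 ^ i * ((k : ℝ) * l)) ≤ 2 * (k * l ^ A) then E k i else ∅ :
          Finset ℕ)).card : ℝ) := by
    have h1 := Set.ncard_le_ncard hsub (Finset.finite_toSet _)
    rw [Set.ncard_coe_finset] at h1
    have h2 : (((Icc 1 K).biUnion fun k => ((range (I + 1)).biUnion fun i =>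
        if 2 * (2 ^ i * ((k : ℝ) * l)) ≤ 2 * (k * l ^ A) then E k i else ∅) : Finset ℕ)).card ≤
        ∑ k ∈ Icc 1 K, ∑ i ∈ range (I + 1),
        ((if 2 * (2 ^ i * ((k : ℝ) * l)) ≤ 2 * (k * l ^ A) then E k i else ∅ :
          Finset ℕ)).card :=
      card_biUnion_le.trans (sum_le_sum fun k _ => card_biUnion_le)
    exact_mod_cast h1.trans h2
  refine hcard.trans ((sum_le_sum fun k hk => sum_le_sum fun i hi => hE k hk i hi).trans ?_)
  rw [sum_const, sum_const, card_range, Nat.card_Icc, nsmul_eq_mul, nsmul_eq_mul]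
  have hKle : ((K + 1 - 1 : ℕ) : ℝ) ≤ Real.exp (δ * l / lam) := by
    rw [Nat.add_sub_cancel]
    exact Nat.floor_le (Real.exp_pos _).le
  have hIle : ((I + 1 : ℕ) : ℝ) ≤ 2 * A * lam + 1 := by
    push_cast
    have : (I : ℝ) ≤ 2 * A * lam := Nat.floor_le (by positivity)
    linarith
  have hexp : C * (2 * A * lam + 1) ≤ Real.exp (2 * δ * l / lam) := by
    refine hCA.trans ?_
    calc l = Real.exp lam := by rw [hlam, Real.exp_log hl0]
      _ ≤ Real.exp (2 * δ * l / lam) := by
        apply Real.exp_le_exp.mpr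
        rw [le_div_iff₀ hlam0]
        linarith
  calc ((K + 1 - 1 : ℕ) : ℝ) * (((I + 1 : ℕ) : ℝ) * (C * L * Real.exp (-(4 * δ * l / lam))))
      ≤ Real.exp (δ * l / lam) * ((2 * A * lam + 1) * (C * L * Real.exp (-(4 * δ * l / lam)))) := by
        gcongr
    _ = (C * (2 * A * lam + 1)) * (L * Real.exp (δ * l / lam) *
          Real.exp (-(4 * δ * l / lam))) := by ring
    _ ≤ Real.exp (2 * δ * l / lam) * (L * Real.exp (δ * l / lam) *
          Real.exp (-(4 * δ * l / lam))) := by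
        gcongr
    _ = L * (Real.exp (2 * δ * l / lam) * Real.exp (δ * l / lam) *
          Real.exp (-(4 * δ * l / lam))) := by ring
    _ = L * Real.exp (-(δ * l / lam)) := by
        rw [← Real.exp_add, ← Real.exp_add]
        congr 2
        ring

end Pool.Agent.Helper73.BT
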