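import Pool.Agent.Helper73.BT.Base

set_option autoImplicit false

namespace Pool.Agent.Helper73.BT

open Finset Pool.Agent.H61.Sieve

lemma siv_rpow (D p : ℕ) (hD : 2 ≤ D) (hp : 1 ≤ p) (hpD : p ≤ D) :
    (p : ℝ) ^ (1 / Real.log D) - 1 ≤ 2 * (Real.log p / Real.log D) := by
  have hD' : 0 < Real.log D := Real.log_pos (by exact_mod_cast hD)
  have hp' : (0:ℝ) < p := by exact_mod_cast hp
  rw [Real.rpow_def_of_pos hp']
  have e1 : Real.log p * (1 / Real.log D) = Real.log p / Real.log D := by ring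
  rw [e1]
  have ht0 : 0 ≤ Real.log p / Real.log D :=
    div_nonneg (Real.log_nonneg (by exact_mod_cast hp)) hD'.le
  have ht1 : Real.log p / Real.log D ≤ 1 := by
    rw [div_le_one hD']
    exact Real.log_le_log hp' (by exact_mod_cast hpD)
  have h := Real.abs_exp_sub_one_le (x := Real.log p / Real.log D)
    (by rw [abs_of_nonneg ht0]; exact ht1)
  rw [abs_of_nonneg ht0] at h
  exact le_trans (le_abs_self _) h

section

variable (bad : ℕ → ℕ → Prop) [∀ p s, Decidable (bad p s)]

lemma siv_gw (p : ℕ) (h1 : rho bad p < p) : (1 + gw bad p) * (1 - (rho bad p : ℝ) / p) = 1 := by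
  have hp : (0 : ℝ) < p := by
    have : 0 < p := lt_of_le_of_lt (Nat.zero_le _) h1
    exact_mod_cast this
  have h2 : (0 : ℝ) < p - rho bad p := by
    have : (rho bad p : ℝ) < p := by exact_mod_cast h1
    linarith
  unfold gw
  field_simp
  ring

lemma siv_one (p : ℕ) (h1 : rho bad p < p) (t : ℝ) (ht : 0 ≤ t) :
    1 + gw bad p * (1 + t) ≤ (1 + gw bad p) * Real.exp ((rho bad p : ℝ) / p * t) := by
  have hp : (0 : ℝ) < p := by
    have : 0 < p := lt_of_le_of_lt (Nat.zero_le _) h1
    exact_mod_cast this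
  have h2 : (0 : ℝ) < p - rho bad p := by
    have : (rho bad p : ℝ) < p := by exact_mod_cast h1
    linarith
  have hg : 0 ≤ gw bad p := by unfold gw; positivity
  have e : 1 + gw bad p * (1 + t) = (1 + gw bad p) * (1 + (rho bad p : ℝ) / p * t) := by
    unfold gw
    field_simp
    ring
  rw [e]
  have := Real.add_one_le_exp ((rho bad p : ℝ) / p * t)
  have h3 : 0 ≤ 1 + gw bad p := by linarith
  exact mul_le_mul_of_nonneg_left (by linarith) h3

end

theorem siv (h : S_MER) : S_SIV := by
  obtain ⟨C, hC1, hlog, -⟩ := h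
  refine ⟨3 + 4 * C, by linarith, ?_⟩
  intro bad _ D r P z hr hD hP hper hrho hz hzD a N S hS hSb
  have hDlog : 0 < Real.log D := Real.log_pos (by exact_mod_cast hD)
  have hDlog2 : Real.log 2 ≤ Real.log D := Real.log_le_log (by norm_num) (by exact_mod_cast hD)
  have hl2 : (1 : ℝ) / 2 < Real.log 2 := by have := Real.log_two_gt_d9; linarith
  have hz0 : 0 < z := by linarith
  have hprime : ∀ p ∈ P, p.Prime := fun p hp => (mem_filter.mp (hP hp)).2
  have hle : ∀ p ∈ P, p ≤ D := fun p hp => (mem_Icc.mp (mem_filter.mp (hP hp)).1).2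
  have hco : ∀ p ∈ P, ∀ q ∈ P, p ≠ q → Nat.Coprime p q := fun p hp q hq hne =>
    (Nat.coprime_primes (hprime p hp) (hprime q hq)).mpr hne
  set 𝒟 := P.powerset.filter (fun d => ((∏ p ∈ d, p : ℕ) : ℝ) ≤ z) with h𝒟
  have hne : 𝒟.Nonempty := ⟨∅, by simp [h𝒟, hz]⟩
  have hsel := selberg bad P hco hper (fun p hp => (hrho p hp).1) (fun p hp => (hrho p hp).2.2)
    z 𝒟 (fun d hd => mem_powerset.mp (mem_filter.mp hd).1) (fun d hd => (mem_filter.mp hd).2) hne
    a N S hS hSb
  set G := ∏ p ∈ P, (1 + gw bad p) with hG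
  have hgw : ∀ p ∈ P, 0 < gw bad p := fun p hp =>
    gw_pos bad p (hrho p hp).1 (hrho p hp).2.2
  have hGpos : 0 < G := Finset.prod_pos fun p hp => by have := hgw p hp; linarith
  have hGV : G * ∏ p ∈ P, (1 - (rho bad p : ℝ) / p) = 1 := by
    rw [hG, ← Finset.prod_mul_distrib]
    exact Finset.prod_eq_one fun p hp => siv_gw bad p (hrho p hp).2.2
  -- the sum over all subsets
  have hGsum : G = ∑ d ∈ P.powerset, ∏ p ∈ d, gw bad p := by
    rw [hG, Finset.prod_one_add]
  set s : ℝ := 1 / Real.log D with hs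
  have hs0 : 0 < s := by positivity
  -- the complement
  have hcomp : ∑ d ∈ P.powerset.filter (fun d => ¬ ((∏ p ∈ d, p : ℕ) : ℝ) ≤ z), ∏ p ∈ d, gw bad p
      ≤ G / 2 := by
    have h1 : ∑ d ∈ P.powerset.filter (fun d => ¬ ((∏ p ∈ d, p : ℕ) : ℝ) ≤ z), ∏ p ∈ d, gw bad p
        ≤ ∑ d ∈ P.powerset, z ^ (-s) * ∏ p ∈ d, (gw bad p * (p : ℝ) ^ s) := by
      calc _ ≤ ∑ d ∈ P.powerset.filter (fun d => ¬ ((∏ p ∈ d, p : ℕ) : ℝ) ≤ z),
            z ^ (-s) * ∏ p ∈ d, (gw bad p * (p : ℝ) ^ s) := by
            refine Finset.sum_le_sum fun d hd => ?_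
            have hd' := mem_filter.mp hd
            have hdP := mem_powerset.mp hd'.1
            have hdz : z ≤ ((∏ p ∈ d, p : ℕ) : ℝ) := le_of_lt (not_le.mp hd'.2)
            rw [Finset.prod_mul_distrib]
            have hpr : ∏ p ∈ d, (p : ℝ) ^ s = (((∏ p ∈ d, p : ℕ) : ℝ)) ^ s := by
              rw [Nat.cast_prod, Real.finsetProd_rpow _ _ (fun i _ => Nat.cast_nonneg i)]
            rw [hpr]
            have hg0 : 0 ≤ ∏ p ∈ d, gw bad p :=
              Finset.prod_nonneg fun p hp => (hgw p (hdP hp)).le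
            have h2 : z ^ s ≤ (((∏ p ∈ d, p : ℕ) : ℝ)) ^ s :=
              Real.rpow_le_rpow hz0.le hdz hs0.le
            have h3 : z ^ (-s) * z ^ s = 1 := by
              rw [← Real.rpow_add hz0]; simp
            have h4 : 0 < z ^ (-s) := Real.rpow_pos_of_pos hz0 _
            have h5 : 1 ≤ z ^ (-s) * (((∏ p ∈ d, p : ℕ) : ℝ)) ^ s := by
              rw [← h3]; exact mul_le_mul_of_nonneg_left h2 h4.le
            calc ∏ p ∈ d, gw bad p = (∏ p ∈ d, gw bad p) * 1 := by ring
              _ ≤ (∏ p ∈ d, gw bad p) * (z ^ (-s) * (((∏ p ∈ d, p : ℕ) : ℝ)) ^ s) :=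
                  mul_le_mul_of_nonneg_left h5 hg0
              _ = _ := by ring
        _ ≤ _ := by
            refine Finset.sum_le_sum_of_subset_of_nonneg (Finset.filter_subset _ _) ?_
            intro d hd _
            have hdP := mem_powerset.mp hd
            refine mul_nonneg (Real.rpow_pos_of_pos hz0 _).le ?_
            exact Finset.prod_nonneg fun p hp =>
              mul_nonneg (hgw p (hdP hp)).le (Real.rpow_nonneg (Nat.cast_nonneg _) _)
    rw [← Finset.mul_sum, ← Finset.prod_one_add] at h1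
    -- bound of the product
    have h2 : ∏ p ∈ P, (1 + gw bad p * (p : ℝ) ^ s) ≤
        G * Real.exp (∑ p ∈ P, (rho bad p : ℝ) / p * ((p : ℝ) ^ s - 1)) := by
      rw [Real.exp_sum, hG, ← Finset.prod_mul_distrib]
      refine Finset.prod_le_prod ?_ ?_
      · intro p hp
        have := hgw p hp
        have h3 : 0 ≤ (p : ℝ) ^ s := Real.rpow_nonneg (Nat.cast_nonneg _) _
        positivity
      · intro p hp
        have h3 : 0 ≤ (p : ℝ) ^ s - 1 := by
          have : (1 : ℝ) ≤ (p : ℝ) ^ s :=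
            Real.one_le_rpow (by exact_mod_cast (hprime p hp).one_lt.le) hs0.le
          linarith
        have h4 := siv_one bad p (hrho p hp).2.2 _ h3
        have e : 1 + ((p : ℝ) ^ s - 1) = (p : ℝ) ^ s := by ring
        rw [e] at h4
        exact h4
    have h3 : ∑ p ∈ P, (rho bad p : ℝ) / p * ((p : ℝ) ^ s - 1) ≤ r * (2 + 4 * C) := by
      calc ∑ p ∈ P, (rho bad p : ℝ) / p * ((p : ℝ) ^ s - 1)
          ≤ ∑ p ∈ P, (r * 2 / Real.log D) * (Real.log p / p) := by
            refine Finset.sum_le_sum fun p hp => ?_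
            have hp1 : 1 ≤ p := (hprime p hp).one_lt.le
            have hp0 : (0 : ℝ) < p := by exact_mod_cast hp1
            have h4 := siv_rpow D p hD hp1 (hle p hp)
            have h5 : (rho bad p : ℝ) / p ≤ r / p := by
              gcongr
              exact_mod_cast (hrho p hp).2.1
            have h6 : 0 ≤ (p : ℝ) ^ s - 1 := by
              have : (1 : ℝ) ≤ (p : ℝ) ^ s :=
                Real.one_le_rpow (by exact_mod_cast hp1) hs0.le
              linarith
            calc (rho bad p : ℝ) / p * ((p : ℝ) ^ s - 1) ≤ r / p * ((p : ℝ) ^ s - 1) :=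
                  mul_le_mul_of_nonneg_right h5 h6
              _ ≤ r / p * (2 * (Real.log p / Real.log D)) :=
                  mul_le_mul_of_nonneg_left h4 (by positivity)
              _ = _ := by ring
        _ ≤ ∑ p ∈ pr D, (r * 2 / Real.log D) * (Real.log p / p) := by
            refine Finset.sum_le_sum_of_subset_of_nonneg hP ?_
            intro p hp _
            have hp1 : 1 ≤ p := (mem_Icc.mp (mem_filter.mp hp).1).1
            have : 0 ≤ Real.log p := Real.log_nonneg (by exact_mod_cast hp1)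
            positivity
        _ = (r * 2 / Real.log D) * ∑ p ∈ pr D, Real.log p / p := by rw [Finset.mul_sum]
        _ ≤ (r * 2 / Real.log D) * (Real.log D + C) :=
            mul_le_mul_of_nonneg_left (hlog D (by omega)) (by positivity)
        _ = r * 2 * (1 + C / Real.log D) := by field_simp
        _ ≤ r * 2 * (1 + 2 * C) := by
            have : C / Real.log D ≤ 2 * C := by
              rw [div_le_iff₀ hDlog]
              nlinarith
            gcongr
        _ = _ := by ring
    have h4 : z ^ (-s) ≤ Real.exp (-((3 + 4 * C) * r)) := by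
      rw [Real.rpow_def_of_pos hz0, Real.exp_le_exp]
      have : (3 + 4 * C) * r ≤ Real.log z / Real.log D := by
        rw [le_div_iff₀ hDlog]; exact hzD
      have e : Real.log z * -s = -(Real.log z / Real.log D) := by rw [hs]; ring
      rw [e]
      linarith
    have hr1 : (1 : ℝ) ≤ r := by exact_mod_cast hr
    calc _ ≤ z ^ (-s) * ∏ p ∈ P, (1 + gw bad p * (p : ℝ) ^ s) := h1
      _ ≤ Real.exp (-((3 + 4 * C) * r)) * (G * Real.exp (r * (2 + 4 * C))) := by
          refine mul_le_mul h4 (h2.trans ?_) ?_ (Real.exp_pos _).le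
          · exact mul_le_mul_of_nonneg_left (Real.exp_le_exp.mpr h3) hGpos.le
          · refine Finset.prod_nonneg fun p hp => ?_
            have := hgw p hp
            have h3 : 0 ≤ (p : ℝ) ^ s := Real.rpow_nonneg (Nat.cast_nonneg _) _
            positivity
      _ = G * (Real.exp (-((3 + 4 * C) * r)) * Real.exp (r * (2 + 4 * C))) := by ring
      _ = G * Real.exp (-r) := by rw [← Real.exp_add]; congr 2; ring
      _ ≤ G * (1 / 2) := by
          refine mul_le_mul_of_nonneg_left ?_ hGpos.le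
          have h5 : Real.exp (-(r : ℝ)) ≤ Real.exp (-1) := Real.exp_le_exp.mpr (by linarith)
          have h6 : Real.exp (-1) ≤ 1 / 2 := by
            rw [Real.exp_neg, inv_eq_one_div]
            have := Real.add_one_le_exp (1 : ℝ)
            exact one_div_le_one_div_of_le (by norm_num) (by linarith)
          linarith
      _ = G / 2 := by ring
  have hsplit : ∑ d ∈ 𝒟, ∏ p ∈ d, gw bad p +
      ∑ d ∈ P.powerset.filter (fun d => ¬ ((∏ p ∈ d, p : ℕ) : ℝ) ≤ z), ∏ p ∈ d, gw bad p = G := by
    rw [hGsum, h𝒟]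
    exact Finset.sum_filter_add_sum_filter_not _ _ _
  have hlow : G / 2 ≤ ∑ d ∈ 𝒟, ∏ p ∈ d, gw bad p := by linarith
  have hV : ∏ p ∈ P, (1 - (rho bad p : ℝ) / p) = 1 / G := by
    rw [eq_div_iff hGpos.ne', mul_comm]; exact hGV
  have hfin : (N : ℝ) / (∑ d ∈ 𝒟, ∏ p ∈ d, gw bad p) ≤
      2 * N * ∏ p ∈ P, (1 - (rho bad p : ℝ) / p) := by
    rw [hV]
    calc (N : ℝ) / (∑ d ∈ 𝒟, ∏ p ∈ d, gw bad p) ≤ N / (G / 2) :=
          div_le_div_of_nonneg_left (Nat.cast_nonneg _) (by positivity) hlow
      _ = _ := by field_simp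
  linarith

end Pool.Agent.Helper73.BT
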