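import Mathlib
import Pool.Graph.R_pool_sql_team_ae5b0c61.H61.Sieve

/-!
# Primes in short progressions: exponential tails. Statements of the modules

`H61.Sieve.selberg` (library, self-contained, Mathlib only) is Selberg's upper bound sieve for
arbitrary residue classes: `|S| ≤ N / ∑_{d ∈ D} ∏_{p ∈ d} gw p + 2 z ^ 4`.
-/

set_option autoImplicit false

namespace Pool.Agent.Helper73.BT

open Finset Pool.Agent.H61.Sieve

/-- the primes up to `D` -/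
def pr (D : ℕ) : Finset ℕ := (Icc 1 D).filter Nat.Prime

/-- some `n + j k`, `j ∈ J`, is divisible by `p` -/
def hit (k : ℕ) (J : Finset ℕ) (p n : ℕ) : Prop := ∃ j ∈ J, p ∣ n + j * k

instance (k : ℕ) (J : Finset ℕ) (p n : ℕ) : Decidable (hit k J p n) := by
  unfold hit; infer_instance

/-- the number of the residue classes `n` modulo `p` which are hit -/
def rh (k : ℕ) (J : Finset ℕ) (p : ℕ) : ℕ := rho (hit k J) p

/-- the number of the primes among `n + k, n + 2 k, …, n + z k` -/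
def cnt (k z n : ℕ) : ℕ := ((Icc 1 z).filter (fun j => (n + j * k).Prime)).card

/-- the `j ≤ z` such that `n + j k` has no prime factor in `P` -/
def Rs (P : Finset ℕ) (k z n : ℕ) : Finset ℕ := (Icc 1 z).filter (fun j => ∀ p ∈ P, ¬ p ∣ n + j * k)

/-- the product of `1 - 1 / p` over the primes `p ≤ D` which do not divide `k` -/
noncomputable def Vk (k D : ℕ) : ℝ := ∏ p ∈ (pr D).filter (fun p => ¬ p ∣ k), (1 - 1 / (p : ℝ))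

/-- MER. Mertens and Chebyshev type bounds (library). -/
def S_MER : Prop := ∃ C : ℝ, 1 ≤ C ∧
  (∀ x : ℕ, 1 ≤ x → ∑ p ∈ pr x, Real.log p / p ≤ Real.log x + C) ∧
  (∀ x : ℕ, 2 ≤ x → ∏ p ∈ pr x, (1 - 1 / (p : ℝ)) ≤ C / Real.log x) ∧
  (∀ x : ℕ, 2 ≤ x → 1 / (C * Real.log x) ≤ ∏ p ∈ pr x, (1 - 1 / (p : ℝ))) ∧
  (∀ k D : ℕ, 1 ≤ k → Vk k D ≤ (k : ℝ) / Nat.totient k * ∏ p ∈ pr D, (1 - 1 / (p : ℝ))) ∧
  (∀ k D E : ℕ, 2 ≤ D → D ≤ E → Vk k D ≤ C ^ 2 * (Real.log E / Real.log D) * Vk k E)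

/-- SIV. The sieve, uniformly in the dimension `r`. -/
def S_SIV : Prop := ∃ A : ℝ, 1 ≤ A ∧
  ∀ (bad : ℕ → ℕ → Prop) [∀ p s, Decidable (bad p s)] (D r : ℕ) (P : Finset ℕ) (z : ℝ),
    1 ≤ r → 2 ≤ D → P ⊆ pr D → (∀ p ∈ P, ∀ s, bad p (s + p) ↔ bad p s) →
    (∀ p ∈ P, 1 ≤ rho bad p ∧ rho bad p ≤ r ∧ rho bad p < p) → 1 ≤ z → A * r * Real.log D ≤ Real.log z →
    ∀ (a N : ℕ) (S : Finset ℕ), S ⊆ Ico a (a + N) → (∀ s ∈ S, ∀ p ∈ P, ¬ bad p s) →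
      (S.card : ℝ) ≤ 2 * N * ∏ p ∈ P, (1 - (rho bad p : ℝ) / p) + 2 * z ^ 4

/-- AVG. The average of the densities over the `r`-element sets of shifts. -/
def S_AVG : Prop := ∀ (k z r : ℕ) (P : Finset ℕ) (K : ℝ), (∀ p ∈ P, p.Prime) →
  (∀ b : ℕ, (((Rs P k z b).card.choose r : ℕ) : ℝ) ≤ K) →
  ∑ J ∈ powersetCard r (Icc 1 z), ∏ p ∈ P, (1 - (rh k J p : ℝ) / p) ≤ K

/-- RB. One-dimensional bounds, for every position. -/
def S_RB : Prop := ∃ C : ℝ, 1 ≤ C ∧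
  (∀ k z b : ℕ, 1 ≤ k → 2 ≤ z → ((Rs (pr z) k z b).card : ℝ) ≤ C * z * Vk k z) ∧
  (∀ k z n : ℕ, 1 ≤ k → 2 ≤ z → (cnt k z n : ℝ) ≤ C * ((k : ℝ) / Nat.totient k) * (z / Real.log z))

/-- TUP. The sieve bound for one set `J` of `r` shifts. -/
def S_TUP : Prop := ∃ A : ℝ, 1 ≤ A ∧
  ∀ (k z r D M L : ℕ) (J : Finset ℕ), 1 ≤ k → 2 ≤ z → z ≤ D → 1 ≤ r → J ∈ powersetCard r (Icc 1 z) →
    1 ≤ L → A * r * Real.log D ≤ Real.log L →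
    (((Ioc M (M + L)).filter (fun n => ∀ p ∈ pr D, ¬ hit k J p n)).card : ℝ) ≤
      2 * L * (∏ p ∈ pr z, (1 - (rh k J p : ℝ) / p)) * (Vk k D / Vk k z) ^ r + 2 * (L : ℝ) ^ (4 / 5 : ℝ)

/-- MOM. The binomial moments. -/
def S_MOM : Prop := ∃ A C : ℝ, 1 ≤ A ∧ 1 ≤ C ∧
  ∀ (k z r D M L : ℕ), 1 ≤ k → 2 ≤ z → z ≤ D → 1 ≤ r → 1 ≤ L → A * r * Real.log D ≤ Real.log L →
    (∑ n ∈ (Ioc M (M + L)).filter (fun n => D < n), ((cnt k z n).choose r : ℝ)) ≤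
      2 * L * (C * z * ((k : ℝ) / Nat.totient k) / Real.log D) ^ r / r.factorial +
        2 * (z : ℝ) ^ r * (L : ℝ) ^ (4 / 5 : ℝ)

/-- TAIL. The exponential tail. -/
def S_TAIL : Prop := ∃ c C : ℝ, 0 < c ∧ 0 < C ∧
  ∀ (k z M L m : ℕ), 1 ≤ k → 1 ≤ z → z ≤ L → 2 ≤ L →
    (((Ioc M (M + L)).filter (fun n => m ≤ cnt k z n)).card : ℝ) ≤
      C * L * Real.exp (-(c * m / (1 + k * z / (Nat.totient k * Real.log L))))

/-- `N(x, y; k, l)`, the number of the primes `p ≡ l` modulo `k` with `x - y < p ≤ x` -/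
noncomputable def N (x y : ℝ) (k : ℕ) (l : ℤ) : ℕ :=
  {p : ℕ | p.Prime ∧ (p : ℤ) ≡ l [ZMOD (k : ℤ)] ∧ x - y < p ∧ (p : ℝ) ≤ x}.ncard

/-- ETA. The form with `N(x, y; k, l)`, and Brun–Titchmarsh with a small constant. -/
def S_ETA : Prop := ∃ c C : ℝ, 0 < c ∧ 0 < C ∧
  (∀ (k M L : ℕ) (y m : ℝ), 1 ≤ k → 2 ≤ L → (k : ℝ) ≤ y → y ≤ k * L →
    (((Ioc M (M + L)).filter (fun n : ℕ => m ≤ N (n + y) y k n)).card : ℝ) ≤
      C * L * Real.exp (-(c * m / (1 + y / (Nat.totient k * Real.log L))))) ∧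
  (∀ (k M L : ℕ) (y η : ℝ), 1 ≤ k → 2 ≤ L → 0 < η → 2 * (k : ℝ) ≤ y → k * Real.log L ≤ y → y ≤ k * L →
    (((Ioc M (M + L)).filter (fun n : ℕ =>
      η * y / (Nat.totient k * Real.log (y / k)) ≤ N (n + y) y k n)).card : ℝ) ≤
      C * L * Real.exp (-(c * η * Real.log L / Real.log (y / k))))

/-- SIM. Simultaneously for all moduli and all lengths. -/
def S_SIM : Prop := ∀ A η : ℝ, 1 ≤ A → 0 < η → ∃ δ : ℝ, 0 < δ ∧ ∃ L₀ : ℕ, ∀ L : ℕ, L₀ ≤ L → ∀ M : ℕ,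
  ({n : ℕ | M < n ∧ n ≤ M + L ∧ ¬ ∀ (k : ℕ) (y : ℝ), 1 ≤ k →
      (k : ℝ) ≤ Real.exp (δ * Real.log L / Real.log (Real.log L)) →
      k * Real.log L ≤ y → y ≤ k * Real.log L ^ A →
      (N (n + y) y k n : ℝ) < η * y / (Nat.totient k * Real.log (y / k))}.ncard : ℝ) ≤
    L * Real.exp (-(δ * Real.log L / Real.log (Real.log L)))

end Pool.Agent.Helper73.BT
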