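import Pool.Agent.Helper73.BT.MER

set_option autoImplicit false

namespace Pool.Agent.Helper73.BT

open Finset Pool.Agent.H61.Sieve

lemma floor_exp (w : ℝ) (hw : Real.log 2 ≤ w) :
    2 ≤ ⌊Real.exp w⌋₊ ∧ Real.log (⌊Real.exp w⌋₊ : ℝ) ≤ w ∧ w ≤ 2 * Real.log (⌊Real.exp w⌋₊ : ℝ) := by
  have h2 : (2 : ℝ) ≤ Real.exp w := by
    rw [← Real.log_le_iff_le_exp (by norm_num)]; exact hw
  have hf : 2 ≤ ⌊Real.exp w⌋₊ := Nat.le_floor (by exact_mod_cast h2)
  have hf' : (2 : ℝ) ≤ (⌊Real.exp w⌋₊ : ℝ) := by exact_mod_cast hf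
  have hle : (⌊Real.exp w⌋₊ : ℝ) ≤ Real.exp w := Nat.floor_le (Real.exp_pos _).le
  have hlt : Real.exp w < (⌊Real.exp w⌋₊ : ℝ) + 1 := Nat.lt_floor_add_one _
  refine ⟨hf, ?_, ?_⟩
  · rw [Real.log_le_iff_le_exp (by linarith)]; exact hle
  · have h3 : Real.exp w ≤ (⌊Real.exp w⌋₊ : ℝ) ^ 2 := by nlinarith
    have h4 : w ≤ Real.log ((⌊Real.exp w⌋₊ : ℝ) ^ 2) := by
      rw [Real.le_log_iff_exp_le (by positivity)]; exact h3
    rw [Real.log_pow] at h4
    exact_mod_cast h4

lemma rho_one (k p b : ℕ) (hp : p.Prime) (hk : ¬ p ∣ k) :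
    rho (fun p j => p ∣ b + j * k) p = 1 := by
  have : Fact p.Prime := ⟨hp⟩
  unfold rho
  rw [Finset.card_eq_one]
  have hk0 : (k : ZMod p) ≠ 0 := by
    rw [Ne, ZMod.natCast_eq_zero_iff]; exact hk
  refine ⟨((-(b : ZMod p)) * (k : ZMod p)⁻¹).val, ?_⟩
  ext j
  simp only [mem_filter, mem_range, mem_singleton]
  rw [← ZMod.natCast_eq_zero_iff]
  push_cast
  constructor
  · rintro ⟨hj, h⟩
    have h1 : (j : ZMod p) = (-(b : ZMod p)) * (k : ZMod p)⁻¹ := by
      rw [eq_mul_inv_iff_mul_eq₀ hk0]
      linear_combination h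
    rw [← h1, ZMod.val_natCast, Nat.mod_eq_of_lt hj]
  · rintro rfl
    refine ⟨ZMod.val_lt _, ?_⟩
    rw [ZMod.natCast_val, ZMod.cast_id', id, mul_assoc, inv_mul_cancel₀ hk0]
    ring

lemma Vk_ge (k D : ℕ) : ∏ p ∈ pr D, (1 - 1 / (p : ℝ)) ≤ Vk k D := by
  unfold Vk
  refine Finset.prod_le_prod_of_subset_of_le_one (Finset.filter_subset _ _) ?_ ?_
  · intro p hp; exact (mer_factor_pos hp).le
  · intro p _ _; exact mer_factor_le

lemma Vk_pos (k D : ℕ) : 0 < Vk k D :=
  Finset.prod_pos fun _ hp => mer_factor_pos (mem_filter.mp hp).1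

lemma pr_mono {D E : ℕ} (h : D ≤ E) : pr D ⊆ pr E := by
  intro p hp
  have h1 := mem_filter.mp hp
  have h' := mem_Icc.mp h1.1
  exact mem_filter.mpr ⟨mem_Icc.mpr ⟨h'.1, h'.2.trans h⟩, h1.2⟩

lemma Rs_anti {P Q : Finset ℕ} (h : P ⊆ Q) (k z n : ℕ) : Rs Q k z n ⊆ Rs P k z n := by
  intro j hj
  have h1 := mem_filter.mp hj
  exact mem_filter.mpr ⟨h1.1, fun p hp => h1.2 p (h hp)⟩

lemma rpow_log (z : ℕ) (hz : 2 ≤ z) : (z : ℝ) ^ (4 / 5 : ℝ) ≤ 5 * (z / Real.log z) := by
  have hz0 : (0 : ℝ) < z := by exact_mod_cast (by omega : 0 < z)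
  have hlz : 0 < Real.log z := Real.log_pos (by exact_mod_cast hz)
  have h1 := Real.log_le_rpow_div hz0.le (ε := 1 / 5) (by norm_num)
  have h2 : (z : ℝ) ^ (4 / 5 : ℝ) * (z : ℝ) ^ (1 / 5 : ℝ) = z := by
    rw [← Real.rpow_add hz0]; norm_num
  have h3 : 0 < (z : ℝ) ^ (4 / 5 : ℝ) := Real.rpow_pos_of_pos hz0 _
  rw [← mul_div_assoc, le_div_iff₀ hlz]
  calc (z : ℝ) ^ (4 / 5 : ℝ) * Real.log z ≤ (z : ℝ) ^ (4 / 5 : ℝ) * ((z : ℝ) ^ (1 / 5 : ℝ) / (1 / 5)) :=
        mul_le_mul_of_nonneg_left h1 h3.le
    _ = 5 * ((z : ℝ) ^ (4 / 5 : ℝ) * (z : ℝ) ^ (1 / 5 : ℝ)) := by ring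
    _ = 5 * z := by rw [h2]

theorem rb (h1 : S_MER) (h2 : S_SIV) : S_RB := by
  obtain ⟨A, hA1, hS⟩ := h2
  obtain ⟨C, hC1, -, hup, hlow, hVφ, hVV⟩ := h1
  -- the sieve
  have key : ∀ k z b D : ℕ, 1 ≤ k → 2 ≤ z → 2 ≤ D → A * Real.log D ≤ Real.log z / 5 →
      ((Rs (pr D) k z b).card : ℝ) ≤ 2 * z * Vk k D + 2 * (z : ℝ) ^ (4 / 5 : ℝ) := by
    intro k z b D hk hz hD hAD
    have hz0 : (0 : ℝ) < z := by exact_mod_cast (by omega : 0 < z)
    have hz1 : (1 : ℝ) ≤ z := by exact_mod_cast (by omega : 1 ≤ z)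
    have hρ : ∀ p ∈ (pr D).filter (fun p => ¬ p ∣ k), rho (fun p j => p ∣ b + j * k) p = 1 := by
      intro p hp
      have h3 := mem_filter.mp hp
      exact rho_one k p b (mem_filter.mp h3.1).2 h3.2
    have h3 := hS (fun p j => p ∣ b + j * k) D 1 ((pr D).filter (fun p => ¬ p ∣ k))
      ((z : ℝ) ^ (1 / 5 : ℝ)) le_rfl hD (Finset.filter_subset _ _)
      (by
        intro p _ s
        have e : b + (s + p) * k = (b + s * k) + p * k := by ring
        change p ∣ b + (s + p) * k ↔ p ∣ b + s * k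
        rw [e]
        exact (Nat.dvd_add_left (Dvd.intro _ rfl)))
      (by
        intro p hp
        rw [hρ p hp]
        exact ⟨le_rfl, le_rfl, (mem_filter.mp (mem_filter.mp hp).1).2.one_lt⟩)
      (Real.one_le_rpow hz1 (by norm_num))
      (by
        rw [Real.log_rpow hz0]
        push_cast
        linarith)
      1 z (Rs (pr D) k z b)
      (by
        intro j hj
        have h4 := mem_Icc.mp (mem_filter.mp hj).1
        exact mem_Ico.mpr ⟨h4.1, by omega⟩)
      (by
        intro j hj p hp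
        exact (mem_filter.mp hj).2 p (mem_filter.mp hp).1)
    have h4 : ((z : ℝ) ^ (1 / 5 : ℝ)) ^ 4 = (z : ℝ) ^ (4 / 5 : ℝ) := by
      rw [← Real.rpow_natCast, ← Real.rpow_mul hz0.le]; norm_num
    have h5 : ∏ p ∈ (pr D).filter (fun p => ¬ p ∣ k),
        (1 - (rho (fun p j => p ∣ b + j * k) p : ℝ) / p) = Vk k D := by
      unfold Vk
      refine Finset.prod_congr rfl fun p hp => ?_
      rw [hρ p hp]; push_cast; rfl
    rw [h4, h5] at h3
    exact h3
  have hk1 : ∀ k : ℕ, 1 ≤ k → (1 : ℝ) ≤ (k : ℝ) / Nat.totient k := by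
    intro k hk
    have hφ : (0 : ℝ) < Nat.totient k := by exact_mod_cast Nat.totient_pos.mpr hk
    rw [one_le_div hφ]
    exact_mod_cast Nat.totient_le k
  have hl2 : (1 : ℝ) / 2 < Real.log 2 := by have := Real.log_two_gt_d9; linarith
  have hl2' : Real.log 2 < 1 := by have := Real.log_two_lt_d9; linarith
  have hA0 : 0 < A := by linarith
  have hC0 : 0 < C := by linarith
  refine ⟨20 * A * C ^ 2 + 20 * A * C + 15 * C + 5 * A * C + 5 * A, by nlinarith, ?_, ?_⟩
  · intro k z b hk hz
    have hz0 : (0 : ℝ) < z := by exact_mod_cast (by omega : 0 < z)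
    have hlz : 0 < Real.log z := Real.log_pos (by exact_mod_cast hz)
    have hVpos := Vk_pos k z
    have hVlow : 1 / (C * Real.log z) ≤ Vk k z := (hlow z hz).trans (Vk_ge k z)
    have hVlow' : 1 ≤ Vk k z * (C * Real.log z) := by
      rwa [div_le_iff₀ (by positivity)] at hVlow
    rcases lt_or_ge (Real.log z / (5 * A)) (Real.log 2) with hsm | hbig
    · have h3 : ((Rs (pr z) k z b).card : ℝ) ≤ z := by
        have : (Rs (pr z) k z b).card ≤ z := by
          refine (Finset.card_filter_le _ _).trans ?_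
          simp
        exact_mod_cast this
      have h4 : Real.log z ≤ 5 * A := by
        rw [div_lt_iff₀ (by positivity)] at hsm
        nlinarith
      have h5 : 1 ≤ Vk k z * (C * (5 * A)) := by
        refine hVlow'.trans ?_
        gcongr
      calc ((Rs (pr z) k z b).card : ℝ) ≤ z := h3
        _ = z * 1 := by ring
        _ ≤ z * (Vk k z * (C * (5 * A))) := mul_le_mul_of_nonneg_left h5 hz0.le
        _ = (5 * A * C) * z * Vk k z := by ring
        _ ≤ _ := by
            have : 5 * A * C ≤ 20 * A * C ^ 2 + 20 * A * C + 15 * C + 5 * A * C + 5 * A := by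
              have : 0 ≤ 20 * A * C ^ 2 := by positivity
              have : 0 ≤ 20 * A * C := by positivity
              linarith
            gcongr
    · obtain ⟨hD2, hDle, hDge⟩ := floor_exp _ hbig
      set D := ⌊Real.exp (Real.log z / (5 * A))⌋₊ with hD
      have hDlog : 0 < Real.log D := Real.log_pos (by exact_mod_cast hD2)
      have hAD : A * Real.log D ≤ Real.log z / 5 := by
        calc A * Real.log D ≤ A * (Real.log z / (5 * A)) := mul_le_mul_of_nonneg_left hDle hA0.le
          _ = _ := by field_simp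
      have hDz : D ≤ z := by
        have h3 : Real.log D ≤ Real.log z := by
          refine hDle.trans ?_
          rw [div_le_iff₀ (by positivity)]
          nlinarith
        have h4 : (D : ℝ) ≤ z := by
          rwa [Real.log_le_log_iff (by exact_mod_cast (by omega : 0 < D)) hz0] at h3
        exact_mod_cast h4
      have h3 := key k z b D hk hz hD2 hAD
      have h4 : ((Rs (pr z) k z b).card : ℝ) ≤ ((Rs (pr D) k z b).card : ℝ) := by
        exact_mod_cast Finset.card_le_card (Rs_anti (pr_mono hDz) k z b)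
      have h5 := hVV k D z hD2 hDz
      have h6 : Real.log z / Real.log D ≤ 10 * A := by
        rw [div_le_iff₀ hDlog]
        rw [div_le_iff₀ (by positivity)] at hDge
        linarith
      have h7 : Vk k D ≤ C ^ 2 * (10 * A) * Vk k z := by
        refine h5.trans ?_
        gcongr
      have h8 : (z : ℝ) ^ (4 / 5 : ℝ) ≤ 5 * C * z * Vk k z := by
        refine (rpow_log z hz).trans ?_
        calc 5 * ((z : ℝ) / Real.log z) ≤ 5 * (z / Real.log z) * (Vk k z * (C * Real.log z)) := by
              refine le_mul_of_one_le_right (by positivity) hVlow'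
          _ = _ := by field_simp
      calc ((Rs (pr z) k z b).card : ℝ) ≤ 2 * z * Vk k D + 2 * (z : ℝ) ^ (4 / 5 : ℝ) := h4.trans h3
        _ ≤ 2 * z * (C ^ 2 * (10 * A) * Vk k z) + 2 * (5 * C * z * Vk k z) := by gcongr
        _ = (20 * A * C ^ 2 + 10 * C) * z * Vk k z := by ring
        _ ≤ _ := by
            have : 20 * A * C ^ 2 + 10 * C ≤
                20 * A * C ^ 2 + 20 * A * C + 15 * C + 5 * A * C + 5 * A := by
              have : 0 ≤ 5 * A * C := by positivity
              have : 0 ≤ 20 * A * C := by positivity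
              linarith
            gcongr
  · intro k z n hk hz
    have hz0 : (0 : ℝ) < z := by exact_mod_cast (by omega : 0 < z)
    have hlz : 0 < Real.log z := Real.log_pos (by exact_mod_cast hz)
    have hkφ := hk1 k hk
    have hkφ0 : 0 < (k : ℝ) / Nat.totient k := by linarith
    rcases lt_or_ge (Real.log z / (5 * A)) (Real.log 2) with hsm | hbig
    · have h3 : (cnt k z n : ℝ) ≤ z := by
        have : cnt k z n ≤ z := by
          refine (Finset.card_filter_le _ _).trans ?_
          simp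
        exact_mod_cast this
      have h4 : Real.log z ≤ 5 * A := by
        rw [div_lt_iff₀ (by positivity)] at hsm
        nlinarith
      calc (cnt k z n : ℝ) ≤ z := h3
        _ = Real.log z * 1 * (z / Real.log z) := by field_simp
        _ ≤ (5 * A) * ((k : ℝ) / Nat.totient k) * (z / Real.log z) := by gcongr
        _ ≤ _ := by
            have : 5 * A ≤ 20 * A * C ^ 2 + 20 * A * C + 15 * C + 5 * A * C + 5 * A := by
              have : 0 ≤ 20 * A * C ^ 2 := by positivity
              have : 0 ≤ 20 * A * C := by positivity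
              have : 0 ≤ 5 * A * C := by positivity
              linarith
            gcongr
    · obtain ⟨hD2, hDle, hDge⟩ := floor_exp _ hbig
      set D := ⌊Real.exp (Real.log z / (5 * A))⌋₊ with hD
      have hDlog : 0 < Real.log D := Real.log_pos (by exact_mod_cast hD2)
      have hAD : A * Real.log D ≤ Real.log z / 5 := by
        calc A * Real.log D ≤ A * (Real.log z / (5 * A)) := mul_le_mul_of_nonneg_left hDle hA0.le
          _ = _ := by field_simp
      have h3 := key k z n D hk hz hD2 hAD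
      have hcnt : cnt k z n ≤ D + (Rs (pr D) k z n).card := by
        have hsub : (Icc 1 z).filter (fun j => (n + j * k).Prime) ⊆ Icc 1 D ∪ Rs (pr D) k z n := by
          intro j hj
          have h4 := mem_filter.mp hj
          rw [mem_union]
          by_cases h5 : n + j * k ≤ D
          · left
            refine mem_Icc.mpr ⟨(mem_Icc.mp h4.1).1, ?_⟩
            nlinarith
          · right
            refine mem_filter.mpr ⟨h4.1, ?_⟩
            intro p hp h6
            have hp' := mem_filter.mp hp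
            rcases (Nat.dvd_prime h4.2).mp h6 with h7 | h7
            · exact hp'.2.one_lt.ne' h7
            · have := (mem_Icc.mp hp'.1).2
              omega
        calc cnt k z n ≤ (Icc 1 D ∪ Rs (pr D) k z n).card := Finset.card_le_card hsub
          _ ≤ _ := by
              refine (Finset.card_union_le _ _).trans ?_
              simp
      have hcnt' : (cnt k z n : ℝ) ≤ D + ((Rs (pr D) k z n).card : ℝ) := by exact_mod_cast hcnt
      have hD1 : (D : ℝ) ≤ (z : ℝ) ^ (4 / 5 : ℝ) := by
        have hD0 : (0 : ℝ) < D := by exact_mod_cast (by omega : 0 < D)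
        rw [← Real.log_le_log_iff hD0 (Real.rpow_pos_of_pos hz0 _), Real.log_rpow hz0]
        refine hDle.trans ?_
        rw [div_le_iff₀ (by positivity)]
        nlinarith
      have hV : Vk k D ≤ (k : ℝ) / Nat.totient k * (10 * A * C / Real.log z) := by
        refine (hVφ k D hk).trans ?_
        refine mul_le_mul_of_nonneg_left ?_ hkφ0.le
        refine (hup D hD2).trans ?_
        rw [div_le_div_iff₀ hDlog hlz]
        rw [div_le_iff₀ (by positivity)] at hDge
        nlinarith
      have h8 := rpow_log z hz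
      calc (cnt k z n : ℝ) ≤ (z : ℝ) ^ (4 / 5 : ℝ) + (2 * z * Vk k D + 2 * (z : ℝ) ^ (4 / 5 : ℝ)) := by
            linarith
        _ = 2 * z * Vk k D + 3 * (z : ℝ) ^ (4 / 5 : ℝ) := by ring
        _ ≤ 2 * z * ((k : ℝ) / Nat.totient k * (10 * A * C / Real.log z)) +
            3 * (5 * (z / Real.log z)) := by gcongr
        _ = 20 * A * C * ((k : ℝ) / Nat.totient k) * (z / Real.log z) +
            15 * 1 * (z / Real.log z) := by ring
        _ ≤ 20 * A * C * ((k : ℝ) / Nat.totient k) * (z / Real.log z) +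
            15 * (C * ((k : ℝ) / Nat.totient k)) * (z / Real.log z) := by
            have : 1 ≤ C * ((k : ℝ) / Nat.totient k) := one_le_mul_of_one_le_of_one_le hC1 hkφ
            gcongr
        _ = (20 * A * C + 15 * C) * ((k : ℝ) / Nat.totient k) * (z / Real.log z) := by ring
        _ ≤ _ := by
            have : 20 * A * C + 15 * C ≤
                20 * A * C ^ 2 + 20 * A * C + 15 * C + 5 * A * C + 5 * A := by
              have : 0 ≤ 20 * A * C ^ 2 := by positivity
              have : 0 ≤ 5 * A * C := by positivity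
              linarith
            gcongr

end Pool.Agent.Helper73.BT
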