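import Pool.Agent.Helper73.BT.GTAIL
import Pool.Agent.Helper73.BT.RB

set_option autoImplicit false

namespace Pool.Agent.Helper73.BT

open Finset

/-- GGEO. The geometric tail, over the positions `a + q t`. -/
def S_GGEO : Prop := ∃ c C : ℝ, 0 < c ∧ 1 ≤ C ∧
  ∀ (k q a z M L m : ℕ), 1 ≤ k → 1 ≤ q → (∀ p : ℕ, p.Prime → p ∣ q → p ∣ k) → 1 ≤ z → z ≤ L →
    2 ≤ L →
    (((Ioc M (M + L)).filter (fun t => m ≤ cnt k z (a + q * t))).card : ℝ) ≤
      C * L * Real.exp (-(c * m * Real.log (1 + 1 / (k * z / (Nat.totient k * Real.log L)))))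

lemma cnt_mono {k z z' n : ℕ} (h : z ≤ z') : cnt k z n ≤ cnt k z' n := by
  unfold cnt
  refine Finset.card_le_card ?_
  refine Finset.filter_subset_filter _ ?_
  exact Finset.Icc_subset_Icc_right h

theorem ggeo (h1 : S_RB) (h2 : S_GMOM) (h3 : S_GTAIL) : S_GGEO := by
  obtain ⟨C1, hC1, -, hrb⟩ := h1
  obtain ⟨A, C2, hA, hC2, hmom⟩ := h2
  obtain ⟨c0, C0, hc0, hC0, htail⟩ := h3
  obtain ⟨A1, hA1⟩ : ∃ A1 : ℝ, A1 = 20 * A := ⟨_, rfl⟩
  have hA1' : 20 ≤ A1 := by rw [hA1]; linarith
  have hA1pos : 0 < A1 := by linarith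
  have hC1pos : 0 < C1 := by linarith
  have hC2pos : 0 < C2 := by linarith
  obtain ⟨K, hK⟩ : ∃ K : ℝ, K = 12 * A1 * C2 := ⟨_, rfl⟩
  have hK1 : 1 ≤ K := by
    rw [hK]
    nlinarith
  obtain ⟨μ₀, hμ₀⟩ : ∃ μ₀ : ℝ, μ₀ = 1 / (2 * C1 * A1 + 2 * K ^ 2) := ⟨_, rfl⟩
  have hden : 0 < 2 * C1 * A1 + 2 * K ^ 2 := by positivity
  have hμ₀pos : 0 < μ₀ := by rw [hμ₀]; positivity
  have hμ₀a : μ₀ * (2 * C1 * A1) ≤ 1 := by
    rw [hμ₀, one_div, inv_mul_le_iff₀ hden]
    nlinarith
  have hμ₀b : μ₀ * (2 * K ^ 2) ≤ 1 := by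
    rw [hμ₀, one_div, inv_mul_le_iff₀ hden]
    nlinarith
  have hμ₀1 : μ₀ ≤ 1 / 2 := by nlinarith
  obtain ⟨c, hc⟩ : ∃ c : ℝ, c = min (c0 / (1 + 1 / μ₀)) (1 / (40 * C1)) := ⟨_, rfl⟩
  have hcpos : 0 < c := by
    rw [hc]
    exact lt_min (by positivity) (by positivity)
  have hca : c ≤ c0 / (1 + 1 / μ₀) := by rw [hc]; exact min_le_left _ _
  have hcb : c ≤ 1 / (40 * C1) := by rw [hc]; exact min_le_right _ _
  have hcb' : c * (40 * C1) ≤ 1 := by
    rwa [le_div_iff₀ (by positivity)] at hcb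
  have hc12 : c ≤ 1 / 2 := by nlinarith
  refine ⟨c, C0 + 5, hcpos, by linarith, ?_⟩
  intro k q a z M L m hk hq1 hqk hz hzL hL
  have hLr : (2 : ℝ) ≤ L := by exact_mod_cast hL
  have hLpos : (0 : ℝ) < L := by linarith
  have hlogL : 0 < Real.log L := Real.log_pos (by linarith)
  have hkr : (1 : ℝ) ≤ k := by exact_mod_cast hk
  have hzr1 : (1 : ℝ) ≤ z := by exact_mod_cast hz
  have hphi : 0 < (Nat.totient k : ℝ) := by exact_mod_cast Nat.totient_pos.2 hk
  obtain ⟨μ, hμ⟩ : ∃ μ : ℝ, μ = k * z / (Nat.totient k * Real.log L) := ⟨_, rfl⟩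
  have hμ0 : 0 < μ := by rw [hμ]; positivity
  rw [← hμ]
  have hlog0 : 0 ≤ Real.log (1 + 1 / μ) :=
    Real.log_nonneg (by have : 0 < 1 / μ := by positivity
                        linarith)
  have hlog1 : Real.log (1 + 1 / μ) ≤ 1 / μ := by
    have := Real.log_le_sub_one_of_pos (show (0 : ℝ) < 1 + 1 / μ by positivity)
    linarith
  rcases le_or_gt μ₀ μ with hbig | hsmall
  · refine (htail k q a z M L m hk hq1 hqk hz hzL hL).trans ?_
    rw [← hμ]
    have h4 : c * m * Real.log (1 + 1 / μ) ≤ c0 * m / (1 + μ) := by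
      have h5 : Real.log (1 + 1 / μ) ≤ (1 + 1 / μ₀) / (1 + μ) := by
        refine hlog1.trans ?_
        rw [div_le_div_iff₀ hμ0 (by linarith)]
        have h6 : 1 ≤ 1 / μ₀ * μ := by
          rw [one_div, inv_mul_eq_div, one_le_div hμ₀pos]
          exact hbig
        nlinarith
      calc c * m * Real.log (1 + 1 / μ) ≤ c0 / (1 + 1 / μ₀) * m * ((1 + 1 / μ₀) / (1 + μ)) := by
            gcongr
        _ = _ := by field_simp
    calc C0 * L * Real.exp (-(c0 * m / (1 + μ)))
        ≤ C0 * L * Real.exp (-(c * m * Real.log (1 + 1 / μ))) :=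
          mul_le_mul_of_nonneg_left (Real.exp_le_exp.mpr (by linarith)) (by positivity)
      _ ≤ (C0 + 5) * L * Real.exp (-(c * m * Real.log (1 + 1 / μ))) := by
          gcongr
          linarith
  -- small `μ`
  have htriv : (((Ioc M (M + L)).filter (fun t => m ≤ cnt k z (a + q * t))).card : ℝ) ≤ L := by
    have : ((Ioc M (M + L)).filter (fun t => m ≤ cnt k z (a + q * t))).card ≤ L := by
      refine (Finset.card_filter_le _ _).trans ?_
      simp
    exact_mod_cast this
  rcases Nat.eq_zero_or_pos m with hm0 | hm1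
  · rw [hm0]
    rw [hm0] at htriv
    simp only [Nat.cast_zero, mul_zero, zero_mul, neg_zero, Real.exp_zero, mul_one]
    nlinarith
  have hm1r : (1 : ℝ) ≤ m := by exact_mod_cast hm1
  obtain ⟨w, hw⟩ : ∃ w : ℕ, w = max z 2 := ⟨_, rfl⟩
  have hzw : z ≤ w := by rw [hw]; exact le_max_left _ _
  have hw2 : 2 ≤ w := by rw [hw]; exact le_max_right _ _
  have hwL : w ≤ L := by rw [hw]; exact max_le hzL hL
  have hw2r : (2 : ℝ) ≤ w := by exact_mod_cast hw2
  have hwz : (w : ℝ) ≤ 2 * z := by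
    have : w ≤ 2 * z := by rw [hw]; exact max_le (by omega) (by omega)
    exact_mod_cast this
  have hlogw : 0 < Real.log w := Real.log_pos (by linarith)
  have hlogw2 : 1 / 2 ≤ Real.log w := by
    have h4 : Real.log 2 ≤ Real.log w := Real.log_le_log (by norm_num) hw2r
    have := Real.log_two_gt_d9
    linarith
  have hsub : ((Ioc M (M + L)).filter (fun t => m ≤ cnt k z (a + q * t))).card ≤
      ((Ioc M (M + L)).filter (fun t => m ≤ cnt k w (a + q * t))).card := by
    refine Finset.card_le_card ?_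
    intro n hn
    have h4 := mem_filter.mp hn
    exact mem_filter.mpr ⟨h4.1, h4.2.trans (cnt_mono hzw)⟩
  have hsub' : (((Ioc M (M + L)).filter (fun t => m ≤ cnt k z (a + q * t))).card : ℝ) ≤
      (((Ioc M (M + L)).filter (fun t => m ≤ cnt k w (a + q * t))).card : ℝ) := by exact_mod_cast hsub
  refine hsub'.trans ?_
  by_cases hempty : (Ioc M (M + L)).filter (fun t => m ≤ cnt k w (a + q * t)) = ∅
  · rw [hempty]
    simp only [Finset.card_empty, Nat.cast_zero]
    positivity
  obtain ⟨n0, hn0⟩ := Finset.nonempty_of_ne_empty hempty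
  have hn1 : m ≤ cnt k w (a + q * n0) := (Finset.mem_filter.1 hn0).2
  have hmz : (m : ℝ) ≤ C1 * ((k : ℝ) / Nat.totient k) * (w / Real.log w) := by
    refine le_trans ?_ (hrb k w (a + q * n0) hk hw2)
    exact_mod_cast hn1
  have hμq : μ * Real.log L = (k : ℝ) / Nat.totient k * z := by
    rw [hμ]
    field_simp
  have hqw : (k : ℝ) / Nat.totient k * w ≤ 2 * μ * Real.log L := by
    calc (k : ℝ) / Nat.totient k * w ≤ (k : ℝ) / Nat.totient k * (2 * z) := by gcongr
      _ = 2 * (μ * Real.log L) := by rw [hμq]; ring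
      _ = _ := by ring
  have hmlw : (m : ℝ) * Real.log w ≤ 2 * C1 * μ * Real.log L := by
    have h4 : C1 * ((k : ℝ) / Nat.totient k) * (w / Real.log w) =
        C1 * ((k : ℝ) / Nat.totient k * w) / Real.log w := by ring
    rw [h4, le_div_iff₀ hlogw] at hmz
    refine hmz.trans ?_
    calc C1 * ((k : ℝ) / Nat.totient k * w) ≤ C1 * (2 * μ * Real.log L) := by gcongr
      _ = _ := by ring
  have hmlwA : A1 * (m * Real.log w) ≤ Real.log L := by
    calc A1 * (m * Real.log w) ≤ A1 * (2 * C1 * μ * Real.log L) := by gcongr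
      _ ≤ A1 * (2 * C1 * μ₀ * Real.log L) := by gcongr
      _ = (μ₀ * (2 * C1 * A1)) * Real.log L := by ring
      _ ≤ 1 * Real.log L := by gcongr
      _ = Real.log L := one_mul _
  -- the parameter `D`
  have hA1m : 0 < A1 * m := by positivity
  have hwlog : Real.log w ≤ Real.log L / (A1 * m) := by
    rw [le_div_iff₀ hA1m]
    linarith
  have hv2 : Real.log 2 ≤ Real.log L / (A1 * m) :=
    (Real.log_le_log (by norm_num) hw2r).trans hwlog
  obtain ⟨hD2, hDle, hDge⟩ := floor_exp _ hv2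
  have hDx : (⌊Real.exp (Real.log L / (A1 * m))⌋₊ : ℝ) ≤ Real.exp (Real.log L / (A1 * m)) :=
    Nat.floor_le (Real.exp_pos _).le
  have hwD : w ≤ ⌊Real.exp (Real.log L / (A1 * m))⌋₊ := by
    refine Nat.le_floor ?_
    rw [← Real.log_le_iff_le_exp (by linarith)]
    exact hwlog
  obtain ⟨D, hD⟩ : ∃ D : ℕ, D = ⌊Real.exp (Real.log L / (A1 * m))⌋₊ := ⟨_, rfl⟩
  rw [← hD] at hD2 hDle hDge hDx hwD
  have hDlog : 0 < Real.log D := Real.log_pos (by exact_mod_cast hD2)
  have hAm : A * m * Real.log D ≤ Real.log L := by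
    rw [le_div_iff₀ hA1m] at hDle
    have h4 : A * m * Real.log D ≤ A1 * m * Real.log D := by
      have : A ≤ A1 := by rw [hA1]; linarith
      gcongr
    linarith
  have hmain := hmom k q a w m D M L hk hqk hw2 hwD hm1 (by omega) hAm
  have hmark := (gtail_markov k w q a M L D m m).trans hmain
  rw [Nat.choose_self, Nat.cast_one, one_mul] at hmark
  have hsplit : (((Ioc M (M + L)).filter (fun t => m ≤ cnt k w (a + q * t))).card : ℝ) ≤
      D + ((((Ioc M (M + L)).filter (fun t => D < a + q * t)).filter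
        (fun t => m ≤ cnt k w (a + q * t))).card : ℝ) := by
    exact_mod_cast gtail_split k w q a M L D m hq1
  -- main term
  have hfac : (0 : ℝ) < (m.factorial : ℝ) := by exact_mod_cast Nat.factorial_pos m
  have hbase : C2 * w * ((k : ℝ) / Nat.totient k) / Real.log D ≤ m * (4 * A1 * C2 * μ) := by
    rw [div_le_iff₀ hDlog]
    have h20 : Real.log L ≤ 2 * A1 * m * Real.log D := by
      rw [div_le_iff₀ hA1m] at hDge
      linarith
    calc C2 * w * ((k : ℝ) / Nat.totient k) = C2 * ((k : ℝ) / Nat.totient k * w) := by ring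
      _ ≤ C2 * (2 * μ * Real.log L) := by gcongr
      _ ≤ C2 * (2 * μ * (2 * A1 * m * Real.log D)) := by gcongr
      _ = _ := by ring
  have hbase0 : 0 ≤ C2 * w * ((k : ℝ) / Nat.totient k) / Real.log D := by positivity
  have hmt : 2 * (L : ℝ) * (C2 * w * ((k : ℝ) / Nat.totient k) / Real.log D) ^ m / m.factorial ≤
      2 * L * (K * μ) ^ m := by
    calc 2 * (L : ℝ) * (C2 * w * ((k : ℝ) / Nat.totient k) / Real.log D) ^ m / m.factorial
        ≤ 2 * (L : ℝ) * (m * (4 * A1 * C2 * μ)) ^ m / m.factorial := by gcongr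
      _ = 2 * L * ((4 * A1 * C2 * μ) ^ m * ((m : ℝ) ^ m / m.factorial)) := by
          rw [mul_pow]; ring
      _ ≤ 2 * L * ((4 * A1 * C2 * μ) ^ m * (3 : ℝ) ^ m) := by
          have h5 : (m : ℝ) ^ m / m.factorial ≤ (3 : ℝ) ^ m := by
            refine (Real.pow_div_factorial_le_exp (m : ℝ) (by positivity) m).trans ?_
            have h6 : Real.exp (m : ℝ) = (Real.exp 1) ^ m := by
              rw [← Real.exp_nat_mul]
              congr 1
              ring
            rw [h6]
            exact pow_le_pow_left₀ (Real.exp_pos 1).le (by linarith [Real.exp_one_lt_d9]) m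
          gcongr
      _ = 2 * L * (K * μ) ^ m := by
          rw [← mul_pow, hK]; ring
  have hμ1 : μ < 1 / 2 := by linarith
  have hKμ : (K * μ) ^ m ≤ Real.exp (-(c * m * Real.log (1 + 1 / μ))) := by
    have h5 : K * μ ≤ Real.exp (-(1 / 2 * Real.log (1 + 1 / μ))) := by
      have h6 : Real.log (K * μ) ≤ -(1 / 2 * Real.log (1 + 1 / μ)) := by
        have h7 : (K * μ) ^ 2 * (1 + 1 / μ) ≤ 1 := by
          have h8 : (K * μ) ^ 2 * (1 + 1 / μ) = (μ * (2 * K ^ 2)) * ((1 + μ) / 2) := by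
            field_simp
            ring
          rw [h8]
          have h9 : μ * (2 * K ^ 2) ≤ 1 := by
            have : μ * (2 * K ^ 2) ≤ μ₀ * (2 * K ^ 2) := by gcongr
            linarith
          have h10 : (1 + μ) / 2 ≤ 1 := by linarith
          exact mul_le_one₀ h9 (by positivity) h10
        have h11 := Real.log_le_log (by positivity) h7
        rw [Real.log_mul (by positivity) (by positivity), Real.log_pow, Real.log_one] at h11
        push_cast at h11
        linarith
      rw [← Real.exp_log (show 0 < K * μ by positivity)]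
      exact Real.exp_le_exp.mpr h6
    calc (K * μ) ^ m ≤ (Real.exp (-(1 / 2 * Real.log (1 + 1 / μ)))) ^ m :=
          pow_le_pow_left₀ (by positivity) h5 m
      _ = Real.exp (m * (-(1 / 2 * Real.log (1 + 1 / μ)))) := by rw [Real.exp_nat_mul]
      _ ≤ _ := by
          refine Real.exp_le_exp.mpr ?_
          have : c * (m * Real.log (1 + 1 / μ)) ≤ 1 / 2 * (m * Real.log (1 + 1 / μ)) := by gcongr
          linarith
  -- the error term
  have hexpL : Real.exp (-(Real.log L / 10)) ≤ Real.exp (-(c * m * Real.log (1 + 1 / μ))) := by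
    refine Real.exp_le_exp.mpr ?_
    have h5 : (m : ℝ) ≤ 4 * C1 * μ * Real.log L := by
      have h6 : (m : ℝ) * (1 / 2) ≤ m * Real.log w := by gcongr
      linarith
    have h7 : c * m * Real.log (1 + 1 / μ) ≤ Real.log L / 10 := by
      calc c * m * Real.log (1 + 1 / μ) ≤ c * (4 * C1 * μ * Real.log L) * (1 / μ) := by gcongr
        _ = (c * (40 * C1)) * Real.log L / 10 := by field_simp; ring
        _ ≤ 1 * Real.log L / 10 := by gcongr
        _ = _ := by ring
    linarith
  have hLexp : (L : ℝ) = Real.exp (Real.log L) := (Real.exp_log hLpos).symm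
  have hL45 : (L : ℝ) ^ (4 / 5 : ℝ) = Real.exp (4 / 5 * Real.log L) := by
    rw [Real.rpow_def_of_pos hLpos]
    congr 1
    ring
  have hwm : (w : ℝ) ^ m ≤ Real.exp (Real.log L / 20) := by
    have h28 : (w : ℝ) ^ m = Real.exp (m * Real.log w) := by
      rw [Real.exp_nat_mul, Real.exp_log (by linarith)]
    rw [h28]
    refine Real.exp_le_exp.2 ?_
    have h29 : 20 * (m * Real.log w) ≤ A1 * (m * Real.log w) :=
      mul_le_mul_of_nonneg_right hA1' (by positivity)
    linarith
  have herr : 2 * (w : ℝ) ^ m * (L : ℝ) ^ (4 / 5 : ℝ) ≤ 2 * L * Real.exp (-(Real.log L / 10)) := by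
    calc 2 * (w : ℝ) ^ m * (L : ℝ) ^ (4 / 5 : ℝ)
        ≤ 2 * Real.exp (Real.log L / 20) * Real.exp (4 / 5 * Real.log L) := by
          rw [hL45]; gcongr
      _ = 2 * Real.exp (Real.log L / 20 + 4 / 5 * Real.log L) := by
          rw [mul_assoc, ← Real.exp_add]
      _ ≤ 2 * Real.exp (Real.log L + -(Real.log L / 10)) := by
          refine mul_le_mul_of_nonneg_left (Real.exp_le_exp.2 ?_) (by norm_num)
          linarith
      _ = 2 * L * Real.exp (-(Real.log L / 10)) := by
          rw [Real.exp_add, ← hLexp, mul_assoc]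
  have hDb : (D : ℝ) ≤ L * Real.exp (-(Real.log L / 10)) := by
    calc (D : ℝ) ≤ Real.exp (Real.log L / (A1 * m)) := hDx
      _ ≤ Real.exp (Real.log L + -(Real.log L / 10)) := by
          refine Real.exp_le_exp.2 ?_
          have h30 : Real.log L / (A1 * m) ≤ Real.log L / 20 := by
            refine div_le_div_of_nonneg_left hlogL.le (by norm_num) ?_
            nlinarith
          linarith
      _ = _ := by rw [Real.exp_add, ← hLexp]
  obtain ⟨E, hE⟩ : ∃ E : ℝ, E = Real.exp (-(c * m * Real.log (1 + 1 / μ))) := ⟨_, rfl⟩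
  rw [← hE] at hKμ hexpL ⊢
  have hE0 : 0 < E := by rw [hE]; exact Real.exp_pos _
  calc (((Ioc M (M + L)).filter (fun t => m ≤ cnt k w (a + q * t))).card : ℝ)
      ≤ L * Real.exp (-(Real.log L / 10)) + (2 * L * (K * μ) ^ m +
        2 * L * Real.exp (-(Real.log L / 10))) := by linarith
    _ ≤ L * E + (2 * L * E + 2 * L * E) := by gcongr
    _ = 5 * L * E := by ring
    _ ≤ (C0 + 5) * L * E := by
        gcongr
        linarith

end Pool.Agent.Helper73.BT
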