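import Pool.Agent.Helper73.BT.Base

/-!
# MOM: the binomial moments of the number of primes in a short progression
-/

set_option autoImplicit false

namespace Pool.Agent.Helper73.BT.MOM

open Finset Pool.Agent.Helper73.BT

lemma choose_cnt (k z r n : ℕ) : (cnt k z n).choose r =
    ((powersetCard r (Icc 1 z)).filter (fun J => ∀ j ∈ J, (n + j * k).Prime)).card := by
  rw [cnt, ← card_powersetCard]
  congr 1
  ext J
  simp only [mem_powersetCard, mem_filter]
  constructor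
  · rintro ⟨h1, h2⟩
    exact ⟨⟨fun j hj => (mem_filter.1 (h1 hj)).1, h2⟩, fun j hj => (mem_filter.1 (h1 hj)).2⟩
  · rintro ⟨⟨h1, h2⟩, h3⟩
    exact ⟨fun j hj => mem_filter.2 ⟨h1 hj, h3 j hj⟩, h2⟩

lemma choose_le (k z r n D : ℕ) (hn : D < n) : (cnt k z n).choose r ≤
    ((powersetCard r (Icc 1 z)).filter (fun J => ∀ p ∈ pr D, ¬ hit k J p n)).card := by
  rw [choose_cnt]
  apply card_le_card
  intro J hJ
  rw [mem_filter] at hJ ⊢
  refine ⟨hJ.1, fun p hp => ?_⟩
  rintro ⟨j, hj, hd⟩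
  rw [pr, mem_filter, mem_Icc] at hp
  have h1 := (Nat.prime_dvd_prime_iff_eq hp.2 (hJ.2 j hj)).1 hd
  have h2 : 0 ≤ j * k := Nat.zero_le _
  omega

lemma Vk_pos (k D : ℕ) : 0 < Vk k D := by
  rw [Vk]
  refine prod_pos fun p hp => ?_
  have h1 : p.Prime := (mem_filter.1 (mem_filter.1 hp).1).2
  have h2 : (1 : ℝ) < p := by exact_mod_cast h1.one_lt
  have h3 : 1 / (p : ℝ) < 1 := by rw [div_lt_one (by linarith)]; exact h2
  linarith

theorem mom (h1 : S_MER) (h2 : S_AVG) (h3 : S_RB) (h4 : S_TUP) : S_MOM := by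
  obtain ⟨CM, hCM, -, hM2, -, hM4, -⟩ := h1
  obtain ⟨CR, hCR, hR, -⟩ := h3
  obtain ⟨A, hA, hT⟩ := h4
  refine ⟨A, CR * CM, hA, by nlinarith, ?_⟩
  intro k z r D M L hk hz hzD hr hL hlog
  have hD : 2 ≤ D := hz.trans hzD
  have hlogD : 0 < Real.log D := Real.log_pos (by exact_mod_cast (by omega : 1 < D))
  have hVz := Vk_pos k z
  have hVD := Vk_pos k D
  -- swap the sums
  have e1 : (∑ n ∈ (Ioc M (M + L)).filter (fun n => D < n), ((cnt k z n).choose r : ℝ)) ≤
      ∑ J ∈ powersetCard r (Icc 1 z),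
        (((Ioc M (M + L)).filter (fun n => ∀ p ∈ pr D, ¬ hit k J p n)).card : ℝ) := by
    have e2 : (∑ n ∈ (Ioc M (M + L)).filter (fun n => D < n), ((cnt k z n).choose r)) ≤
        ∑ n ∈ Ioc M (M + L),
          ((powersetCard r (Icc 1 z)).filter (fun J => ∀ p ∈ pr D, ¬ hit k J p n)).card := by
      refine (sum_le_sum fun n hn => choose_le k z r n D (mem_filter.1 hn).2).trans ?_
      exact sum_le_sum_of_subset (filter_subset _ _)
    have e3 : ∑ n ∈ Ioc M (M + L),
          ((powersetCard r (Icc 1 z)).filter (fun J => ∀ p ∈ pr D, ¬ hit k J p n)).card =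
        ∑ J ∈ powersetCard r (Icc 1 z),
          ((Ioc M (M + L)).filter (fun n => ∀ p ∈ pr D, ¬ hit k J p n)).card := by
      simp only [card_filter]
      exact sum_comm
    rw [e3] at e2
    exact_mod_cast e2
  -- the sieve
  have e4 : ∑ J ∈ powersetCard r (Icc 1 z),
        (((Ioc M (M + L)).filter (fun n => ∀ p ∈ pr D, ¬ hit k J p n)).card : ℝ) ≤
      ∑ J ∈ powersetCard r (Icc 1 z),
        (2 * L * (Vk k D / Vk k z) ^ r * (∏ p ∈ pr z, (1 - (rh k J p : ℝ) / p)) +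
          2 * (L : ℝ) ^ (4 / 5 : ℝ)) := by
    refine sum_le_sum fun J hJ => ?_
    have := hT k z r D M L J hk hz hzD hr hJ hL hlog
    calc _ ≤ _ := this
      _ = _ := by ring
  rw [sum_add_distrib, ← mul_sum, sum_const, card_powersetCard, Nat.card_Icc, nsmul_eq_mul] at e4
  -- the average
  have e5 : ∑ J ∈ powersetCard r (Icc 1 z), ∏ p ∈ pr z, (1 - (rh k J p : ℝ) / p) ≤
      (CR * z * Vk k z) ^ r / r.factorial := by
    refine h2 k z r (pr z) _ (fun p hp => (mem_filter.1 hp).2) fun b => ?_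
    refine (Nat.choose_le_pow_div r _).trans ?_
    have e6 := hR k z b hk hz
    gcongr
  have e7 : 2 * (L : ℝ) * (Vk k D / Vk k z) ^ r *
      ∑ J ∈ powersetCard r (Icc 1 z), ∏ p ∈ pr z, (1 - (rh k J p : ℝ) / p) ≤
      2 * L * (CR * CM * z * ((k : ℝ) / Nat.totient k) / Real.log D) ^ r / r.factorial := by
    refine (mul_le_mul_of_nonneg_left e5 (by positivity)).trans ?_
    have e8 : 2 * (L : ℝ) * (Vk k D / Vk k z) ^ r * ((CR * z * Vk k z) ^ r / r.factorial) =
        2 * L * (CR * z * Vk k D) ^ r / r.factorial := by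
      rw [div_pow, mul_pow, mul_pow (CR * z) (Vk k D)]
      field_simp
    rw [e8]
    have e9 : Vk k D ≤ (k : ℝ) / Nat.totient k * (CM / Real.log D) :=
      (hM4 k D hk).trans (mul_le_mul_of_nonneg_left (hM2 D hD) (by positivity))
    have e10 : CR * z * Vk k D ≤ CR * CM * z * ((k : ℝ) / Nat.totient k) / Real.log D := by
      calc CR * z * Vk k D ≤ CR * z * ((k : ℝ) / Nat.totient k * (CM / Real.log D)) :=
            mul_le_mul_of_nonneg_left e9 (by positivity)
        _ = _ := by ring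
    have e11 : 0 ≤ CR * z * Vk k D := by positivity
    gcongr
  have e12 : ((z + 1 - 1).choose r : ℝ) * (2 * (L : ℝ) ^ (4 / 5 : ℝ)) ≤
      2 * (z : ℝ) ^ r * (L : ℝ) ^ (4 / 5 : ℝ) := by
    have e13 : ((z + 1 - 1).choose r : ℝ) ≤ (z : ℝ) ^ r := by
      rw [Nat.add_sub_cancel]
      exact_mod_cast Nat.choose_le_pow z r
    have e14 : (0 : ℝ) ≤ (L : ℝ) ^ (4 / 5 : ℝ) := by positivity
    nlinarith
  linarith

end Pool.Agent.Helper73.BT.MOM
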