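import Pool.Agent.Helper73.BT.GTUP
import Pool.Agent.Helper73.BT.MOM

set_option autoImplicit false

namespace Pool.Agent.Helper73.BT

open Finset Pool.Agent.H61.Sieve

/-- GRB. Sifting by the primes which do not divide `k`. -/
def S_GRB : Prop := ∃ C : ℝ, 1 ≤ C ∧
  (∀ k z b : ℕ, 1 ≤ k → 2 ≤ z → ((Rs (prk k z) k z b).card : ℝ) ≤ C * z * Vk k z)

/-- GMOM. The binomial moments, over the positions `a + q t`. -/
def S_GMOM : Prop := ∃ A C : ℝ, 1 ≤ A ∧ 1 ≤ C ∧
  ∀ (k q a z r D M L : ℕ), 1 ≤ k → (∀ p : ℕ, p.Prime → p ∣ q → p ∣ k) → 2 ≤ z → z ≤ D → 1 ≤ r →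
    1 ≤ L → A * r * Real.log D ≤ Real.log L →
    (∑ t ∈ (Ioc M (M + L)).filter (fun t => D < a + q * t), ((cnt k z (a + q * t)).choose r : ℝ)) ≤
      2 * L * (C * z * ((k : ℝ) / Nat.totient k) / Real.log D) ^ r / r.factorial +
        2 * (z : ℝ) ^ r * (L : ℝ) ^ (4 / 5 : ℝ)

theorem grb (h1 : S_MER) (h2 : S_SIV) : S_GRB := by
  obtain ⟨A, hA1, hS⟩ := h2
  obtain ⟨C, hC1, -, hup, hlow, hVφ, hVV⟩ := h1
  -- the sieve
  have key : ∀ k z b D : ℕ, 1 ≤ k → 2 ≤ z → 2 ≤ D → A * Real.log D ≤ Real.log z / 5 →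
      ((Rs (prk k D) k z b).card : ℝ) ≤ 2 * z * Vk k D + 2 * (z : ℝ) ^ (4 / 5 : ℝ) := by
    intro k z b D hk hz hD hAD
    have hz0 : (0 : ℝ) < z := by exact_mod_cast (by omega : 0 < z)
    have hz1 : (1 : ℝ) ≤ z := by exact_mod_cast (by omega : 1 ≤ z)
    have hρ : ∀ p ∈ (pr D).filter (fun p => ¬ p ∣ k), rho (fun p j => p ∣ b + j * k) p = 1 := by
      intro p hp
      have h3 := mem_filter.mp hp
      exact rho_one k p b (mem_filter.mp h3.1).2 h3.2
    have h3 := hS (fun p j => p ∣ b + j * k) D 1 ((pr D).filter (fun p => ¬ p ∣ k))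
      ((z : ℝ) ^ (1 / 5 : ℝ)) le_rfl hD (Finset.filter_subset _ _)
      (by
        intro p _ s
        have e : b + (s + p) * k = (b + s * k) + p * k := by ring
        change p ∣ b + (s + p) * k ↔ p ∣ b + s * k
        rw [e]
        exact (Nat.dvd_add_left (Dvd.intro _ rfl)))
      (by
        intro p hp
        rw [hρ p hp]
        exact ⟨le_rfl, le_rfl, (mem_filter.mp (mem_filter.mp hp).1).2.one_lt⟩)
      (Real.one_le_rpow hz1 (by norm_num))
      (by
        rw [Real.log_rpow hz0]
        push_cast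
        linarith)
      1 z (Rs (prk k D) k z b)
      (by
        intro j hj
        have h4 := mem_Icc.mp (mem_filter.mp hj).1
        exact mem_Ico.mpr ⟨h4.1, by omega⟩)
      (by
        intro j hj p hp
        exact (mem_filter.mp hj).2 p hp)
    have h4 : ((z : ℝ) ^ (1 / 5 : ℝ)) ^ 4 = (z : ℝ) ^ (4 / 5 : ℝ) := by
      rw [← Real.rpow_natCast, ← Real.rpow_mul hz0.le]; norm_num
    have h5 : ∏ p ∈ (pr D).filter (fun p => ¬ p ∣ k),
        (1 - (rho (fun p j => p ∣ b + j * k) p : ℝ) / p) = Vk k D := by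
      unfold Vk
      refine Finset.prod_congr rfl fun p hp => ?_
      rw [hρ p hp]; push_cast; rfl
    rw [h4, h5] at h3
    exact h3
  have hl2 : (1 : ℝ) / 2 < Real.log 2 := by have := Real.log_two_gt_d9; linarith
  have hl2' : Real.log 2 < 1 := by have := Real.log_two_lt_d9; linarith
  have hA0 : 0 < A := by linarith
  have hC0 : 0 < C := by linarith
  refine ⟨20 * A * C ^ 2 + 20 * A * C + 15 * C + 5 * A * C + 5 * A, by nlinarith, ?_⟩
  · intro k z b hk hz
    have hz0 : (0 : ℝ) < z := by exact_mod_cast (by omega : 0 < z)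
    have hlz : 0 < Real.log z := Real.log_pos (by exact_mod_cast hz)
    have hVpos := Vk_pos k z
    have hVlow : 1 / (C * Real.log z) ≤ Vk k z := (hlow z hz).trans (Vk_ge k z)
    have hVlow' : 1 ≤ Vk k z * (C * Real.log z) := by
      rwa [div_le_iff₀ (by positivity)] at hVlow
    rcases lt_or_ge (Real.log z / (5 * A)) (Real.log 2) with hsm | hbig
    · have h3 : ((Rs (prk k z) k z b).card : ℝ) ≤ z := by
        have : (Rs (prk k z) k z b).card ≤ z := by
          refine (Finset.card_filter_le _ _).trans ?_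
          simp
        exact_mod_cast this
      have h4 : Real.log z ≤ 5 * A := by
        rw [div_lt_iff₀ (by positivity)] at hsm
        nlinarith
      have h5 : 1 ≤ Vk k z * (C * (5 * A)) := by
        refine hVlow'.trans ?_
        gcongr
      calc ((Rs (prk k z) k z b).card : ℝ) ≤ z := h3
        _ = z * 1 := by ring
        _ ≤ z * (Vk k z * (C * (5 * A))) := mul_le_mul_of_nonneg_left h5 hz0.le
        _ = (5 * A * C) * z * Vk k z := by ring
        _ ≤ _ := by
            have : 5 * A * C ≤ 20 * A * C ^ 2 + 20 * A * C + 15 * C + 5 * A * C + 5 * A := by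
              have : 0 ≤ 20 * A * C ^ 2 := by positivity
              have : 0 ≤ 20 * A * C := by positivity
              linarith
            gcongr
    · obtain ⟨hD2, hDle, hDge⟩ := floor_exp _ hbig
      set D := ⌊Real.exp (Real.log z / (5 * A))⌋₊ with hD
      have hDlog : 0 < Real.log D := Real.log_pos (by exact_mod_cast hD2)
      have hAD : A * Real.log D ≤ Real.log z / 5 := by
        calc A * Real.log D ≤ A * (Real.log z / (5 * A)) := mul_le_mul_of_nonneg_left hDle hA0.le
          _ = _ := by field_simp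
      have hDz : D ≤ z := by
        have h3 : Real.log D ≤ Real.log z := by
          refine hDle.trans ?_
          rw [div_le_iff₀ (by positivity)]
          nlinarith
        have h4 : (D : ℝ) ≤ z := by
          rwa [Real.log_le_log_iff (by exact_mod_cast (by omega : 0 < D)) hz0] at h3
        exact_mod_cast h4
      have h3 := key k z b D hk hz hD2 hAD
      have h4 : ((Rs (prk k z) k z b).card : ℝ) ≤ ((Rs (prk k D) k z b).card : ℝ) := by
        exact_mod_cast Finset.card_le_card (Rs_anti (prk_subset hDz) k z b)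
      have h5 := hVV k D z hD2 hDz
      have h6 : Real.log z / Real.log D ≤ 10 * A := by
        rw [div_le_iff₀ hDlog]
        rw [div_le_iff₀ (by positivity)] at hDge
        linarith
      have h7 : Vk k D ≤ C ^ 2 * (10 * A) * Vk k z := by
        refine h5.trans ?_
        gcongr
      have h8 : (z : ℝ) ^ (4 / 5 : ℝ) ≤ 5 * C * z * Vk k z := by
        refine (rpow_log z hz).trans ?_
        calc 5 * ((z : ℝ) / Real.log z) ≤ 5 * (z / Real.log z) * (Vk k z * (C * Real.log z)) := by
              refine le_mul_of_one_le_right (by positivity) hVlow'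
          _ = _ := by field_simp
      calc ((Rs (prk k z) k z b).card : ℝ) ≤ 2 * z * Vk k D + 2 * (z : ℝ) ^ (4 / 5 : ℝ) := h4.trans h3
        _ ≤ 2 * z * (C ^ 2 * (10 * A) * Vk k z) + 2 * (5 * C * z * Vk k z) := by gcongr
        _ = (20 * A * C ^ 2 + 10 * C) * z * Vk k z := by ring
        _ ≤ _ := by
            have : 20 * A * C ^ 2 + 10 * C ≤
                20 * A * C ^ 2 + 20 * A * C + 15 * C + 5 * A * C + 5 * A := by
              have : 0 ≤ 5 * A * C := by positivity
              have : 0 ≤ 20 * A * C := by positivity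
              linarith
            gcongr

theorem gmom (h1 : S_MER) (h2 : S_AVG) (h3 : S_GRB) (h4 : S_GTUP) : S_GMOM := by
  obtain ⟨CM, hCM, -, hM2, -, hM4, -⟩ := h1
  obtain ⟨CR, hCR, hR⟩ := h3
  obtain ⟨A, hA, hT⟩ := h4
  refine ⟨A, CR * CM, hA, by nlinarith, ?_⟩
  intro k q a z r D M L hk hq hz hzD hr hL hlog
  have hD : 2 ≤ D := hz.trans hzD
  have hlogD : 0 < Real.log D := Real.log_pos (by exact_mod_cast (by omega : 1 < D))
  have hVz := Vk_pos k z
  have hVD := Vk_pos k D
  -- swap the sums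
  have e1 : (∑ t ∈ (Ioc M (M + L)).filter (fun t => D < a + q * t),
        ((cnt k z (a + q * t)).choose r : ℝ)) ≤
      ∑ J ∈ powersetCard r (Icc 1 z),
        (((Ioc M (M + L)).filter (fun t => ∀ p ∈ prk k D, ¬ hit k J p (a + q * t))).card : ℝ) := by
    have e2 : (∑ t ∈ (Ioc M (M + L)).filter (fun t => D < a + q * t),
          ((cnt k z (a + q * t)).choose r)) ≤
        ∑ t ∈ Ioc M (M + L), ((powersetCard r (Icc 1 z)).filter
          (fun J => ∀ p ∈ prk k D, ¬ hit k J p (a + q * t))).card := by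
      refine (sum_le_sum fun t ht => (MOM.choose_le k z r (a + q * t) D
        (mem_filter.1 ht).2).trans (card_le_card (?_ : _ ⊆ (powersetCard r (Icc 1 z)).filter
          (fun J => ∀ p ∈ prk k D, ¬ hit k J p (a + q * t))))).trans ?_
      · intro J hJ
        have hJ' := mem_filter.1 hJ
        exact mem_filter.2 ⟨hJ'.1, fun p hp => hJ'.2 p (mem_filter.1 hp).1⟩
      · exact sum_le_sum_of_subset (filter_subset _ _)
    have e3 : ∑ t ∈ Ioc M (M + L), ((powersetCard r (Icc 1 z)).filter
          (fun J => ∀ p ∈ prk k D, ¬ hit k J p (a + q * t))).card =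
        ∑ J ∈ powersetCard r (Icc 1 z),
          ((Ioc M (M + L)).filter (fun t => ∀ p ∈ prk k D, ¬ hit k J p (a + q * t))).card := by
      simp only [card_filter]
      exact sum_comm
    rw [e3] at e2
    exact_mod_cast e2
  -- the sieve
  have e4 : ∑ J ∈ powersetCard r (Icc 1 z),
        (((Ioc M (M + L)).filter (fun t => ∀ p ∈ prk k D, ¬ hit k J p (a + q * t))).card : ℝ) ≤
      ∑ J ∈ powersetCard r (Icc 1 z),
        (2 * L * (Vk k D / Vk k z) ^ r * (∏ p ∈ prk k z, (1 - (rh k J p : ℝ) / p)) +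
          2 * (L : ℝ) ^ (4 / 5 : ℝ)) := by
    refine sum_le_sum fun J hJ => ?_
    have := hT k q a z r D M L J hk hq hz hzD hr hJ hL hlog
    calc _ ≤ _ := this
      _ = _ := by ring
  rw [sum_add_distrib, ← mul_sum, sum_const, card_powersetCard, Nat.card_Icc, nsmul_eq_mul] at e4
  -- the average
  have e5 : ∑ J ∈ powersetCard r (Icc 1 z), ∏ p ∈ prk k z, (1 - (rh k J p : ℝ) / p) ≤
      (CR * z * Vk k z) ^ r / r.factorial := by
    refine h2 k z r (prk k z) _ (fun p hp => (mem_filter.1 (mem_filter.1 hp).1).2) fun b => ?_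
    refine (Nat.choose_le_pow_div r _).trans ?_
    have e6 := hR k z b hk hz
    gcongr
  have e7 : 2 * (L : ℝ) * (Vk k D / Vk k z) ^ r *
      ∑ J ∈ powersetCard r (Icc 1 z), ∏ p ∈ prk k z, (1 - (rh k J p : ℝ) / p) ≤
      2 * L * (CR * CM * z * ((k : ℝ) / Nat.totient k) / Real.log D) ^ r / r.factorial := by
    refine (mul_le_mul_of_nonneg_left e5 (by positivity)).trans ?_
    have e8 : 2 * (L : ℝ) * (Vk k D / Vk k z) ^ r * ((CR * z * Vk k z) ^ r / r.factorial) =
        2 * L * (CR * z * Vk k D) ^ r / r.factorial := by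
      rw [div_pow, mul_pow, mul_pow (CR * z) (Vk k D)]
      field_simp
    rw [e8]
    have e9 : Vk k D ≤ (k : ℝ) / Nat.totient k * (CM / Real.log D) :=
      (hM4 k D hk).trans (mul_le_mul_of_nonneg_left (hM2 D hD) (by positivity))
    have e10 : CR * z * Vk k D ≤ CR * CM * z * ((k : ℝ) / Nat.totient k) / Real.log D := by
      calc CR * z * Vk k D ≤ CR * z * ((k : ℝ) / Nat.totient k * (CM / Real.log D)) :=
            mul_le_mul_of_nonneg_left e9 (by positivity)
        _ = _ := by ring
    have e11 : 0 ≤ CR * z * Vk k D := by positivity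
    gcongr
  have e12 : ((z + 1 - 1).choose r : ℝ) * (2 * (L : ℝ) ^ (4 / 5 : ℝ)) ≤
      2 * (z : ℝ) ^ r * (L : ℝ) ^ (4 / 5 : ℝ) := by
    have e13 : ((z + 1 - 1).choose r : ℝ) ≤ (z : ℝ) ^ r := by
      rw [Nat.add_sub_cancel]
      exact_mod_cast Nat.choose_le_pow z r
    have e14 : (0 : ℝ) ≤ (L : ℝ) ^ (4 / 5 : ℝ) := by positivity
    nlinarith
  linarith

end Pool.Agent.Helper73.BT
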