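import Pool.Agent.Helper73.BT.GMOM

set_option autoImplicit false

namespace Pool.Agent.Helper73.BT

open Finset

/-- GTAIL. The exponential tail, over the positions `a + q t`. -/
def S_GTAIL : Prop := ∃ c C : ℝ, 0 < c ∧ 0 < C ∧
  ∀ (k q a z M L m : ℕ), 1 ≤ k → 1 ≤ q → (∀ p : ℕ, p.Prime → p ∣ q → p ∣ k) → 1 ≤ z → z ≤ L →
    2 ≤ L →
    (((Ioc M (M + L)).filter (fun t => m ≤ cnt k z (a + q * t))).card : ℝ) ≤
      C * L * Real.exp (-(c * m / (1 + k * z / (Nat.totient k * Real.log L))))

theorem tail_choose_lower {m r : ℕ} (h : 2 * r ≤ m) :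
    ((m : ℝ) / 2) ^ r ≤ (m.choose r : ℝ) * (r.factorial : ℝ) := by
  have h1 : (m + 1 - r) ^ r ≤ m.descFactorial r := Nat.pow_sub_le_descFactorial m r
  have h2 : (m.descFactorial r : ℝ) = (m.choose r : ℝ) * (r.factorial : ℝ) := by
    rw [Nat.descFactorial_eq_factorial_mul_choose]
    push_cast
    ring
  rw [← h2]
  have h3 : (((m + 1 - r) ^ r : ℕ) : ℝ) ≤ (m.descFactorial r : ℝ) := by exact_mod_cast h1
  refine le_trans ?_ h3
  push_cast
  refine pow_le_pow_left₀ (by positivity) ?_ r
  have h4 : m ≤ 2 * (m + 1 - r) := by omega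
  have h5 : (m : ℝ) ≤ 2 * ((m + 1 - r : ℕ) : ℝ) := by exact_mod_cast h4
  linarith

theorem cnt_le (k z n : ℕ) : cnt k z n ≤ z := by
  unfold cnt
  refine (Finset.card_filter_le _ _).trans ?_
  simp

theorem gtail_markov (k z q a M L D m r : ℕ) :
    (m.choose r : ℝ) * ((((Ioc M (M + L)).filter (fun t => D < a + q * t)).filter
        (fun t => m ≤ cnt k z (a + q * t))).card : ℝ) ≤
      ∑ t ∈ (Ioc M (M + L)).filter (fun t => D < a + q * t),
        ((cnt k z (a + q * t)).choose r : ℝ) := by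
  calc (m.choose r : ℝ) * ((((Ioc M (M + L)).filter (fun t => D < a + q * t)).filter
        (fun t => m ≤ cnt k z (a + q * t))).card : ℝ)
      = ∑ n ∈ ((Ioc M (M + L)).filter (fun t => D < a + q * t)).filter
          (fun t => m ≤ cnt k z (a + q * t)), (m.choose r : ℝ) := by
        rw [Finset.sum_const, nsmul_eq_mul, mul_comm]
    _ ≤ ∑ t ∈ ((Ioc M (M + L)).filter (fun t => D < a + q * t)).filter
          (fun t => m ≤ cnt k z (a + q * t)), ((cnt k z (a + q * t)).choose r : ℝ) := by
        refine Finset.sum_le_sum fun n hn => ?_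
        have h := (Finset.mem_filter.1 hn).2
        exact_mod_cast Nat.choose_le_choose r h
    _ ≤ ∑ t ∈ (Ioc M (M + L)).filter (fun t => D < a + q * t),
          ((cnt k z (a + q * t)).choose r : ℝ) :=
        Finset.sum_le_sum_of_subset_of_nonneg (Finset.filter_subset _ _)
          fun n _ _ => by positivity

theorem gtail_split (k z q a M L D m : ℕ) (hq : 1 ≤ q) :
    ((Ioc M (M + L)).filter (fun t => m ≤ cnt k z (a + q * t))).card ≤
      D + (((Ioc M (M + L)).filter (fun t => D < a + q * t)).filter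
        (fun t => m ≤ cnt k z (a + q * t))).card := by
  classical
  have h1 : (Ioc M (M + L)).filter (fun t => m ≤ cnt k z (a + q * t)) ⊆
      Icc 1 D ∪ ((Ioc M (M + L)).filter (fun t => D < a + q * t)).filter
        (fun t => m ≤ cnt k z (a + q * t)) := by
    intro n hn
    rw [Finset.mem_filter, Finset.mem_Ioc] at hn
    rw [Finset.mem_union, Finset.mem_Icc, Finset.mem_filter, Finset.mem_filter, Finset.mem_Ioc]
    by_cases h : D < a + q * n
    · exact Or.inr ⟨⟨hn.1, h⟩, hn.2⟩
    · have h2 : n ≤ q * n := Nat.le_mul_of_pos_left n (by omega)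
      exact Or.inl ⟨by omega, by omega⟩
  refine (Finset.card_le_card h1).trans ((Finset.card_union_le _ _).trans ?_)
  rw [Nat.card_Icc]
  simp

/-- **The exponential tail.** -/
theorem gtail (h1 : S_RB) (h2 : S_GMOM) : S_GTAIL := by
  obtain ⟨C1, hC1, -, hrb⟩ := h1
  obtain ⟨A, C2, hA, hC2, hmom⟩ := h2
  obtain ⟨A1, hA1⟩ : ∃ A1 : ℝ, A1 = 20 * A := ⟨_, rfl⟩
  have hA1' : 20 ≤ A1 := by rw [hA1]; linarith
  have hA1pos : 0 < A1 := by linarith
  obtain ⟨c, hc⟩ : ∃ c : ℝ, c = 1 / (12 * A1 * C1 * C2) := ⟨_, rfl⟩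
  have hC1pos : 0 < C1 := by linarith
  have hC2pos : 0 < C2 := by linarith
  have hcpos : 0 < c := by rw [hc]; positivity
  have hc0 : c * (12 * A1 * C1 * C2) = 1 := by
    rw [hc]
    field_simp
  have hc1 : c * (12 * A1 * C1) ≤ 1 := by
    have : c * (12 * A1 * C1) * 1 ≤ c * (12 * A1 * C1) * C2 :=
      mul_le_mul_of_nonneg_left hC2 (by positivity)
    nlinarith
  have hc2 : c * (12 * A1 * C2) ≤ 1 := by
    have : c * (12 * A1 * C2) * 1 ≤ c * (12 * A1 * C2) * C1 :=
      mul_le_mul_of_nonneg_left hC1 (by positivity)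
    nlinarith
  have hc3 : c * 12 * A1 ≤ 1 := by
    have : c * (12 * A1) * 1 ≤ c * (12 * A1) * C1 :=
      mul_le_mul_of_nonneg_left hC1 (by positivity)
    nlinarith
  have hc4 : c ≤ 1 / 240 := by
    have : c * 12 * 20 ≤ c * 12 * A1 := mul_le_mul_of_nonneg_left hA1' (by positivity)
    linarith
  refine ⟨c, 15, hcpos, by norm_num, ?_⟩
  intro k q a z M L m hk hq1 hqk hz hzL hL
  have hLr : (2 : ℝ) ≤ L := by exact_mod_cast hL
  have hlogL : 0 < Real.log L := Real.log_pos (by linarith)
  have hkr : (1 : ℝ) ≤ k := by exact_mod_cast hk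
  have hphi : 0 < (Nat.totient k : ℝ) := by exact_mod_cast Nat.totient_pos.2 hk
  obtain ⟨μ, hμ⟩ : ∃ μ : ℝ, μ = k * z / (Nat.totient k * Real.log L) := ⟨_, rfl⟩
  have hμ0 : 0 ≤ μ := by rw [hμ]; positivity
  rw [← hμ]
  have htriv : (((Ioc M (M + L)).filter (fun t => m ≤ cnt k z (a + q * t))).card : ℝ) ≤ L := by
    have : ((Ioc M (M + L)).filter (fun t => m ≤ cnt k z (a + q * t))).card ≤ L := by
      refine (Finset.card_filter_le _ _).trans ?_
      simp
    exact_mod_cast this
  by_cases hsmall : c * m / (1 + μ) < 1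
  · refine htriv.trans ?_
    have h3 : Real.exp (-1) ≤ Real.exp (-(c * m / (1 + μ))) := Real.exp_le_exp.2 (by linarith)
    have h4 : (1 : ℝ) / 3 ≤ Real.exp (-1) := by
      rw [Real.exp_neg, one_div]
      exact inv_anti₀ (Real.exp_pos 1) (by linarith [Real.exp_one_lt_d9])
    nlinarith
  rw [not_lt] at hsmall
  by_cases hempty : (Ioc M (M + L)).filter (fun t => m ≤ cnt k z (a + q * t)) = ∅
  · rw [hempty]
    simp only [Finset.card_empty, Nat.cast_zero]
    positivity
  obtain ⟨n0, hn0⟩ := Finset.nonempty_of_ne_empty hempty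
  have hn1 : m ≤ cnt k z (a + q * n0) := (Finset.mem_filter.1 hn0).2
  have hmz0 : m ≤ z := hn1.trans (cnt_le k z _)
  have hquot : c * m / (1 + μ) ≤ c * m := div_le_self (by positivity) (by linarith)
  have hm240 : 240 ≤ m := by
    have h5 : (1 : ℝ) ≤ 1 / 240 * m := by
      have : c * m ≤ 1 / 240 * m := mul_le_mul_of_nonneg_right hc4 (by positivity)
      linarith
    have h6 : (240 : ℝ) ≤ m := by linarith
    exact_mod_cast h6
  have hz2 : 2 ≤ z := by omega
  have hzr : (2 : ℝ) ≤ z := by exact_mod_cast hz2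
  have hlogz : 0 < Real.log z := Real.log_pos (by linarith)
  obtain ⟨r, hr⟩ : ∃ r : ℕ, r = ⌊c * m / (1 + μ)⌋₊ := ⟨_, rfl⟩
  have hr1 : 1 ≤ r := by
    rw [hr]
    exact Nat.le_floor (by simpa using hsmall)
  have hr1' : (1 : ℝ) ≤ r := by exact_mod_cast hr1
  have hrle : (r : ℝ) ≤ c * m / (1 + μ) := by
    rw [hr]
    exact Nat.floor_le (by positivity)
  have hrlt : c * m / (1 + μ) < r + 1 := by
    rw [hr]
    exact Nat.lt_floor_add_one _
  have hrm : 2 * r ≤ m := by
    have h7 : (2 : ℝ) * r ≤ m := by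
      have : c * m ≤ 1 / 240 * m := mul_le_mul_of_nonneg_right hc4 (by positivity)
      have hm0 : (0 : ℝ) ≤ m := by positivity
      linarith
    exact_mod_cast h7
  have hrμ : (r : ℝ) * (1 + μ) ≤ c * m := by
    rw [le_div_iff₀ (by linarith)] at hrle
    exact hrle
  have hmz : (m : ℝ) ≤ C1 * ((k : ℝ) / Nat.totient k) * (z / Real.log z) := by
    refine le_trans ?_ (hrb k z (a + q * n0) hk hz2)
    exact_mod_cast hn1
  -- the size of `r`
  have hq : 0 < (k : ℝ) / Nat.totient k := by positivity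
  have hμq : μ * Real.log L = (k : ℝ) / Nat.totient k * z := by
    rw [hμ]
    field_simp
  have hrz : A1 * r * Real.log z ≤ Real.log L := by
    have h8 : (r : ℝ) * μ ≤ c * m := by nlinarith
    have h9 : (r : ℝ) * μ * Real.log L ≤ c * (C1 * ((k : ℝ) / Nat.totient k) * (z / Real.log z)) *
        Real.log L := by
      refine mul_le_mul_of_nonneg_right (h8.trans ?_) hlogL.le
      exact mul_le_mul_of_nonneg_left hmz hcpos.le
    have h10 : (r : ℝ) * ((k : ℝ) / Nat.totient k * z) ≤
        c * C1 * ((k : ℝ) / Nat.totient k * z) * Real.log L / Real.log z := by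
      calc (r : ℝ) * ((k : ℝ) / Nat.totient k * z) = (r : ℝ) * μ * Real.log L := by
            rw [mul_assoc, hμq]
        _ ≤ _ := h9
        _ = _ := by ring
    have h11 : 0 < (k : ℝ) / Nat.totient k * z := by positivity
    have h12 : (r : ℝ) ≤ c * C1 * Real.log L / Real.log z := by
      refine le_of_mul_le_mul_right ?_ h11
      calc (r : ℝ) * ((k : ℝ) / Nat.totient k * z) ≤ _ := h10
        _ = _ := by ring
    have h13 : (r : ℝ) * Real.log z ≤ c * C1 * Real.log L := by
      rwa [le_div_iff₀ hlogz] at h12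
    calc A1 * r * Real.log z = A1 * (r * Real.log z) := by ring
      _ ≤ A1 * (c * C1 * Real.log L) := mul_le_mul_of_nonneg_left h13 hA1pos.le
      _ = (c * (12 * A1 * C1)) * Real.log L / 12 := by ring
      _ ≤ 1 * Real.log L / 12 := by
          refine div_le_div_of_nonneg_right ?_ (by norm_num)
          exact mul_le_mul_of_nonneg_right hc1 hlogL.le
      _ ≤ Real.log L := by linarith
  -- the parameter `D`
  have hA1r : 0 < A1 * r := by positivity
  obtain ⟨x, hx⟩ : ∃ x : ℝ, x = Real.exp (Real.log L / (A1 * r)) := ⟨_, rfl⟩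
  have hxpos : 0 < x := by rw [hx]; exact Real.exp_pos _
  have hlogx : Real.log x = Real.log L / (A1 * r) := by rw [hx, Real.log_exp]
  have hzx : (z : ℝ) ≤ x := by
    rw [← Real.log_le_log_iff (by linarith) hxpos, hlogx, le_div_iff₀ hA1r]
    linarith
  obtain ⟨D, hD⟩ : ∃ D : ℕ, D = ⌊x⌋₊ := ⟨_, rfl⟩
  have hzD : z ≤ D := by rw [hD]; exact Nat.le_floor hzx
  have hDx : (D : ℝ) ≤ x := by rw [hD]; exact Nat.floor_le hxpos.le
  have hD2 : 2 ≤ D := hz2.trans hzD
  have hD2r : (2 : ℝ) ≤ D := by exact_mod_cast hD2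
  have hxD : x ≤ (D : ℝ) ^ 2 := by
    have h14 : x < D + 1 := by rw [hD]; exact Nat.lt_floor_add_one _
    nlinarith
  have hlogD : Real.log L / (2 * A1 * r) ≤ Real.log D := by
    have h15 : Real.log x ≤ 2 * Real.log D := by
      calc Real.log x ≤ Real.log ((D : ℝ) ^ 2) := Real.log_le_log hxpos hxD
        _ = 2 * Real.log D := by rw [Real.log_pow]; push_cast; ring
    rw [hlogx] at h15
    have h16 : Real.log L / (2 * A1 * r) = Real.log L / (A1 * r) / 2 := by
      field_simp
    rw [h16]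
    linarith
  have hlogDpos : 0 < Real.log D := Real.log_pos (by linarith)
  have hAr : A * r * Real.log D ≤ Real.log L := by
    have h17 : Real.log D ≤ Real.log L / (A1 * r) := by
      rw [← hlogx]
      exact Real.log_le_log (by linarith) hDx
    rw [le_div_iff₀ hA1r] at h17
    have h18 : A * r * Real.log D ≤ A1 * r * Real.log D := by
      have h19 : A ≤ A1 := by rw [hA1]; linarith
      have : 0 ≤ (r : ℝ) * Real.log D := by positivity
      nlinarith
    linarith
  have hmain := hmom k q a z r D M L hk hqk hz2 hzD hr1 (by omega) hAr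
  have hmark := (gtail_markov k z q a M L D m r).trans hmain
  obtain ⟨T, hT⟩ : ∃ T : ℝ, T = ((((Ioc M (M + L)).filter (fun t => D < a + q * t)).filter
        (fun t => m ≤ cnt k z (a + q * t))).card : ℝ) := ⟨_, rfl⟩
  have hT0 : 0 ≤ T := by rw [hT]; positivity
  rw [← hT] at hmark
  have hch1 : (1 : ℝ) ≤ (m.choose r : ℝ) := by
    exact_mod_cast Nat.choose_pos (by omega)
  have hfac : (0 : ℝ) < (r.factorial : ℝ) := by exact_mod_cast Nat.factorial_pos r
  have hlow := tail_choose_lower hrm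
  have hmpos : (0 : ℝ) < m := by
    have : (240 : ℝ) ≤ m := by exact_mod_cast hm240
    linarith
  -- the main term
  have hbase : C2 * z * ((k : ℝ) / Nat.totient k) / Real.log D ≤ 2 * A1 * C2 * (r * μ) := by
    rw [div_le_iff₀ hlogDpos]
    have h20 : Real.log L ≤ 2 * A1 * r * Real.log D := by
      have := hlogD
      rw [div_le_iff₀ (by positivity)] at this
      linarith
    have h21 : C2 * z * ((k : ℝ) / Nat.totient k) = C2 * (μ * Real.log L) := by
      rw [hμq]
      ring
    rw [h21]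
    have h22 : C2 * (μ * Real.log L) ≤ C2 * (μ * (2 * A1 * r * Real.log D)) := by
      refine mul_le_mul_of_nonneg_left ?_ hC2pos.le
      exact mul_le_mul_of_nonneg_left h20 hμ0
    calc C2 * (μ * Real.log L) ≤ _ := h22
      _ = _ := by ring
  have hbase0 : 0 ≤ C2 * z * ((k : ℝ) / Nat.totient k) / Real.log D := by positivity
  have hbm : 2 * A1 * C2 * (r * μ) ≤ (m / 2) * (1 / 3) := by
    have h23 : (r : ℝ) * μ ≤ c * m := by nlinarith
    calc 2 * A1 * C2 * (r * μ) ≤ 2 * A1 * C2 * (c * m) :=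
          mul_le_mul_of_nonneg_left h23 (by positivity)
      _ = (c * (12 * A1 * C2)) * m / 6 := by ring
      _ ≤ 1 * m / 6 := by
          refine div_le_div_of_nonneg_right ?_ (by norm_num)
          exact mul_le_mul_of_nonneg_right hc2 hmpos.le
      _ = _ := by ring
  have hpow : (C2 * z * ((k : ℝ) / Nat.totient k) / Real.log D) ^ r ≤
      (m.choose r : ℝ) * (r.factorial : ℝ) * (1 / 3) ^ r := by
    calc (C2 * z * ((k : ℝ) / Nat.totient k) / Real.log D) ^ r ≤ ((m / 2) * (1 / 3)) ^ r :=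
          pow_le_pow_left₀ hbase0 (hbase.trans hbm) r
      _ = (m / 2) ^ r * (1 / 3) ^ r := by rw [mul_pow]
      _ ≤ _ := mul_le_mul_of_nonneg_right hlow (by positivity)
  have hthird : (1 / 3 : ℝ) ^ r ≤ Real.exp (-r) := by
    have h24 : Real.exp (-(r : ℝ)) = (Real.exp (-1)) ^ r := by
      rw [← Real.exp_nat_mul]
      congr 1
      ring
    rw [h24]
    refine pow_le_pow_left₀ (by norm_num) ?_ r
    rw [Real.exp_neg, one_div]
    exact inv_anti₀ (Real.exp_pos 1) (by linarith [Real.exp_one_lt_d9])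
  have hmt : 2 * (L : ℝ) * (C2 * z * ((k : ℝ) / Nat.totient k) / Real.log D) ^ r / r.factorial ≤
      (m.choose r : ℝ) * (2 * L * Real.exp (-r)) := by
    rw [div_le_iff₀ hfac]
    calc 2 * (L : ℝ) * (C2 * z * ((k : ℝ) / Nat.totient k) / Real.log D) ^ r
        ≤ 2 * L * ((m.choose r : ℝ) * (r.factorial : ℝ) * (1 / 3) ^ r) :=
          mul_le_mul_of_nonneg_left hpow (by positivity)
      _ ≤ 2 * L * ((m.choose r : ℝ) * (r.factorial : ℝ) * Real.exp (-r)) := by
          refine mul_le_mul_of_nonneg_left ?_ (by positivity)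
          exact mul_le_mul_of_nonneg_left hthird (by positivity)
      _ = _ := by ring
  -- powers of `L`
  have hLpos : (0 : ℝ) < L := by linarith
  have hrlog : (r : ℝ) ≤ Real.log L / 13 := by
    have h25 : (0.69 : ℝ) ≤ Real.log z := by
      have : Real.log 2 ≤ Real.log z := Real.log_le_log (by norm_num) hzr
      linarith [Real.log_two_gt_d9]
    have h26 : 20 * (r : ℝ) * 0.69 ≤ A1 * r * Real.log z := by
      have h27 : 20 * (r : ℝ) ≤ A1 * r := by nlinarith
      calc 20 * (r : ℝ) * 0.69 ≤ A1 * r * 0.69 := by nlinarith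
        _ ≤ A1 * r * Real.log z := mul_le_mul_of_nonneg_left h25 hA1r.le
    linarith
  have hzr' : (z : ℝ) ^ r ≤ Real.exp (Real.log L / 20) := by
    have h28 : (z : ℝ) ^ r = Real.exp (r * Real.log z) := by
      rw [Real.exp_nat_mul, Real.exp_log (by linarith)]
    rw [h28]
    refine Real.exp_le_exp.2 ?_
    have h29 : 20 * (r * Real.log z) ≤ A1 * (r * Real.log z) :=
      mul_le_mul_of_nonneg_right hA1' (by positivity)
    linarith
  have hL45 : (L : ℝ) ^ (4 / 5 : ℝ) = Real.exp (4 / 5 * Real.log L) := by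
    rw [Real.rpow_def_of_pos hLpos]
    congr 1
    ring
  have hLexp : (L : ℝ) = Real.exp (Real.log L) := (Real.exp_log hLpos).symm
  have herr : 2 * (z : ℝ) ^ r * (L : ℝ) ^ (4 / 5 : ℝ) ≤ 2 * L * Real.exp (-r) := by
    calc 2 * (z : ℝ) ^ r * (L : ℝ) ^ (4 / 5 : ℝ)
        ≤ 2 * Real.exp (Real.log L / 20) * Real.exp (4 / 5 * Real.log L) := by
          rw [hL45]
          refine mul_le_mul_of_nonneg_right ?_ (Real.exp_pos _).le
          exact mul_le_mul_of_nonneg_left hzr' (by norm_num)
      _ = 2 * Real.exp (Real.log L / 20 + 4 / 5 * Real.log L) := by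
          rw [mul_assoc, ← Real.exp_add]
      _ ≤ 2 * Real.exp (Real.log L + -r) := by
          refine mul_le_mul_of_nonneg_left (Real.exp_le_exp.2 ?_) (by norm_num)
          linarith
      _ = 2 * L * Real.exp (-r) := by
          rw [Real.exp_add, ← hLexp, mul_assoc]
  have hDb : (D : ℝ) ≤ L * Real.exp (-r) := by
    calc (D : ℝ) ≤ x := hDx
      _ = Real.exp (Real.log L / (A1 * r)) := hx
      _ ≤ Real.exp (Real.log L + -r) := by
          refine Real.exp_le_exp.2 ?_
          have h30 : Real.log L / (A1 * r) ≤ Real.log L / 20 := by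
            refine div_le_div_of_nonneg_left hlogL.le (by norm_num) ?_
            nlinarith
          linarith
      _ = L * Real.exp (-r) := by rw [Real.exp_add, ← hLexp]
  have hTb : T ≤ 4 * L * Real.exp (-r) := by
    have h31 : (m.choose r : ℝ) * T ≤ (m.choose r : ℝ) * (4 * L * Real.exp (-r)) := by
      refine hmark.trans ?_
      have h32 : 2 * (z : ℝ) ^ r * (L : ℝ) ^ (4 / 5 : ℝ) ≤
          (m.choose r : ℝ) * (2 * L * Real.exp (-r)) := by
        refine herr.trans ?_
        exact le_mul_of_one_le_left (by positivity) hch1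
      calc _ ≤ (m.choose r : ℝ) * (2 * L * Real.exp (-r)) +
            (m.choose r : ℝ) * (2 * L * Real.exp (-r)) := add_le_add hmt h32
        _ = _ := by ring
    exact le_of_mul_le_mul_left h31 (by linarith)
  have hexp : Real.exp (-(r : ℝ)) ≤ 3 * Real.exp (-(c * m / (1 + μ))) := by
    have h33 : Real.exp (-(r : ℝ)) ≤ Real.exp (1 + -(c * m / (1 + μ))) :=
      Real.exp_le_exp.2 (by linarith)
    rw [Real.exp_add] at h33
    refine h33.trans (mul_le_mul_of_nonneg_right ?_ (Real.exp_pos _).le)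
    linarith [Real.exp_one_lt_d9]
  have hsplit : (((Ioc M (M + L)).filter (fun t => m ≤ cnt k z (a + q * t))).card : ℝ) ≤ D + T := by
    rw [hT]
    exact_mod_cast gtail_split k z q a M L D m hq1
  calc (((Ioc M (M + L)).filter (fun t => m ≤ cnt k z (a + q * t))).card : ℝ) ≤ D + T := hsplit
    _ ≤ L * Real.exp (-r) + 4 * L * Real.exp (-r) := add_le_add hDb hTb
    _ = 5 * L * Real.exp (-r) := by ring
    _ ≤ 5 * L * (3 * Real.exp (-(c * m / (1 + μ)))) :=
        mul_le_mul_of_nonneg_left hexp (by positivity)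
    _ = 15 * L * Real.exp (-(c * m / (1 + μ))) := by ring

end Pool.Agent.Helper73.BT
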