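import Mathlib
import Pool.Agent.Helper73.BT.Base

/-!
# Module TUP: the sieve bound for one set of shifts
-/

set_option autoImplicit false

namespace Pool.Agent.Helper73.BT

open Finset Pool.Agent.H61.Sieve

/-- the class of `n` modulo `p` which is hit by `j` -/
lemma tup_aux_class {p : ℕ} (c : ℕ) :
    ((range p).filter (fun n => p ∣ n + c)).card ≤ 1 := by
  rw [Finset.card_le_one]
  intro a ha b hb
  rw [mem_filter, mem_range] at ha hb
  have h1 : a + c ≡ b + c [MOD p] := by
    rw [Nat.ModEq, Nat.mod_eq_zero_of_dvd ha.2, Nat.mod_eq_zero_of_dvd hb.2]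
  have h2 : a ≡ b [MOD p] := Nat.ModEq.add_right_cancel' c h1
  rw [Nat.ModEq, Nat.mod_eq_of_lt ha.1, Nat.mod_eq_of_lt hb.1] at h2
  exact h2

lemma tup_aux_ex {p : ℕ} (hp : 0 < p) (c : ℕ) : ∃ n, n < p ∧ p ∣ n + c := by
  refine ⟨(p - c % p) % p, Nat.mod_lt _ hp, ?_⟩
  have h1 : c % p < p := Nat.mod_lt _ hp
  have h2 : (p - c % p) % p + c ≡ (p - c % p) + c % p [MOD p] :=
    Nat.ModEq.add (Nat.mod_modEq _ _) (Nat.mod_modEq _ _).symm
  have h3 : (p - c % p) + c % p = p := by omega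
  rw [h3] at h2
  exact (Nat.modEq_zero_iff_dvd.1 (h2.trans (by simp [Nat.ModEq])))

lemma tup_aux_rh_le {k p : ℕ} (J : Finset ℕ) (hp : 0 < p) : rh k J p ≤ J.card := by
  unfold rh rho
  have h1 : (range p).filter (hit k J p) ⊆
      J.biUnion (fun j => (range p).filter (fun n => p ∣ n + j * k)) := by
    intro n hn
    rw [mem_filter] at hn
    obtain ⟨j, hj, hd⟩ := hn.2
    rw [mem_biUnion]
    exact ⟨j, hj, mem_filter.2 ⟨hn.1, hd⟩⟩
  refine (card_le_card h1).trans ?_
  refine card_biUnion_le.trans ?_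
  calc ∑ j ∈ J, ((range p).filter (fun n => p ∣ n + j * k)).card ≤ ∑ _j ∈ J, 1 :=
        sum_le_sum fun j _ => tup_aux_class _
    _ = J.card := by simp

lemma tup_aux_rh_pos {k p : ℕ} {J : Finset ℕ} (hp : 0 < p) (hJ : J.Nonempty) : 1 ≤ rh k J p := by
  unfold rh rho
  obtain ⟨j, hj⟩ := hJ
  obtain ⟨n, hn, hd⟩ := tup_aux_ex hp (j * k)
  exact Finset.card_pos.2 ⟨n, mem_filter.2 ⟨mem_range.2 hn, j, hj, hd⟩⟩

lemma tup_aux_rh_lep {k p : ℕ} (J : Finset ℕ) : rh k J p ≤ p := rho_le _ p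

lemma tup_aux_periodic {k p : ℕ} (J : Finset ℕ) (s : ℕ) : hit k J p (s + p) ↔ hit k J p s := by
  unfold hit
  refine exists_congr fun j => and_congr_right fun _ => ?_
  rw [show s + p + j * k = (s + j * k) + p by ring]
  exact (Nat.dvd_add_left (dvd_refl p))

/-- for `p > z` not dividing `k`, the classes of the `j ≤ z` are distinct -/
lemma tup_aux_rh_eq {k p z : ℕ} {J : Finset ℕ} (hp : p.Prime) (hk : ¬ p ∣ k) (hz : z < p)
    (hJ : J ⊆ Icc 1 z) : rh k J p = J.card := by
  refine le_antisymm (tup_aux_rh_le J hp.pos) ?_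
  unfold rh rho
  choose f hf1 hf2 using fun j : ℕ => tup_aux_ex hp.pos (j * k)
  refine Finset.card_le_card_of_injOn f ?_ ?_
  · intro j hj
    exact mem_coe.2 (mem_filter.2 ⟨mem_range.2 (hf1 j), j, mem_coe.1 hj, hf2 j⟩)
  · intro i hi j hj hij
    have hi' := mem_Icc.1 (hJ (mem_coe.1 hi))
    have hj' := mem_Icc.1 (hJ (mem_coe.1 hj))
    have h1 : f i + i * k ≡ f j + j * k [MOD p] := by
      rw [Nat.ModEq, Nat.mod_eq_zero_of_dvd (hf2 i), Nat.mod_eq_zero_of_dvd (hf2 j)]
    rw [hij] at h1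
    have h2 : i * k ≡ j * k [MOD p] := Nat.ModEq.add_left_cancel' _ h1
    have h3 : i ≡ j [MOD p] := by
      refine Nat.ModEq.cancel_right_of_coprime ?_ h2
      exact (Nat.Prime.coprime_iff_not_dvd hp).2 hk
    rw [Nat.ModEq, Nat.mod_eq_of_lt (by omega), Nat.mod_eq_of_lt (by omega)] at h3
    exact h3

lemma tup_aux_Vk_pos (k D : ℕ) : 0 < Vk k D := by
  unfold Vk
  refine prod_pos fun p hp => ?_
  have hpp : p.Prime := (mem_filter.1 (mem_filter.1 hp).1).2
  have h2 : (2 : ℝ) ≤ p := by exact_mod_cast hpp.two_le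
  have : 1 / (p : ℝ) ≤ 1 / 2 := one_div_le_one_div_of_le (by norm_num) h2
  linarith

lemma tup_aux_pr_subset {z D : ℕ} (h : z ≤ D) : pr z ⊆ pr D := by
  unfold pr
  exact filter_subset_filter _ (Icc_subset_Icc_right h)

theorem tup (h : S_SIV) : S_TUP := by
  obtain ⟨A, hA, hS⟩ := h
  refine ⟨5 * A, by linarith, ?_⟩
  intro k z r D M L J hk hz hzD hr hJ hL hlog
  rw [mem_powersetCard] at hJ
  have hJne : J.Nonempty := by
    rw [← Finset.card_pos, hJ.2]; omega
  have hLpos : (0 : ℝ) < L := by exact_mod_cast hL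
  have hfac : ∀ p : ℕ, p.Prime → 0 ≤ 1 - (rh k J p : ℝ) / p := by
    intro p hp
    have h1 : (rh k J p : ℝ) ≤ p := by exact_mod_cast tup_aux_rh_lep J
    have h2 : (0 : ℝ) < p := by exact_mod_cast hp.pos
    have : (rh k J p : ℝ) / p ≤ 1 := (div_le_one h2).2 h1
    linarith
  have hprod0 : 0 ≤ ∏ p ∈ pr z, (1 - (rh k J p : ℝ) / p) :=
    prod_nonneg fun p hp => hfac p (mem_filter.1 hp).2
  have hV : 0 < Vk k D / Vk k z := div_pos (tup_aux_Vk_pos k D) (tup_aux_Vk_pos k z)
  have hpow : (0 : ℝ) ≤ (L : ℝ) ^ (4 / 5 : ℝ) := Real.rpow_nonneg hLpos.le _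
  by_cases hall : ∃ p ∈ pr D, rh k J p = p
  · -- all classes modulo `p` are hit
    obtain ⟨p, hp, hpe⟩ := hall
    have hpp : p.Prime := (mem_filter.1 hp).2
    have hhit : ∀ n : ℕ, hit k J p n := by
      intro n
      have h1 : (range p).filter (hit k J p) = range p := by
        refine Finset.eq_of_subset_of_card_le (filter_subset _ _) ?_
        rw [card_range]
        exact hpe.symm.le
      have h2 : n % p ∈ (range p).filter (hit k J p) := by
        rw [h1, mem_range]; exact Nat.mod_lt _ hpp.pos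
      obtain ⟨j, hj, hd⟩ := (mem_filter.1 h2).2
      refine ⟨j, hj, ?_⟩
      have h3 : n + j * k = p * (n / p) + (n % p + j * k) := by
        have := Nat.div_add_mod n p
        omega
      rw [h3]
      exact dvd_add (dvd_mul_right _ _) hd
    have hempty : (Ioc M (M + L)).filter (fun n => ∀ p ∈ pr D, ¬ hit k J p n) = ∅ := by
      rw [filter_eq_empty_iff]
      intro n _ hn
      exact hn p hp (hhit n)
    rw [hempty]
    simp only [card_empty, Nat.cast_zero]
    positivity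
  · push Not at hall
    have hlogD : Real.log D ≥ 0 := Real.log_natCast_nonneg D
    have hmain := hS (hit k J) D r (pr D) ((L : ℝ) ^ (1 / 5 : ℝ)) hr (by omega) (Subset.refl _)
      (fun p _ s => tup_aux_periodic J s)
      (fun p hp => by
        have hpp : p.Prime := (mem_filter.1 hp).2
        refine ⟨tup_aux_rh_pos hpp.pos hJne, ?_, lt_of_le_of_ne (tup_aux_rh_lep J) (hall p hp)⟩
        rw [← hJ.2]
        exact tup_aux_rh_le J hpp.pos)
      (Real.one_le_rpow (by exact_mod_cast hL) (by norm_num))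
      (by
        rw [Real.log_rpow hLpos]
        nlinarith)
      (M + 1) L ((Ioc M (M + L)).filter (fun n => ∀ p ∈ pr D, ¬ hit k J p n))
      (by
        intro n hn
        have := mem_Ioc.1 (mem_filter.1 hn).1
        rw [mem_Ico]; omega)
      (fun s hs p hp => (mem_filter.1 hs).2 p hp)
    refine hmain.trans ?_
    have hz4 : ((L : ℝ) ^ (1 / 5 : ℝ)) ^ 4 = (L : ℝ) ^ (4 / 5 : ℝ) := by
      rw [← Real.rpow_natCast, ← Real.rpow_mul hLpos.le]
      norm_num
    rw [hz4]
    have hkey : ∏ p ∈ pr D, (1 - (rho (hit k J) p : ℝ) / p) ≤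
        (∏ p ∈ pr z, (1 - (rh k J p : ℝ) / p)) * (Vk k D / Vk k z) ^ r := by
      have hsplit : ∏ p ∈ pr D, (1 - (rho (hit k J) p : ℝ) / p) =
          (∏ p ∈ pr D \ pr z, (1 - (rh k J p : ℝ) / p)) *
            ∏ p ∈ pr z, (1 - (rh k J p : ℝ) / p) := by
        rw [prod_sdiff (tup_aux_pr_subset hzD)]
        rfl
      rw [hsplit, mul_comm]
      refine mul_le_mul_of_nonneg_left ?_ hprod0
      have hVk : Vk k D / Vk k z =
          ∏ p ∈ (pr D \ pr z).filter (fun p => ¬ p ∣ k), (1 - 1 / (p : ℝ)) := by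
        rw [div_eq_iff (tup_aux_Vk_pos k z).ne']
        unfold Vk
        have h1 : (pr z).filter (fun p => ¬ p ∣ k) ⊆ (pr D).filter (fun p => ¬ p ∣ k) :=
          filter_subset_filter _ (tup_aux_pr_subset hzD)
        rw [← prod_sdiff h1]
        congr 1
        refine prod_congr ?_ fun _ _ => rfl
        ext p
        simp only [mem_sdiff, mem_filter]
        tauto
      rw [hVk, ← prod_pow, prod_filter]
      refine prod_le_prod (fun p hp => hfac p (mem_filter.1 (mem_sdiff.1 hp).1).2) ?_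
      intro p hp
      have hpD := (mem_sdiff.1 hp).1
      have hpp : p.Prime := (mem_filter.1 hpD).2
      have hpz : z < p := by
        by_contra hcon
        apply (mem_sdiff.1 hp).2
        exact mem_filter.2 ⟨mem_Icc.2 ⟨hpp.one_lt.le, by omega⟩, hpp⟩
      have hp0 : (0 : ℝ) < p := by exact_mod_cast hpp.pos
      have hp1 : (1 : ℝ) < p := by exact_mod_cast hpp.one_lt
      by_cases hpk : p ∣ k
      · rw [if_neg (not_not.2 hpk)]
        have : 0 ≤ (rh k J p : ℝ) / p := by positivity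
        linarith
      · rw [if_pos hpk, tup_aux_rh_eq hpp hpk hpz hJ.1, hJ.2]
        have hb := one_add_mul_le_pow (a := -(1 / (p : ℝ))) (by
          have : 1 / (p : ℝ) ≤ 1 := (div_le_one hp0).2 hp1.le
          linarith) r
        calc 1 - (r : ℝ) / p = 1 + r * (-(1 / (p : ℝ))) := by ring
          _ ≤ (1 + -(1 / (p : ℝ))) ^ r := hb
          _ = (1 - 1 / (p : ℝ)) ^ r := by ring
    have h2L : (0 : ℝ) ≤ 2 * L := by positivity
    have := mul_le_mul_of_nonneg_left hkey h2L
    rw [← mul_assoc] at this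
    linarith

end Pool.Agent.Helper73.BT
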