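import Pool.Agent.Helper73.BT.RB
import Pool.Agent.Helper73.BT.TUP

set_option autoImplicit false

namespace Pool.Agent.Helper73.BT

open Finset Pool.Agent.H61.Sieve

/-- the primes up to `D` which do not divide `k` -/
def prk (k D : ℕ) : Finset ℕ := (pr D).filter (fun p => ¬ p ∣ k)

/-- GTUP. The sieve bound for one set `J` of `r` shifts, over the positions `a + q t`. -/
def S_GTUP : Prop := ∃ A : ℝ, 1 ≤ A ∧
  ∀ (k q a z r D M L : ℕ) (J : Finset ℕ), 1 ≤ k → (∀ p : ℕ, p.Prime → p ∣ q → p ∣ k) → 2 ≤ z →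
    z ≤ D → 1 ≤ r → J ∈ powersetCard r (Icc 1 z) → 1 ≤ L → A * r * Real.log D ≤ Real.log L →
    (((Ioc M (M + L)).filter (fun t => ∀ p ∈ prk k D, ¬ hit k J p (a + q * t))).card : ℝ) ≤
      2 * L * (∏ p ∈ prk k z, (1 - (rh k J p : ℝ) / p)) * (Vk k D / Vk k z) ^ r +
        2 * (L : ℝ) ^ (4 / 5 : ℝ)

lemma hit_mod {k p n n' : ℕ} {J : Finset ℕ} (h : n ≡ n' [MOD p]) : hit k J p n ↔ hit k J p n' := by
  unfold hit
  refine exists_congr fun j => and_congr_right fun _ => ?_
  exact (Nat.ModEq.add_right (j * k) h).dvd_iff (dvd_refl p)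

lemma rho_affine {k p q a : ℕ} {J : Finset ℕ} (hp : p.Prime) (hq : ¬ p ∣ q) :
    rho (fun p t => hit k J p (a + q * t)) p = rh k J p := by
  classical
  unfold rh rho
  set σ : ℕ → ℕ := fun t => (a + q * t) % p with hσ
  have hinj : Set.InjOn σ (range p : Finset ℕ) := by
    intro s hs t ht h
    have hs' := mem_range.mp (mem_coe.mp hs)
    have ht' := mem_range.mp (mem_coe.mp ht)
    have h1 : a + q * s ≡ a + q * t [MOD p] := h
    have h2 : q * s ≡ q * t [MOD p] := Nat.ModEq.add_left_cancel' _ h1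
    have h3 : s ≡ t [MOD p] :=
      Nat.ModEq.cancel_left_of_coprime ((Nat.Prime.coprime_iff_not_dvd hp).2 hq) h2
    exact Nat.ModEq.eq_of_lt_of_lt h3 hs' ht'
  have himg : (range p).image σ = range p := by
    refine Finset.eq_of_subset_of_card_le ?_ ?_
    · intro n hn
      obtain ⟨t, _, rfl⟩ := mem_image.mp hn
      exact mem_range.mpr (Nat.mod_lt _ hp.pos)
    · rw [Finset.card_image_of_injOn hinj]
  have hset : ((range p).filter (fun t => hit k J p (a + q * t))).image σ =
      (range p).filter (hit k J p) := by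
    ext n
    constructor
    · intro hn
      obtain ⟨t, ht, rfl⟩ := mem_image.mp hn
      have ht' := mem_filter.mp ht
      refine mem_filter.mpr ⟨mem_range.mpr (Nat.mod_lt _ hp.pos), ?_⟩
      exact (hit_mod (Nat.mod_modEq _ _)).mpr ht'.2
    · intro hn
      have hn' := mem_filter.mp hn
      have h1 : n ∈ (range p).image σ := by rw [himg]; exact hn'.1
      obtain ⟨t, ht, rfl⟩ := mem_image.mp h1
      refine mem_image.mpr ⟨t, mem_filter.mpr ⟨ht, ?_⟩, rfl⟩
      exact (hit_mod (Nat.mod_modEq _ _)).mp hn'.2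
  rw [← hset, Finset.card_image_of_injOn]
  exact hinj.mono (by
    intro t ht
    exact mem_coe.mpr (mem_filter.mp (mem_coe.mp ht)).1)

lemma prk_subset {k z D : ℕ} (h : z ≤ D) : prk k z ⊆ prk k D :=
  filter_subset_filter _ (tup_aux_pr_subset h)

theorem gtup (h : S_SIV) : S_GTUP := by
  obtain ⟨A, hA, hS⟩ := h
  refine ⟨5 * A, by linarith, ?_⟩
  intro k q a z r D M L J hk hq hz hzD hr hJ hL hlog
  rw [mem_powersetCard] at hJ
  have hJne : J.Nonempty := by
    rw [← Finset.card_pos, hJ.2]; omega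
  have hLpos : (0 : ℝ) < L := by exact_mod_cast hL
  have hfac : ∀ p : ℕ, p.Prime → 0 ≤ 1 - (rh k J p : ℝ) / p := by
    intro p hp
    have h1 : (rh k J p : ℝ) ≤ p := by exact_mod_cast tup_aux_rh_lep J
    have h2 : (0 : ℝ) < p := by exact_mod_cast hp.pos
    have : (rh k J p : ℝ) / p ≤ 1 := (div_le_one h2).2 h1
    linarith
  have hpr : ∀ {E p : ℕ}, p ∈ prk k E → p.Prime ∧ ¬ p ∣ k := fun {E p} hp =>
    ⟨(mem_filter.1 (mem_filter.1 hp).1).2, (mem_filter.1 hp).2⟩
  have hprod0 : 0 ≤ ∏ p ∈ prk k z, (1 - (rh k J p : ℝ) / p) :=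
    prod_nonneg fun p hp => hfac p (hpr hp).1
  have hV : 0 < Vk k D / Vk k z := div_pos (tup_aux_Vk_pos k D) (tup_aux_Vk_pos k z)
  have hpow : (0 : ℝ) ≤ (L : ℝ) ^ (4 / 5 : ℝ) := Real.rpow_nonneg hLpos.le _
  have hρ : ∀ p ∈ prk k D, rho (fun p t => hit k J p (a + q * t)) p = rh k J p := fun p hp =>
    rho_affine (hpr hp).1 (fun h => (hpr hp).2 (hq p (hpr hp).1 h))
  by_cases hall : ∃ p ∈ prk k D, rh k J p = p
  · -- all classes modulo `p` are hit
    obtain ⟨p, hp, hpe⟩ := hall
    have hpp : p.Prime := (hpr hp).1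
    have hhit : ∀ n : ℕ, hit k J p n := by
      intro n
      have h1 : (range p).filter (hit k J p) = range p := by
        refine Finset.eq_of_subset_of_card_le (filter_subset _ _) ?_
        rw [card_range]
        exact hpe.symm.le
      have h2 : n % p ∈ (range p).filter (hit k J p) := by
        rw [h1, mem_range]; exact Nat.mod_lt _ hpp.pos
      exact (hit_mod (Nat.mod_modEq _ _)).mp (mem_filter.1 h2).2
    have hempty : (Ioc M (M + L)).filter
        (fun t => ∀ p ∈ prk k D, ¬ hit k J p (a + q * t)) = ∅ := by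
      rw [filter_eq_empty_iff]
      intro n _ hn
      exact hn p hp (hhit _)
    rw [hempty]
    simp only [card_empty, Nat.cast_zero]
    positivity
  · push Not at hall
    have hlogD : Real.log D ≥ 0 := Real.log_natCast_nonneg D
    have hmain := hS (fun p t => hit k J p (a + q * t)) D r (prk k D) ((L : ℝ) ^ (1 / 5 : ℝ)) hr
      (by omega) (filter_subset _ _)
      (fun p _ s => by
        refine hit_mod ?_
        have e : a + q * (s + p) = (a + q * s) + p * q := by ring
        rw [e]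
        exact Nat.add_mul_mod_self_left (a + q * s) p q)
      (fun p hp => by
        rw [hρ p hp]
        refine ⟨tup_aux_rh_pos (hpr hp).1.pos hJne, ?_,
          lt_of_le_of_ne (tup_aux_rh_lep J) (hall p hp)⟩
        rw [← hJ.2]
        exact tup_aux_rh_le J (hpr hp).1.pos)
      (Real.one_le_rpow (by exact_mod_cast hL) (by norm_num))
      (by
        rw [Real.log_rpow hLpos]
        nlinarith)
      (M + 1) L ((Ioc M (M + L)).filter (fun t => ∀ p ∈ prk k D, ¬ hit k J p (a + q * t)))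
      (by
        intro n hn
        have := mem_Ioc.1 (mem_filter.1 hn).1
        rw [mem_Ico]; omega)
      (fun s hs p hp => (mem_filter.1 hs).2 p hp)
    refine hmain.trans ?_
    have hz4 : ((L : ℝ) ^ (1 / 5 : ℝ)) ^ 4 = (L : ℝ) ^ (4 / 5 : ℝ) := by
      rw [← Real.rpow_natCast, ← Real.rpow_mul hLpos.le]
      norm_num
    rw [hz4]
    have hkey : ∏ p ∈ prk k D, (1 - (rho (fun p t => hit k J p (a + q * t)) p : ℝ) / p) ≤
        (∏ p ∈ prk k z, (1 - (rh k J p : ℝ) / p)) * (Vk k D / Vk k z) ^ r := by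
      have hsplit : ∏ p ∈ prk k D, (1 - (rho (fun p t => hit k J p (a + q * t)) p : ℝ) / p) =
          (∏ p ∈ prk k D \ prk k z, (1 - (rh k J p : ℝ) / p)) *
            ∏ p ∈ prk k z, (1 - (rh k J p : ℝ) / p) := by
        rw [prod_sdiff (prk_subset hzD)]
        exact prod_congr rfl fun p hp => by rw [hρ p hp]
      rw [hsplit, mul_comm]
      refine mul_le_mul_of_nonneg_left ?_ hprod0
      have hVk : Vk k D / Vk k z = ∏ p ∈ prk k D \ prk k z, (1 - 1 / (p : ℝ)) := by
        rw [div_eq_iff (tup_aux_Vk_pos k z).ne']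
        unfold Vk
        exact (prod_sdiff (prk_subset hzD)).symm
      rw [hVk, ← prod_pow]
      refine prod_le_prod (fun p hp => hfac p (hpr (mem_sdiff.1 hp).1).1) ?_
      intro p hp
      have hpD := (mem_sdiff.1 hp).1
      have hpp : p.Prime := (hpr hpD).1
      have hpk := (hpr hpD).2
      have hpz : z < p := by
        by_contra hcon
        apply (mem_sdiff.1 hp).2
        exact mem_filter.2 ⟨mem_filter.2 ⟨mem_Icc.2 ⟨hpp.one_lt.le, by omega⟩, hpp⟩, hpk⟩
      have hp0 : (0 : ℝ) < p := by exact_mod_cast hpp.pos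
      have hp1 : (1 : ℝ) < p := by exact_mod_cast hpp.one_lt
      rw [tup_aux_rh_eq hpp hpk hpz hJ.1, hJ.2]
      have hb := one_add_mul_le_pow (a := -(1 / (p : ℝ))) (by
        have : 1 / (p : ℝ) ≤ 1 := (div_le_one hp0).2 hp1.le
        linarith) r
      calc 1 - (r : ℝ) / p = 1 + r * (-(1 / (p : ℝ))) := by ring
        _ ≤ (1 + -(1 / (p : ℝ))) ^ r := hb
        _ = (1 - 1 / (p : ℝ)) ^ r := by ring
    have h2L : (0 : ℝ) ≤ 2 * L := by positivity
    have := mul_le_mul_of_nonneg_left hkey h2L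
    rw [← mul_assoc] at this
    linarith

end Pool.Agent.Helper73.BT
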