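import Pool.Agent.Helper73.BT.Base
import Pool.Graph.R_seed8.Erdos456.Mertens

set_option autoImplicit false

namespace Pool.Agent.Helper73.BT

open Finset

lemma mer_factor_pos {D p : ℕ} (hp : p ∈ pr D) : (0 : ℝ) < 1 - 1 / (p : ℝ) := by
  have hp' := (mem_filter.mp hp).2
  have h2 : (2 : ℝ) ≤ p := by exact_mod_cast hp'.two_le
  have : 1 / (p : ℝ) ≤ 1 / 2 := one_div_le_one_div_of_le (by norm_num) h2
  linarith

lemma mer_factor_le {p : ℕ} : (1 : ℝ) - 1 / (p : ℝ) ≤ 1 := by
  have : 0 ≤ 1 / (p : ℝ) := by positivity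
  linarith

lemma mer_sum_telescope (x : ℕ) (hx : 1 ≤ x) :
    ∑ n ∈ Icc 2 x, (1 : ℝ) / (n * (n - 1)) = 1 - 1 / x := by
  induction x, hx using Nat.le_induction with
  | base => simp
  | succ x hx ih =>
    rw [Finset.sum_Icc_succ_top (by omega), ih]
    have : (0 : ℝ) < x := by exact_mod_cast hx
    push_cast
    have e : (x : ℝ) + 1 - 1 = x := by ring
    rw [e]
    field_simp
    ring

lemma mer_sum_sq (x : ℕ) (hx : 1 ≤ x) : ∑ p ∈ pr x, (1 : ℝ) / (p * (p - 1)) ≤ 1 := by
  have h1 : pr x ⊆ Icc 2 x := by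
    intro p hp
    have h := mem_filter.mp hp
    exact mem_Icc.mpr ⟨h.2.two_le, (mem_Icc.mp h.1).2⟩
  calc ∑ p ∈ pr x, (1 : ℝ) / (p * (p - 1)) ≤ ∑ n ∈ Icc 2 x, (1 : ℝ) / (n * (n - 1)) := by
        refine Finset.sum_le_sum_of_subset_of_nonneg h1 ?_
        intro n hn _
        have : (2 : ℝ) ≤ n := by exact_mod_cast (mem_Icc.mp hn).1
        have : (0 : ℝ) ≤ n - 1 := by linarith
        positivity
    _ = 1 - 1 / x := mer_sum_telescope x hx
    _ ≤ 1 := by
        have : 0 ≤ 1 / (x : ℝ) := by positivity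
        linarith

lemma mer_upper (x : ℕ) :
    ∏ p ∈ pr x, (1 - 1 / (p : ℝ)) ≤ Real.exp (-∑ p ∈ pr x, (1 : ℝ) / p) := by
  rw [← Finset.sum_neg_distrib, Real.exp_sum]
  refine Finset.prod_le_prod (fun p hp => (mer_factor_pos hp).le) fun p hp => ?_
  have := Real.add_one_le_exp (-(1 / (p : ℝ)))
  linarith

lemma mer_lower (x : ℕ) (hx : 1 ≤ x) :
    Real.exp (-(∑ p ∈ pr x, (1 : ℝ) / p) - 1) ≤ ∏ p ∈ pr x, (1 - 1 / (p : ℝ)) := by
  have h1 : Real.exp (-(∑ p ∈ pr x, (1 : ℝ) / p) - 1) ≤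
      Real.exp (∑ p ∈ pr x, -(1 / ((p : ℝ) - 1))) := by
    rw [Real.exp_le_exp, Finset.sum_neg_distrib]
    have h2 : ∑ p ∈ pr x, 1 / ((p : ℝ) - 1) =
        ∑ p ∈ pr x, (1 : ℝ) / p + ∑ p ∈ pr x, (1 : ℝ) / (p * (p - 1)) := by
      rw [← Finset.sum_add_distrib]
      refine Finset.sum_congr rfl fun p hp => ?_
      have hp' := (mem_filter.mp hp).2
      have h2 : (2 : ℝ) ≤ p := by exact_mod_cast hp'.two_le
      have h3 : (p : ℝ) - 1 ≠ 0 := by linarith
      field_simp
      ring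
    have h3 := mer_sum_sq x hx
    linarith
  refine h1.trans ?_
  rw [Real.exp_sum]
  refine Finset.prod_le_prod (fun p _ => (Real.exp_pos _).le) fun p hp => ?_
  have hp' := (mem_filter.mp hp).2
  have h2 : (2 : ℝ) ≤ p := by exact_mod_cast hp'.two_le
  have h3 : (0 : ℝ) < (p : ℝ) - 1 := by linarith
  rw [Real.exp_neg]
  have h4 : (1 - 1 / (p : ℝ)) = (1 + 1 / ((p : ℝ) - 1))⁻¹ := by
    field_simp
    ring
  rw [h4]
  have h5 := Real.add_one_le_exp (1 / ((p : ℝ) - 1))
  have h6 : (0 : ℝ) < 1 + 1 / ((p : ℝ) - 1) := by positivity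
  exact inv_anti₀ h6 (by linarith)

lemma mer_Vk_le (k D : ℕ) (hk : 1 ≤ k) :
    Vk k D ≤ (k : ℝ) / Nat.totient k * ∏ p ∈ pr D, (1 - 1 / (p : ℝ)) := by
  have hφ : (0 : ℝ) < Nat.totient k := by exact_mod_cast Nat.totient_pos.mpr hk
  have hk' : (0 : ℝ) < k := by exact_mod_cast hk
  have h1 : (Nat.totient k : ℝ) = k * ∏ p ∈ k.primeFactors, (1 - 1 / (p : ℝ)) := by
    have := Nat.totient_eq_mul_prod_factors k
    have h2 : ((Nat.totient k : ℚ) : ℝ) = ((k * ∏ p ∈ k.primeFactors, (1 - (p : ℚ)⁻¹) : ℚ) : ℝ) := by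
      rw [this]
    push_cast at h2
    rw [h2]
    congr 1
    exact Finset.prod_congr rfl fun p _ => by rw [one_div]
  have hsplit : (∏ p ∈ (pr D).filter (fun p => ¬ p ∣ k), (1 - 1 / (p : ℝ))) *
      ∏ p ∈ (pr D).filter (fun p => p ∣ k), (1 - 1 / (p : ℝ)) = ∏ p ∈ pr D, (1 - 1 / (p : ℝ)) := by
    rw [mul_comm]
    exact Finset.prod_filter_mul_prod_filter_not _ _ _
  have hge : ∏ p ∈ k.primeFactors, (1 - 1 / (p : ℝ)) ≤
      ∏ p ∈ (pr D).filter (fun p => p ∣ k), (1 - 1 / (p : ℝ)) := by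
    have hsub : (pr D).filter (fun p => p ∣ k) ⊆ k.primeFactors := by
      intro p hp
      have h := mem_filter.mp hp
      exact Nat.mem_primeFactors.mpr ⟨(mem_filter.mp h.1).2, h.2, by omega⟩
    refine Finset.prod_le_prod_of_subset_of_le_one hsub ?_ ?_
    · intro p hp
      have h2 : (2 : ℝ) ≤ p := by exact_mod_cast (Nat.prime_of_mem_primeFactors hp).two_le
      have : 1 / (p : ℝ) ≤ 1 / 2 := one_div_le_one_div_of_le (by norm_num) h2
      linarith
    · intro p _ _
      exact mer_factor_le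
  have hprodpos : 0 < ∏ p ∈ k.primeFactors, (1 - 1 / (p : ℝ)) := by
    refine Finset.prod_pos fun p hp => ?_
    have h2 : (2 : ℝ) ≤ p := by exact_mod_cast (Nat.prime_of_mem_primeFactors hp).two_le
    have : 1 / (p : ℝ) ≤ 1 / 2 := one_div_le_one_div_of_le (by norm_num) h2
    linarith
  have hV0 : 0 ≤ Vk k D := by
    refine Finset.prod_nonneg fun p hp => ?_
    exact (mer_factor_pos (mem_filter.mp hp).1).le
  have e : (k : ℝ) / Nat.totient k = 1 / ∏ p ∈ k.primeFactors, (1 - 1 / (p : ℝ)) := by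
    rw [h1]; field_simp
  rw [e, ← hsplit]
  change Vk k D ≤ (1 / ∏ p ∈ k.primeFactors, (1 - 1 / (p : ℝ))) *
    (Vk k D * ∏ p ∈ (pr D).filter (fun p => p ∣ k), (1 - 1 / (p : ℝ)))
  rw [one_div, ← mul_assoc, mul_comm _ (Vk k D), mul_assoc]
  have : 1 ≤ (∏ p ∈ k.primeFactors, (1 - 1 / (p : ℝ)))⁻¹ *
      ∏ p ∈ (pr D).filter (fun p => p ∣ k), (1 - 1 / (p : ℝ)) := by
    rw [inv_mul_eq_div, one_le_div hprodpos]
    exact hge
  nlinarith

theorem mer : S_MER := by
  obtain ⟨C1, h1⟩ := Pool.Agent.Erdos456.Mert.mertens_log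
  obtain ⟨C2, h2⟩ := Pool.Agent.Erdos456.Mert.mertens_inv
  have hC1 : 0 ≤ C1 := le_trans (abs_nonneg _) (h1 1 le_rfl)
  have hC2 : 0 ≤ C2 := le_trans (abs_nonneg _) (h2 3 le_rfl)
  have hl2 : (1 : ℝ) / 2 < Real.log 2 := by have := Real.log_two_gt_d9; linarith
  have hl2' : Real.log 2 < 1 := by have := Real.log_two_lt_d9; linarith
  set C := C1 + Real.exp (C2 + 1) + 4 with hC
  have hexp : 1 ≤ Real.exp (C2 + 1) := Real.one_le_exp (by linarith)
  have hup : ∀ x : ℕ, 2 ≤ x → ∏ p ∈ pr x, (1 - 1 / (p : ℝ)) ≤ C / Real.log x := by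
    intro x hx
    have hlx : 0 < Real.log x := Real.log_pos (by exact_mod_cast hx)
    rcases Nat.lt_or_ge x 3 with hx3 | hx3
    · have hx2 : x = 2 := by omega
      subst hx2
      have h3 : ∏ p ∈ pr 2, (1 - 1 / (p : ℝ)) ≤ 1 :=
        Finset.prod_le_one (fun p hp => (mer_factor_pos hp).le) fun p _ => mer_factor_le
      refine h3.trans ?_
      rw [le_div_iff₀ hlx]
      push_cast
      linarith
    · refine (mer_upper x).trans ?_
      have h3 := (abs_le.mp (h2 x hx3)).1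
      have hll : Real.log (Real.log x) - C2 ≤ ∑ p ∈ pr x, (1 : ℝ) / p := by
        unfold pr; linarith
      calc Real.exp (-∑ p ∈ pr x, (1 : ℝ) / p) ≤ Real.exp (C2 - Real.log (Real.log x)) :=
            Real.exp_le_exp.mpr (by linarith)
        _ = Real.exp C2 / Real.log x := by rw [Real.exp_sub, Real.exp_log hlx]
        _ ≤ C / Real.log x := by
            have : Real.exp C2 ≤ Real.exp (C2 + 1) := Real.exp_le_exp.mpr (by linarith)
            gcongr
            linarith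
  have hlow : ∀ x : ℕ, 2 ≤ x → 1 / (C * Real.log x) ≤ ∏ p ∈ pr x, (1 - 1 / (p : ℝ)) := by
    intro x hx
    have hlx : 0 < Real.log x := Real.log_pos (by exact_mod_cast hx)
    rcases Nat.lt_or_ge x 3 with hx3 | hx3
    · have hx2 : x = 2 := by omega
      subst hx2
      have h3 : pr 2 = {2} := by decide
      rw [h3]
      simp only [Finset.prod_singleton]
      push_cast
      rw [div_le_iff₀ (by positivity)]
      have : (4 : ℝ) * (1 / 2) ≤ C * Real.log 2 :=
        mul_le_mul (by linarith) hl2.le (by norm_num) (by positivity)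
      linarith
    · refine le_trans ?_ (mer_lower x (by omega))
      have h3 := (abs_le.mp (h2 x hx3)).2
      have hll : ∑ p ∈ pr x, (1 : ℝ) / p ≤ Real.log (Real.log x) + C2 := by
        unfold pr; linarith
      calc 1 / (C * Real.log x) ≤ 1 / (Real.exp (C2 + 1) * Real.log x) := by
            refine one_div_le_one_div_of_le (by positivity) ?_
            gcongr
            linarith
        _ = Real.exp (-Real.log (Real.log x) - (C2 + 1)) := by
            rw [Real.exp_sub, Real.exp_neg, Real.exp_log hlx]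
            field_simp
        _ ≤ _ := Real.exp_le_exp.mpr (by linarith)
  refine ⟨C, by linarith, ?_, hup, hlow, mer_Vk_le, ?_⟩
  · intro x hx
    have h3 := (abs_le.mp (h1 x hx)).2
    unfold pr
    linarith
  · intro k D E hD hDE
    have hlD : 0 < Real.log D := Real.log_pos (by exact_mod_cast hD)
    have hlE : 0 < Real.log E := Real.log_pos (by exact_mod_cast (by omega : 1 < E))
    have hsub : pr D ⊆ pr E := by
      intro p hp
      have h := mem_filter.mp hp
      have h' := mem_Icc.mp h.1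
      exact mem_filter.mpr ⟨mem_Icc.mpr ⟨h'.1, h'.2.trans hDE⟩, h.2⟩
    -- the products over D < p ≤ E
    set X := ∏ p ∈ ((pr E) \ (pr D)).filter (fun p => ¬ p ∣ k), (1 - 1 / (p : ℝ)) with hX
    set Z := ∏ p ∈ (pr E) \ (pr D), (1 - 1 / (p : ℝ)) with hZ
    have hpos : ∀ p ∈ pr E \ pr D, (0 : ℝ) < 1 - 1 / (p : ℝ) := fun p hp =>
      mer_factor_pos (mem_sdiff.mp hp).1
    have hZpos : 0 < Z := Finset.prod_pos hpos
    have hZX : Z ≤ X := by
      refine Finset.prod_le_prod_of_subset_of_le_one (Finset.filter_subset _ _) ?_ ?_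
      · intro p hp; exact (hpos p hp).le
      · intro p _ _; exact mer_factor_le
    have hVE : Vk k E = X * Vk k D := by
      unfold Vk
      rw [hX, ← Finset.prod_union]
      · congr 1
        ext p
        simp only [mem_filter, mem_union, mem_sdiff]
        constructor
        · rintro ⟨h3, h4⟩
          by_cases h5 : p ∈ pr D
          · exact Or.inr ⟨h5, h4⟩
          · exact Or.inl ⟨⟨h3, h5⟩, h4⟩
        · rintro (⟨⟨h3, _⟩, h4⟩ | ⟨h3, h4⟩)
          · exact ⟨h3, h4⟩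
          · exact ⟨hsub h3, h4⟩
      · rw [Finset.disjoint_left]
        intro p hp hp'
        exact (mem_sdiff.mp (mem_filter.mp hp).1).2 (mem_filter.mp hp').1
    have hPE : ∏ p ∈ pr E, (1 - 1 / (p : ℝ)) = Z * ∏ p ∈ pr D, (1 - 1 / (p : ℝ)) := by
      rw [hZ]
      exact (Finset.prod_sdiff hsub).symm
    have hV0 : 0 ≤ Vk k D := by
      refine Finset.prod_nonneg fun p hp => ?_
      exact (mer_factor_pos (mem_filter.mp hp).1).le
    have h3 := hup D hD
    have h4 := hlow E (hD.trans hDE)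
    rw [hPE] at h4
    have hCpos : 0 < C := by linarith
    have h5 : 1 ≤ C ^ 2 * (Real.log E / Real.log D) * Z := by
      have h6 : 1 / (C * Real.log E) ≤ Z * (C / Real.log D) :=
        h4.trans (mul_le_mul_of_nonneg_left h3 hZpos.le)
      rw [div_le_iff₀ (by positivity)] at h6
      calc (1 : ℝ) ≤ Z * (C / Real.log D) * (C * Real.log E) := h6
        _ = _ := by field_simp
    have h6 : C ^ 2 * (Real.log E / Real.log D) * Z ≤ C ^ 2 * (Real.log E / Real.log D) * X :=
      mul_le_mul_of_nonneg_left hZX (by positivity)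
    rw [hVE]
    calc Vk k D = 1 * Vk k D := by ring
      _ ≤ (C ^ 2 * (Real.log E / Real.log D) * X) * Vk k D :=
          mul_le_mul_of_nonneg_right (h5.trans h6) hV0
      _ = _ := by ring

end Pool.Agent.Helper73.BT
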